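import Pool.Agent.Lib.MP_5022ed_ag.Hom

-- part Pool.Agent.Lib.MP_5022ed_ag.Slope
section

/-!
Symbolic powers in a strongly F-regular ring are generated in linearly bounded degree.
-/

set_option autoImplicit false

namespace Pool.Agent.Lib.MP_5022ed_ag

open Module IsLocalRing MvPolynomial

variable (k : Type*) [Field k] {R : Type*} [CommRing R] [Algebra k R] {N : ℕ} (y : Fin N → R)

/-- The element is a polynomial of degree at most `j` in `y`. -/
def Deg (z : R) (j : ℕ) : Prop :=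
  ∃ f : MvPolynomial (Fin N) k, f.totalDegree ≤ j ∧ aeval y f = z

variable {k y}

lemma Deg.mono {z : R} {i j : ℕ} (h : Deg k y z i) (hij : i ≤ j) : Deg k y z j := by
  obtain ⟨f, hf, rfl⟩ := h
  exact ⟨f, hf.trans hij, rfl⟩

lemma Deg.zero (j : ℕ) : Deg k y 0 j := ⟨0, by simp, by simp⟩

lemma Deg.one : Deg k y 1 0 := ⟨1, by simp, by simp⟩

lemma Deg.add {a b : R} {j : ℕ} (ha : Deg k y a j) (hb : Deg k y b j) : Deg k y (a + b) j := by
  obtain ⟨f, hf, rfl⟩ := ha
  obtain ⟨g, hg, rfl⟩ := hb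
  exact ⟨f + g, (totalDegree_add f g).trans (max_le hf hg), by simp⟩

lemma Deg.mul {a b : R} {i j : ℕ} (ha : Deg k y a i) (hb : Deg k y b j) :
    Deg k y (a * b) (i + j) := by
  obtain ⟨f, hf, rfl⟩ := ha
  obtain ⟨g, hg, rfl⟩ := hb
  exact ⟨f * g, (totalDegree_mul f g).trans (add_le_add hf hg), by simp⟩

lemma Deg.pow {a : R} {j : ℕ} (ha : Deg k y a j) (n : ℕ) : Deg k y (a ^ n) (j * n) := by
  induction n with
  | zero => simpa using Deg.one
  | succ n ih => rw [pow_succ, mul_add, mul_one]; exact ih.mul ha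

lemma deg_monomial {q : ℕ} {α : Fin N →₀ ℕ} (h : ∀ i, α i < q) :
    Deg k y (aeval y (monomial α (1 : k))) (N * q) :=
  ⟨_, by simpa using totalDegree_monomial_lt (k := k) h, rfl⟩

lemma Deg.exists_prod {ι : Type*} (s : Finset ι) {t : ι → R} (h : ∀ i, ∃ j, Deg k y (t i) j) :
    ∃ j, Deg k y (∏ i ∈ s, t i) j :=
  Finset.prod_induction _ (fun z => ∃ j, Deg k y z j)
    (fun _ _ ⟨_, ha⟩ ⟨_, hb⟩ => ⟨_, ha.mul hb⟩) ⟨_, Deg.one⟩ fun i _ => h i

variable (k y) in
/-- The ring is a localisation of the algebra generated by `y`. -/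
def LocGen : Prop := ∀ r : R, ∃ t, IsUnit t ∧ (∃ j, Deg k y t j) ∧ ∃ j, Deg k y (t * r) j

variable {p : ℕ} [ExpChar k p] [ExpChar R p] [PerfectField k]

lemma LocGen.induction (hl : LocGen k y) (e : ℕ) {P : R → Prop} (h0 : P 0)
    (hadd : ∀ a b, P a → P b → P (a + b))
    (hmono : ∀ (c : R) (α : Fin N →₀ ℕ), (∀ i, α i < p ^ e) →
      P (c ^ p ^ e * aeval y (monomial α (1 : k)))) (r : R) : P r := by
  obtain ⟨t, ⟨t, rfl⟩, ⟨j, ht⟩, j', htr⟩ := hl r
  obtain ⟨f, -, hf⟩ := (ht.pow (p ^ e - 1)).mul htr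
  have h1 : p ^ e - 1 + 1 = p ^ e := Nat.sub_add_cancel (expChar_pow_pos R p e)
  have h2 : r = (↑t⁻¹ : R) ^ p ^ e * aeval y f := by
    rw [hf, ← mul_assoc (_ ^ (p ^ e - 1)), ← pow_succ, h1, ← mul_assoc, ← mul_pow]
    simp
  rw [h2]
  refine frob_induction (p := p) e f.totalDegree
    (P := fun f => P ((↑t⁻¹ : R) ^ p ^ e * aeval y f)) (by simpa using h0)
    (fun f g hf hg => by rw [map_add, mul_add]; exact hadd _ _ hf hg)
    (fun c α _ hα => ?_) f le_rfl
  rw [map_mul, map_pow, ← mul_assoc, ← mul_pow]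
  exact hmono _ α hα

lemma LocGen.finite (hl : LocGen k y) (e : ℕ) : Module.Finite R (Fr p e R) := by
  let b : (Fin N → Fin (p ^ e)) → Fr p e R :=
    fun α => Fr.mk p e (aeval y (monomial (expo α) (1 : k)))
  refine ⟨Submodule.fg_def.2 ⟨Set.range b, Set.finite_range b, top_unique fun r _ => ?_⟩⟩
  obtain ⟨r, rfl⟩ := (Fr.mk p e).surjective r
  refine hl.induction (p := p) e (P := fun r => Fr.mk p e r ∈ Submodule.span R (Set.range b))
    (by simp) (fun a b ha hb => by rw [map_add]; exact add_mem ha hb) (fun c α hα => ?_) r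
  obtain ⟨β, rfl⟩ := exists_expo hα
  exact Submodule.smul_mem _ c (Submodule.subset_span ⟨β, rfl⟩)

variable {V : Set (Ideal R)} (hV : ∀ P ∈ V, P.IsPrime) (γ : Ideal R → R)

variable (k y) in
/-- The ideal generated by the elements of the symbolic power of degree at most `J`. -/
def gg (n J : ℕ) : Ideal R := Ideal.span {z | z ∈ aa hV γ n ∧ Deg k y z J}

variable {hV γ}

omit [PerfectField k] in
lemma gg_mono {n i j : ℕ} (h : i ≤ j) : gg k y hV γ n i ≤ gg k y hV γ n j :=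
  Ideal.span_mono fun _ hz => ⟨hz.1, hz.2.mono h⟩

section step

variable {e B : ℕ} {ψ : Fr p e R →ₗ[R] R}
  (hψ : ∀ α : Fin N →₀ ℕ, (∀ i, α i < p ^ e) →
    Deg k y (ψ (Fr.mk p e (aeval y (monomial α (1 : k))))) B)
include hψ

lemma deg_map {z : R} {J : ℕ} (hz : Deg k y z (p ^ e * J)) :
    Deg k y (ψ (Fr.mk p e z)) (J + B) := by
  obtain ⟨f, hf, rfl⟩ := hz
  refine frob_induction (p := p) e (p ^ e * J)
    (P := fun f => Deg k y (ψ (Fr.mk p e (aeval y f))) (J + B)) (by simpa using Deg.zero _)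
    (fun f g hf hg => by rw [map_add, map_add, map_add]; exact hf.add hg)
    (fun c α hc hα => ?_) f hf
  rw [map_mul, map_pow, Fr.apply_pow_mul]
  refine Deg.mul ⟨c, ?_, rfl⟩ (hψ α hα)
  rw [mul_comm] at hc
  exact Nat.le_of_mul_le_mul_left hc (expChar_pow_pos R p e)

lemma gg_map (hl : LocGen k y) {n J : ℕ} {z : R} (hz : z ∈ gg k y hV γ (n * p ^ e) (p ^ e * J)) :
    ψ (Fr.mk p e z) ∈ gg k y hV γ n (J + (N + B)) := by
  suffices ∀ r, ψ (Fr.mk p e (r * z)) ∈ gg k y hV γ n (J + (N + B)) by simpa using this 1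
  induction hz using Submodule.span_induction with
  | mem z hz =>
    refine hl.induction (p := p) e (by simp)
      (fun a b ha hb => by rw [add_mul, map_add, map_add]; exact add_mem ha hb) fun c α hα => ?_
    rw [mul_assoc, Fr.apply_pow_mul]
    refine Ideal.mul_mem_left _ _ (Ideal.subset_span ⟨aa_map ψ (Ideal.mul_mem_left _ _ hz.1), ?_⟩)
    rw [← add_assoc]
    exact deg_map hψ (((deg_monomial hα).mul hz.2).mono (le_of_eq (by ring)))
  | zero => simp
  | add a b _ _ ha hb =>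
    intro r
    rw [mul_add, map_add, map_add]
    exact add_mem (ha r) (hb r)
  | smul c a _ ha =>
    intro r
    rw [smul_eq_mul, ← mul_assoc]
    exact ha _

lemma gg_iterate (hq : 2 ≤ p ^ e) (hl : LocGen k y) (i : ℕ) : ∀ {n J : ℕ} {z : R},
    z ∈ gg k y hV γ (n * (p ^ e) ^ i) ((p ^ e) ^ i * J) →
    (fun u => ψ (Fr.mk p e u))^[i] z ∈ gg k y hV γ n (J + 2 * (N + B)) := by
  induction i with
  | zero =>
    intro n J z hz
    simp only [pow_zero, mul_one, one_mul] at hz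
    exact gg_mono (Nat.le_add_right _ _) hz
  | succ i ih =>
    intro n J z hz
    rw [Function.iterate_succ_apply']
    have h1 := ih (n := n * p ^ e) (J := p ^ e * J) (z := z) (by
      convert hz using 2 <;> ring)
    have h2 := gg_map hψ hl (gg_mono (j := p ^ e * (J + (N + B))) (by nlinarith) h1)
    exact gg_mono (le_of_eq (by ring)) h2

end step

omit [ExpChar k p] [PerfectField k] in
lemma iterate_pow_mul {e : ℕ} (ψ : Fr p e R →ₗ[R] R) (i : ℕ) : ∀ c u : R,
    (fun u => ψ (Fr.mk p e u))^[i] (c ^ (p ^ e) ^ i * u) =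
      c * (fun u => ψ (Fr.mk p e u))^[i] u := by
  induction i with
  | zero => intro c u; simp
  | succ i ih =>
    intro c u
    rw [Function.iterate_succ_apply', Function.iterate_succ_apply', pow_succ', pow_mul, ih,
      Fr.apply_pow_mul]

omit [ExpChar k p] [PerfectField k] in
lemma iterate_eq_one {e : ℕ} (ψ : Fr p e R →ₗ[R] R) {h r : R} (hr : ψ (Fr.mk p e (r * h)) = 1)
    (i : ℕ) : ∃ s, (fun u => ψ (Fr.mk p e u))^[i] (h ^ nn (p ^ e) i * s) = 1 := by
  induction i with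
  | zero => exact ⟨1, by simp [nn]⟩
  | succ i ih =>
    obtain ⟨s, hs⟩ := ih
    refine ⟨r ^ (p ^ e) ^ i * s, ?_⟩
    have : h ^ nn (p ^ e) (i + 1) * (r ^ (p ^ e) ^ i * s) =
        (r * h) ^ (p ^ e) ^ i * (h ^ nn (p ^ e) i * s) := by rw [nn]; ring
    rw [this, Function.iterate_succ_apply', iterate_pow_mul, hs, mul_one, hr]

theorem slope [IsDomain R] (hp : 2 ≤ p) (hl : LocGen k y) (hS : SFR p R)
    (hz : ∃ z ∈ aa hV γ 1, z ≠ 0) : ∃ C : ℕ, ∀ m, aa hV γ m ≤ gg k y hV γ m (C * m) := by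
  classical
  obtain ⟨h, hh, η, hη, hh0⟩ : ∃ h ∈ aa hV γ 1, ∃ η, Deg k y h η ∧ h ≠ 0 := by
    obtain ⟨z, hz, hz0⟩ := hz
    obtain ⟨t, ht, -, j, hj⟩ := hl z
    exact ⟨t * z, Ideal.mul_mem_left _ _ hz, j, hj, mul_ne_zero ht.ne_zero hz0⟩
  obtain ⟨e, he, φ, hφ⟩ := hS h hh0
  have hq : 2 ≤ p ^ e := hp.trans (Nat.le_self_pow (by omega) p)
  choose t htu ht j hj using fun α : Fin N → Fin (p ^ e) =>
    hl (φ (Fr.mk p e (aeval y (monomial (expo α) (1 : k)))))
  obtain ⟨u, hu⟩ : IsUnit (∏ α, t α) := IsUnit.prod_univ_iff.2 htu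
  let ψ : Fr p e R →ₗ[R] R := (u : R) • φ
  have hr : ψ (Fr.mk p e ((↑u⁻¹ : R) ^ p ^ e * h)) = 1 := by
    rw [Fr.apply_pow_mul]
    simp [ψ, hφ]
  have hd : ∀ α : Fin N → Fin (p ^ e),
      ∃ j, Deg k y (ψ (Fr.mk p e (aeval y (monomial (expo α) (1 : k))))) j := by
    intro α
    obtain ⟨j', hj'⟩ := Deg.exists_prod (Finset.univ.erase α) ht
    have := hj'.mul (hj α)
    rw [← mul_assoc, Finset.prod_erase_mul _ _ (Finset.mem_univ α), ← hu] at this
    exact ⟨_, this⟩
  choose B' hB' using hd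
  let B := Finset.univ.sup B'
  have hψ : ∀ α : Fin N →₀ ℕ, (∀ i, α i < p ^ e) →
      Deg k y (ψ (Fr.mk p e (aeval y (monomial α (1 : k))))) B := by
    intro α hα
    obtain ⟨β, rfl⟩ := exists_expo hα
    exact (hB' β).mono (Finset.le_sup (f := B') (Finset.mem_univ β))
  set q := p ^ e with hqdef
  let B₂ := 2 * (N + B)
  refine ⟨B₂ + η + 2 * q * (B₂ + 1), fun m => ?_⟩
  rcases Nat.eq_zero_or_pos m with rfl | hm
  · intro z _
    have : (1 : R) ∈ gg k y hV γ 0 ((B₂ + η + 2 * q * (B₂ + 1)) * 0) :=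
      Ideal.subset_span ⟨aa_zero _, Deg.one⟩
    simpa using Ideal.mul_mem_left _ z this
  have step : ∀ J z, (B₂ + η + 2 * q * (B₂ + 1)) * m ≤ J → z ∈ aa hV γ m → Deg k y z (J + 1) →
      z ∈ gg k y hV γ m J := by
    intro J z hJ hz hd
    have h1 : m ≤ q ^ m := (Nat.lt_pow_self (by omega)).le
    obtain ⟨b, hb1, hb2, hb3⟩ : ∃ b, 1 ≤ b ∧ m * b ≤ q ^ m ∧ q ^ m ≤ 2 * b * m := by
      refine ⟨q ^ m / m, Nat.div_pos h1 hm, Nat.mul_div_le _ _, ?_⟩
      have h2 := Nat.lt_div_mul_add (a := q ^ m) hm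
      have h3 : 1 ≤ q ^ m / m := Nat.div_pos h1 hm
      nlinarith
    obtain ⟨s, hs⟩ := iterate_eq_one ψ hr (m + 1)
    obtain ⟨a', ha'⟩ : ∃ a', nn q (m + 1) = m * b + a' :=
      Nat.exists_eq_add_of_le (hb2.trans (Nat.le_add_left _ _))
    obtain ⟨Q', hQ'⟩ : ∃ Q', q ^ (m + 1) = b + Q' := by
      refine Nat.exists_eq_add_of_le ?_
      rw [pow_succ]
      nlinarith
    obtain ⟨J', rfl⟩ : ∃ J', J = J' + B₂ := by
      refine ⟨J - B₂, (Nat.sub_add_cancel ?_).symm⟩
      nlinarith [Nat.zero_le η, Nat.zero_le (2 * q * (B₂ + 1))]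
    have hw : h ^ (m * b) * z ^ Q' ∈ gg k y hV γ (m * q ^ (m + 1)) (q ^ (m + 1) * J') := by
      refine Ideal.subset_span ⟨?_, ((hη.pow _).mul (hd.pow _)).mono ?_⟩
      · have := aa_mul (aa_pow hh (m * b)) (aa_pow hz Q')
        rwa [one_mul, ← mul_add, ← hQ'] at this
      · have h4 : Q' ≤ 2 * q * b * m := by
          have : q ^ (m + 1) ≤ q * (2 * b * m) := by
            rw [pow_succ']; exact Nat.mul_le_mul_left _ hb3
          nlinarith
        have h5 : (η + 2 * q * (B₂ + 1)) * m ≤ J' := by nlinarith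
        rw [hQ']
        nlinarith [Nat.mul_le_mul_left (B₂ + 1) h4, Nat.mul_le_mul_left b h5]
    have h6 := gg_iterate hψ hq hl (m + 1) (Ideal.mul_mem_left _ (z ^ b * h ^ a' * s) hw)
    have h7 : z ^ b * h ^ a' * s * (h ^ (m * b) * z ^ Q') =
        z ^ q ^ (m + 1) * (h ^ nn q (m + 1) * s) := by rw [hQ', ha']; ring
    rwa [h7, iterate_pow_mul, hs, mul_one] at h6
  have all : ∀ J z, z ∈ aa hV γ m → Deg k y z J →
      z ∈ gg k y hV γ m ((B₂ + η + 2 * q * (B₂ + 1)) * m) := by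
    intro J
    induction J with
    | zero => exact fun z hz hd => Ideal.subset_span ⟨hz, hd.mono (Nat.zero_le _)⟩
    | succ J ih =>
      intro z hz hd
      by_cases hJ : (B₂ + η + 2 * q * (B₂ + 1)) * m ≤ J
      · exact Ideal.span_le.2 (fun w hw => ih w hw.1 hw.2) (step J z hJ hz hd)
      · exact Ideal.subset_span ⟨hz, hd.mono (by omega)⟩
  intro z hz
  obtain ⟨t, ht, -, j, hj⟩ := hl z
  exact (Ideal.unit_mul_mem_iff_mem _ ht).1 (all j _ (Ideal.mul_mem_left _ _ hz) hj)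

end Pool.Agent.Lib.MP_5022ed_ag
end

-- part Pool.Agent.Lib.MP_5022ed_ag.KE
section

/-!
The key estimate: the error terms are of order `q ^ (d - 2)`.
-/

set_option autoImplicit false

namespace Pool.Agent.Lib.MP_5022ed_ag

open Module IsLocalRing MvPolynomial

/-- The function is bounded by a multiple of `p ^ (e * (d - 2))`. -/
def Small (p d : ℕ) (f : ℕ → ℕ∞) : Prop :=
  ∃ C : ℕ, ∀ e, ∃ D : ℕ, f e ≤ D ∧ D * (p ^ e) ^ 2 ≤ C * (p ^ e) ^ d

lemma Small.mono {p d : ℕ} {f g : ℕ → ℕ∞} (hg : Small p d g) (h : ∀ e, f e ≤ g e) :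
    Small p d f := by
  obtain ⟨C, hC⟩ := hg
  refine ⟨C, fun e => ?_⟩
  obtain ⟨D, hD, hD'⟩ := hC e
  exact ⟨D, (h e).trans hD, hD'⟩

lemma Small.add {p d : ℕ} {f g : ℕ → ℕ∞} (hf : Small p d f) (hg : Small p d g) :
    Small p d fun e => f e + g e := by
  obtain ⟨C, hC⟩ := hf
  obtain ⟨C', hC'⟩ := hg
  refine ⟨C + C', fun e => ?_⟩
  obtain ⟨D, hD, h⟩ := hC e
  obtain ⟨D', hD', h'⟩ := hC' e
  exact ⟨D + D', by push_cast; exact add_le_add hD hD', by rw [add_mul, add_mul]; omega⟩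

lemma Small.const_mul {p d : ℕ} {f : ℕ → ℕ∞} (hf : Small p d f) (n : ℕ) :
    Small p d fun e => n * f e := by
  obtain ⟨C, hC⟩ := hf
  refine ⟨n * C, fun e => ?_⟩
  obtain ⟨D, hD, h⟩ := hC e
  exact ⟨n * D, by push_cast; gcongr, by rw [mul_assoc, mul_assoc]; gcongr⟩

lemma Small.succ {p d : ℕ} (hp : 1 ≤ p) {f : ℕ → ℕ∞} (hf : Small p d f) :
    Small p d fun e => f (e + 1) := by
  obtain ⟨C, hC⟩ := hf
  refine ⟨C * p ^ d, fun e => ?_⟩
  obtain ⟨D, hD, h⟩ := hC (e + 1)
  refine ⟨D, hD, le_trans ?_ (h.trans (le_of_eq (by ring)))⟩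
  gcongr
  omega

lemma frk_ne_top {R M : Type*} [CommRing R] [IsLocalRing R] [AddCommGroup M] [Module R M]
    [Module.Finite R M] : frk R M ≠ ⊤ := by
  obtain ⟨n, v, hv⟩ := Module.Finite.exists_fin (R := R) (M := M)
  refine ne_top_of_le_ne_top (ENat.natCast_ne_top n)
    (length_quot_le_of_span (Z R M) le_rfl v fun a => ?_)
  obtain ⟨c, hc⟩ := (Submodule.mem_span_range_iff_exists_fun R).1 (hv ▸ Submodule.mem_top : a ∈ _)
  exact ⟨c, by simp [hc]⟩

variable {k : Type*} [Field k] {σ : Type*} [Fintype σ] {R : Type*} [CommRing R] [Algebra k R]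
  [Algebra (MvPolynomial σ k) R] [IsScalarTower k (MvPolynomial σ k) R]
  {S : Subalgebra (MvPolynomial σ k) R} {N : ℕ} {y : Fin N → R}

omit [Fintype σ] in
lemma Base.link (hB : Base S) (hS : ∀ z, z ∈ S ↔ ∃ j, Deg k y z j) :
    ∃ (n : ℕ) (s : Fin n → R) (g : MvPolynomial σ k) (c : ℕ), g ≠ 0 ∧
      LinearIndependent (MvPolynomial σ k) s ∧ ∀ z j, Deg k y z j →
        ∃ w : Fin n → MvPolynomial σ k, (∀ i, (w i).totalDegree ≤ c * (j + 1)) ∧
          g • z = ∑ i, w i • s i := by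
  classical
  have := hB.fin
  obtain ⟨n, s, g, θ, hs, hg, hθ⟩ := exists_sandwich (MvPolynomial σ k) S
  obtain ⟨M, v, hv⟩ := Module.Finite.exists_fin (R := MvPolynomial σ k) (M := S)
  have hex : ∀ z ∈ S, ∃ a : Fin M → MvPolynomial σ k, z = ∑ l, a l • (v l : R) := by
    intro z hz
    obtain ⟨a, ha⟩ := (Submodule.mem_span_range_iff_exists_fun _).1
      (hv ▸ Submodule.mem_top : (⟨z, hz⟩ : S) ∈ _)
    exact ⟨a, by simpa using congrArg Subtype.val ha.symm⟩
  let T : ℕ → R → Prop := fun j z => ∃ a : Fin M → MvPolynomial σ k,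
    (∀ l, (a l).totalDegree ≤ j) ∧ z = ∑ l, a l • (v l : R)
  have hyS : ∀ i, y i ∈ S := fun i => (hS _).2 ⟨1, X i, by simp, by simp⟩
  choose a ha using fun i l => hex _ (S.mul_mem (hyS i) (v l).2)
  obtain ⟨a₁, ha₁⟩ := hex 1 S.one_mem
  obtain ⟨c, hc₁, hc₂, hc₃⟩ : ∃ c : ℕ, (∀ i l m, (a i l m).totalDegree ≤ c) ∧
      (∀ l, (a₁ l).totalDegree ≤ c) ∧ ∀ l i, (θ (v l) i).totalDegree ≤ c := by
    obtain ⟨c₁, hc₁⟩ := Finite.bddAbove_range
      fun x : Fin N × Fin M × Fin M => (a x.1 x.2.1 x.2.2).totalDegree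
    obtain ⟨c₂, hc₂⟩ := Finite.bddAbove_range fun l => (a₁ l).totalDegree
    obtain ⟨c₃, hc₃⟩ := Finite.bddAbove_range fun x : Fin M × Fin n => (θ (v x.1) x.2).totalDegree
    refine ⟨c₁ + c₂ + c₃, fun i l m => ?_, fun l => ?_, fun l i => ?_⟩
    · have := hc₁ ⟨(i, l, m), rfl⟩
      simp only at this
      omega
    · have := hc₂ ⟨l, rfl⟩
      simp only at this
      omega
    · have := hc₃ ⟨(l, i), rfl⟩
      simp only at this
      omega
  have hT1 : ∀ i j z, T j z → T (j + c) (y i * z) := by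
    rintro i j _ ⟨b, hb, rfl⟩
    refine ⟨fun m => ∑ l, b l * a i l m, fun m => totalDegree_finsetSum_le fun l _ =>
      (totalDegree_mul _ _).trans (add_le_add (hb l) (hc₁ i l m)), ?_⟩
    simp only [Finset.mul_sum, mul_smul_comm, ha, Finset.smul_sum, Finset.sum_smul, mul_smul]
    exact Finset.sum_comm
  have hT2 : ∀ i m j z, T j z → T (j + c * m) (y i ^ m * z) := by
    intro i m
    induction m with
    | zero => intro j z hz; simpa using hz
    | succ m ih =>
      intro j z hz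
      have := hT1 i _ _ (ih j z hz)
      rwa [← mul_assoc, ← pow_succ', add_assoc, ← mul_add_one] at this
  have hT3 : ∀ (α : Fin N →₀ ℕ) j z, T j z →
      T (j + c * α.sum fun _ e => e) (aeval y (monomial α (1 : k)) * z) := by
    intro α
    induction α using Finsupp.induction_linear with
    | zero => intro j z hz; simpa using hz
    | add α β hα hβ =>
      intro j z hz
      have := hα _ _ (hβ j z hz)
      rwa [← mul_assoc, ← map_mul, monomial_mul, mul_one, add_assoc, ← mul_add,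
        add_comm (β.sum _), ← Finsupp.sum_add_index' (fun _ => rfl) (fun _ _ _ => rfl)] at this
    | single i m =>
      intro j z hz
      have := hT2 i m j z hz
      simpa [aeval_monomial] using this
  have hT4 : ∀ z j, Deg k y z j → T (c + c * j) z := by
    rintro _ j ⟨f, hf, rfl⟩
    rw [f.as_sum, map_sum]
    refine Finset.sum_induction _ (T (c + c * j)) ?_ ⟨0, by simp, by simp⟩ fun α hα => ?_
    · rintro _ _ ⟨b, hb, rfl⟩ ⟨b', hb', rfl⟩
      exact ⟨b + b', fun l => (totalDegree_add _ _).trans (max_le (hb l) (hb' l)), by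
        simp [add_smul, Finset.sum_add_distrib]⟩
    · obtain ⟨b, hb, hb'⟩ := hT3 α c 1 ⟨a₁, hc₂, ha₁⟩
      refine ⟨fun l => coeff α f • b l, fun l => (totalDegree_smul_le _ _).trans ((hb l).trans
        (Nat.add_le_add_left (Nat.mul_le_mul_left _ ((le_totalDegree hα).trans hf)) _)), ?_⟩
      simp only [smul_assoc]
      rw [← Finset.smul_sum, ← hb', mul_one, ← map_smul, smul_monomial, smul_eq_mul, mul_one]
  refine ⟨n, fun i => s i, g, 2 * c, hg, hs.map' S.val.toLinearMap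
    (LinearMap.ker_eq_bot.2 Subtype.val_injective), fun z j hz => ?_⟩
  obtain ⟨b, hb, rfl⟩ := hT4 z j hz
  refine ⟨fun i => ∑ l, b l * θ (v l) i, fun i => totalDegree_finsetSum_le fun l _ =>
    (totalDegree_mul _ _).trans ((add_le_add (hb l) (hc₃ l i)).trans (by nlinarith)), ?_⟩
  have h1 : ∀ l, g • (v l : R) = ∑ i, θ (v l) i • (s i : R) := fun l => by
    simpa using congrArg Subtype.val (hθ (v l))
  simp only [Finset.smul_sum, smul_comm g, h1, Finset.sum_smul, mul_smul]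
  exact Finset.sum_comm

variable [IsDomain R]

lemma Base.count_ideal (hB : Base S) (hS : ∀ z, z ∈ S ↔ ∃ j, Deg k y z j) :
    ∃ n c : ℕ, ∀ (a b : MvPolynomial σ k), a ≠ 0 → IsRelPrime a b → ∀ I : Ideal R,
      (∀ u ∈ I, ∀ u' ∈ I, algebraMap _ R b * u = algebraMap _ R a * u' →
        ∃ w ∈ I, u = algebraMap _ R a * w) → ∀ J q : ℕ, 0 < q →
      ∃ D : ℕ, D * q ^ 2 ≤
        n * (c * (J + 1) + q * (a.totalDegree + b.totalDegree) + 1) ^ Fintype.card σ ∧
        ∃ z : Fin D → R, (∀ i, z i ∈ I) ∧ ∀ u ∈ I, Deg k y u J →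
          ∃ κ : Fin D → k, ∃ u₁ ∈ I, ∃ u₂ ∈ I,
            u = ∑ i, κ i • z i + algebraMap _ R a * u₁ + algebraMap _ R b * u₂ := by
  obtain ⟨n, s, g, c, hg, hs, hlink⟩ := hB.link hS
  refine ⟨n, c, fun a b ha hab I hI J q hq => ?_⟩
  let L : (Fin n → MvPolynomial σ k) →ₗ[MvPolynomial σ k] R := Fintype.linearCombination _ s
  have hcan : ∀ {g : MvPolynomial σ k}, g ≠ 0 → ∀ {u u' : R}, g • u = g • u' → u = u' := by
    intro g hg u u' h
    rw [Algebra.smul_def, Algebra.smul_def] at h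
    exact mul_left_cancel₀ ((map_ne_zero_iff _ hB.inj).2 hg) h
  let W : Submodule (MvPolynomial σ k) (Fin n → MvPolynomial σ k) :=
    ((I.restrictScalars (MvPolynomial σ k)).map (LinearMap.lsmul _ R g)).comap L
  have hW : ∀ w, w ∈ W ↔ ∃ z ∈ I, g • z = L w := fun w => Iff.rfl
  obtain ⟨D, hD, w, hw, hw'⟩ := count (W := W) (b := b) ha (by
    intro w hw w' hw' h
    obtain ⟨z, hz, hzw⟩ := (hW w).1 hw
    obtain ⟨z', hz', hzw'⟩ := (hW w').1 hw'
    have h1 : ∀ i, a ∣ w i := fun i => hab.dvd_of_dvd_mul_left ⟨w' i, congrFun h i⟩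
    choose w'' hw'' using h1
    obtain rfl : w = a • w'' := funext hw''
    obtain ⟨u, hu, rfl⟩ := hI z hz z' hz' (hcan hg (by
      rw [← Algebra.smul_def, ← Algebra.smul_def, smul_comm, smul_comm g, hzw, hzw', ← map_smul,
        h, map_smul]))
    refine ⟨w'', (hW _).2 ⟨u, hu, hcan ha ?_⟩, rfl⟩
    rw [← map_smul, ← hzw, ← Algebra.smul_def, smul_comm]) (c * (J + 1)) q hq
  choose z hz hzw using fun i => (hW _).1 (hw i)
  refine ⟨D, by simpa using hD, z, hz, fun u hu hd => ?_⟩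
  obtain ⟨t, ht, htu⟩ := hlink u J hd
  obtain ⟨κ, t₁, ht₁, t₂, ht₂, h⟩ := hw' t (mem_Wd.2 ⟨(hW t).2 ⟨u, hu, htu⟩, ht⟩)
  obtain ⟨u₁, hu₁, h₁⟩ := (hW _).1 ht₁
  obtain ⟨u₂, hu₂, h₂⟩ := (hW _).1 ht₂
  refine ⟨κ, u₁, hu₁, u₂, hu₂, hcan hg ?_⟩
  have h3 : g • u = L t := htu
  rw [h3, h, map_add, map_add, map_sum, map_smul, map_smul, ← h₁, ← h₂, smul_add, smul_add,
    Finset.smul_sum, ← Algebra.smul_def, ← Algebra.smul_def, smul_comm g, smul_comm g]
  congr 2
  refine Finset.sum_congr rfl fun i _ => ?_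
  rw [LinearMap.map_smul_of_tower, ← hzw, smul_comm]

variable {p : ℕ} [ExpChar k p] [ExpChar R p] [PerfectField k]

omit [Fintype σ] [Algebra (MvPolynomial σ k) R] [IsScalarTower k (MvPolynomial σ k) R]
  [IsDomain R] in
lemma frob_span (hl : LocGen k y) (e : ℕ) (I : Ideal R) (J : ℕ)
    (hI : I ≤ Ideal.span {z | z ∈ I ∧ Deg k y z J}) {D : ℕ} (z : Fin D → R) (x x' : R)
    (h : ∀ u ∈ I, Deg k y u (N * p ^ e + J) → ∃ κ : Fin D → k, ∃ u₁ ∈ I, ∃ u₂ ∈ I,
      u = ∑ i, κ i • z i + x * u₁ + x' * u₂) :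
    ∀ w ∈ I, ∃ c : Fin D → R, ∃ w₁ ∈ I, ∃ w₂ ∈ I,
      w = ∑ i, c i ^ p ^ e * z i + x * w₁ + x' * w₂ := by
  let P : R → Prop := fun w => ∃ c : Fin D → R, ∃ w₁ ∈ I, ∃ w₂ ∈ I,
      w = ∑ i, c i ^ p ^ e * z i + x * w₁ + x' * w₂
  have h0 : P 0 := ⟨0, 0, I.zero_mem, 0, I.zero_mem, by
    simp [zero_pow (expChar_pow_pos R p e).ne']⟩
  have hadd : ∀ a b, P a → P b → P (a + b) := by
    rintro _ _ ⟨c, w₁, h₁, w₂, h₂, rfl⟩ ⟨c', w₁', h₁', w₂', h₂', rfl⟩
    refine ⟨c + c', w₁ + w₁', add_mem h₁ h₁', w₂ + w₂', add_mem h₂ h₂', ?_⟩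
    simp only [Pi.add_apply, add_pow_expChar_pow, add_mul, Finset.sum_add_distrib]
    ring
  intro w hw
  suffices ∀ r, P (r * w) by simpa using this 1
  have hw' := hI hw
  clear hw
  induction hw' using Submodule.span_induction with
  | mem w hw =>
    refine hl.induction (p := p) e (by simpa using h0)
      (fun a b ha hb => by rw [add_mul]; exact hadd _ _ ha hb) fun c α hα => ?_
    obtain ⟨κ, u₁, h₁, u₂, h₂, hu⟩ := h _ (I.mul_mem_left _ hw.1) ((deg_monomial hα).mul hw.2)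
    choose κ' hκ' using fun i => (iterateFrobeniusEquiv k p e).surjective (κ i)
    refine ⟨fun i => c * algebraMap k R (κ' i), c ^ p ^ e * u₁, I.mul_mem_left _ h₁,
      c ^ p ^ e * u₂, I.mul_mem_left _ h₂, ?_⟩
    rw [mul_assoc, hu, mul_add, mul_add, Finset.mul_sum, mul_left_comm, mul_left_comm _ x']
    congr 2
    refine Finset.sum_congr rfl fun i _ => ?_
    rw [← hκ', iterateFrobeniusEquiv_apply, iterateFrobenius_def, mul_pow, Algebra.smul_def,
      map_pow, mul_assoc]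
  | zero => simpa using h0
  | add a b _ _ ha hb =>
    intro r
    rw [mul_add]
    exact hadd _ _ (ha r) (hb r)
  | smul c a _ ha =>
    intro r
    rw [smul_eq_mul, ← mul_assoc]
    exact ha _

omit [Fintype σ] [IsDomain R] [ExpChar k p] [ExpChar R p] [PerfectField k]
  [IsScalarTower k (MvPolynomial σ k) R] in
lemma Base.locGen (hB : Base S) (hS : ∀ z, z ∈ S ↔ ∃ j, Deg k y z j) : LocGen k y := by
  intro r
  obtain ⟨t, ht, htu, htr⟩ := hB.loc r
  exact ⟨t, htu, (hS _).1 ht, (hS _).1 htr⟩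

lemma pow_bound {n c C M s q d : ℕ} (hq : 0 < q) {m : ℕ} (hm : m ≤ q) :
    n * (c * (M * q + C * m + 1) + q * s + 1) ^ d ≤
      n * (c * (M + C + 1) + s + 1) ^ d * q ^ d := by
  rw [mul_assoc, ← mul_pow]
  gcongr
  have : C * m ≤ C * q := Nat.mul_le_mul_left _ hm
  have h2 : M * q + C * m + 1 ≤ (M + C + 1) * q := by nlinarith
  nlinarith [Nat.mul_le_mul_left c h2]

theorem Base.small [IsLocalRing R] [IsNoetherianRing R] (hp : 2 ≤ p) (hB : Base S)
    (hS : ∀ z, z ∈ S ↔ ∃ j, Deg k y z j) (hF : SFR p R) {x x' : R}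
    (hx : GG (MvPolynomial σ k) x x') :
    Small p (Fintype.card σ) (fun e => fb p e R x x') ∧
      Small p (Fintype.card σ) (fun e => fc p e x x') := by
  have hC := hB.ctx hF
  have hl := hB.locGen hS
  have : ExpChar (FractionRing R) p :=
    expChar_of_injective_algebraMap (IsFractionRing.injective R _) p
  obtain ⟨γ, hz, hγ⟩ := hC.hom_data (FractionRing R) hp (hl.finite (p := p))
  obtain ⟨C, hC'⟩ := slope hp hl hF hz
  obtain ⟨n, c, hcount⟩ := hB.count_ideal hS
  have hx' := hx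
  obtain ⟨a, b, ha, hab, rfl, rfl⟩ := hx
  constructor
  · refine ⟨n * (c * (N + C + 1) + (a.totalDegree + b.totalDegree) + 1) ^ Fintype.card σ,
      fun e => ?_⟩
    have hq := expChar_pow_pos R p e
    obtain ⟨m, hm, hfb⟩ := hγ e
    obtain ⟨D, hD, z, hz, hz'⟩ := hcount a b ha hab (aa hC.prime γ m)
      (fun u hu u' hu' h => hC.aa_h2 hx' hu hu' h) (N * p ^ e + C * m) (p ^ e) hq
    exact ⟨D, hfb D z hz _ _ (frob_span hl e _ _ (hC' m) z _ _ hz'), hD.trans (pow_bound hq hm)⟩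
  · refine ⟨n * (c * (N + 0 + 1) + (a.totalDegree + b.totalDegree) + 1) ^ Fintype.card σ,
      fun e => ?_⟩
    have hq := expChar_pow_pos R p e
    obtain ⟨D, hD, z, -, hz'⟩ := hcount a b ha hab ⊤
      (fun u _ u' _ h => by
        obtain ⟨w, hw⟩ := hC.h2 _ _ hx' u u' h
        exact ⟨w, trivial, hw⟩) (N * p ^ e + 0 * 0) (p ^ e) hq
    refine ⟨D, ?_, hD.trans (pow_bound (C := 0) (m := 0) hq (Nat.zero_le _))⟩
    have h1 := frob_span hl e ⊤ (0 * 0) (fun w _ => by
      simpa using Ideal.mul_mem_left _ w (Ideal.subset_span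
        (s := {z | z ∈ (⊤ : Ideal R) ∧ Deg k y z (0 * 0)}) ⟨trivial, Deg.one⟩)) z _ _ hz'
    refine length_quot_le_of_span _ le_sup_left (fun i => Fr.mk p e (z i)) fun w => ?_
    obtain ⟨w, rfl⟩ := (Fr.mk p e).surjective w
    obtain ⟨c, w₁, -, w₂, -, rfl⟩ := h1 w trivial
    refine ⟨c, Submodule.mem_sup_right ?_⟩
    rw [add_assoc, map_add, map_sum]
    simp only [Fr.smul_mk, smul_eq_mul, add_sub_cancel_left, map_add]
    exact add_mem (Submodule.mem_sup_left ⟨Fr.mk p e w₁, rfl⟩)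
      (Submodule.mem_sup_right ⟨Fr.mk p e w₂, rfl⟩)

end Pool.Agent.Lib.MP_5022ed_ag
end

-- part Pool.Agent.Lib.MP_5022ed_ag.Rank
section

/-!
The rank of the Frobenius pushforward.
-/

set_option autoImplicit false

namespace Pool.Agent.Lib.MP_5022ed_ag

open Module IsLocalRing MvPolynomial

lemma Base.finite_frac {A R : Type*} [CommRing A] [CommRing R] [Algebra A R] [IsDomain A]
    [IsDomain R] {S : Subalgebra A R} (hB : Base S) (L K : Type*) [Field L] [Field K]
    [Algebra A L] [IsFractionRing A L] [Algebra R K] [IsFractionRing R K] [Algebra A K]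
    [IsScalarTower A R K] [Algebra L K] [IsScalarTower A L K] : Module.Finite L K := by
  have := hB.fin
  obtain ⟨M, v, hv⟩ := Module.Finite.exists_fin (R := A) (M := S)
  refine ⟨Submodule.fg_def.2 ⟨Set.range fun l => algebraMap R K (v l), Set.finite_range _,
    top_unique fun u _ => ?_⟩⟩
  have hS : ∀ z : S, algebraMap R K z ∈
      Submodule.span L (Set.range fun l => algebraMap R K (v l)) := by
    intro z
    obtain ⟨a, rfl⟩ := (Submodule.mem_span_range_iff_exists_fun _).1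
      (hv ▸ Submodule.mem_top : z ∈ _)
    rw [AddSubmonoidClass.coe_finsetSum, map_sum]
    refine Submodule.sum_mem _ fun l _ => ?_
    rw [SetLike.val_smul, Algebra.smul_def, map_mul, ← IsScalarTower.algebraMap_apply,
      IsScalarTower.algebraMap_apply A L K, ← Algebra.smul_def]
    exact Submodule.smul_mem _ _ (Submodule.subset_span ⟨l, rfl⟩)
  obtain ⟨⟨a, b⟩, hab⟩ := IsLocalization.surj (nonZeroDivisors R) u
  simp only at hab
  obtain ⟨t, ht, htu, hta⟩ := hB.loc a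
  obtain ⟨t', ht', htu', htb⟩ := hB.loc b
  let s₂ : S := ⟨t * (t' * b), S.mul_mem ht htb⟩
  have hs₂ : s₂ ≠ 0 := fun h => mul_ne_zero htu.ne_zero
    (mul_ne_zero htu'.ne_zero (nonZeroDivisors.ne_zero b.2)) (congrArg Subtype.val h)
  obtain ⟨α, hα, hα0⟩ := Submodule.exists_mem_ne_zero_of_ne_bot
    (Ideal.comap_ne_bot_of_integral_mem (R := A) (I := Ideal.span {s₂}) hs₂
      (Ideal.mem_span_singleton_self _) (IsIntegral.of_finite A s₂))
  obtain ⟨s₃, hs₃⟩ := Ideal.mem_span_singleton'.1 (Ideal.mem_comap.1 hα)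
  have h1 : (s₃ : R) * (t * (t' * b)) = algebraMap A R α := congrArg Subtype.val hs₃
  have hαL : algebraMap A L α ≠ 0 := (map_ne_zero_iff _ (IsFractionRing.injective A L)).2 hα0
  have h2 : algebraMap A L α • u =
      algebraMap R K (s₃ * (⟨t' * (t * a), S.mul_mem ht' hta⟩ : S) : S) := by
    rw [Algebra.smul_def, ← IsScalarTower.algebraMap_apply, IsScalarTower.algebraMap_apply A R K,
      ← h1]
    simp only [MulMemClass.coe_mul, map_mul, ← hab]
    ring
  exact (Submodule.smul_mem_iff _ hαL).1 (h2 ▸ hS _)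

lemma Base.finrank_fr {k : Type*} [Field k] {σ : Type*} [Fintype σ] {R : Type*} [CommRing R]
    [IsDomain R] [Algebra (MvPolynomial σ k) R] {S : Subalgebra (MvPolynomial σ k) R}
    {p : ℕ} [ExpChar k p] [PerfectField k] (hB : Base S) [ExpChar (FractionRing R) p] :
    finrank (FractionRing R) (Fr p 1 (FractionRing R)) = p ^ Fintype.card σ := by
  classical
  let A := MvPolynomial σ k
  let L := FractionRing A
  let K := FractionRing R
  have : FaithfulSMul A K := by
    rw [faithfulSMul_iff_algebraMap_injective, IsScalarTower.algebraMap_eq A R K]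
    exact (IsFractionRing.injective R K).comp hB.inj
  let _ : Algebra L K := FractionRing.liftAlgebra A K
  have : IsScalarTower A L K := FractionRing.isScalarTower_liftAlgebra A K
  have : ExpChar L p := expChar_of_injective_algebraMap (IsFractionRing.injective A L) p
  have : Module.Finite L K := hB.finite_frac L K
  have h1 : finrank L (Fr p 1 L) = p ^ Fintype.card σ := by
    have := Fr.isLocalizedModule p 1 A L
    rw [IsFractionRing.finrank_right_eq A L, IsLocalizedModule.finrank_eq (nonZeroDivisors A)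
      (Fr.map p 1 (Algebra.linearMap A L)) le_rfl, finrank_fr_poly]
  have : Module.Finite L (Fr p 1 L) := Module.finite_of_finrank_pos (by
    rw [h1]; exact expChar_pow_pos k p _)
  have h2 : finrank L (Fr p 1 K) = finrank L K * p ^ Fintype.card σ := by
    rw [((Fr.congr p 1 (Module.finBasis L K).equivFun).trans (Fr.piEquiv p 1 L L _)).finrank_eq,
      Module.finrank_pi_fintype]
    simp [h1]
  rw [← Module.finrank_mul_finrank L K (Fr p 1 K)] at h2
  exact Nat.eq_of_mul_eq_mul_left Module.finrank_pos h2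

variable {R : Type*} [CommRing R] {V : Set (Ideal R)} {Good : R → R → Prop}
variable {K : Type*} [Field K] [Algebra R K] [IsDomain R] [IsFractionRing R K]
variable {p : ℕ} [ExpChar R p] [ExpChar K p]

variable (K) in
lemma Ctx.exists_fr_basis (h : Ctx R V Good) [Module.Finite R (Fr p 1 R)] :
    ∃ (u : Basis (Fin (finrank K (Fr p 1 K))) K (Fr p 1 K)) (ξ₀ : Ideal R → K),
      ∀ P ∈ V, ξ₀ P ≠ 0 ∧ ∃ b₀ : Fin (finrank K (Fr p 1 K)) → R,
        Spans P (fun l => Fr.mk p 1 (b₀ l)) ∧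
        (Matrix.of fun l l' => u.repr (Fr.mk p 1 (algebraMap R K (b₀ l))) l').det = ξ₀ P := by
  classical
  have := Fr.isLocalizedModule p 1 R K
  have : Module.Finite K (Fr p 1 K) := Module.Finite.of_isLocalizedModule (nonZeroDivisors R)
    (Rₚ := K) (Fr.map p 1 (Algebra.linearMap R K))
  let u := Module.finBasis K (Fr p 1 K)
  let j : Fr p 1 R →ₗ[R] (Fin (finrank K (Fr p 1 K)) → K) :=
    u.equivFun.toLinearMap.restrictScalars R ∘ₗ Fr.map p 1 (Algebra.linearMap R K)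
  have hj : Function.Injective j := u.equivFun.injective.comp (IsFractionRing.injective R K)
  choose x hx using fun l => IsLocalizedModule.surj (nonZeroDivisors R)
    (Fr.map p 1 (Algebra.linearMap R K)) (u l)
  have hd : dt j (fun l => (x l).1) ≠ 0 := by
    have : (Matrix.of fun l => j (x l).1) = Matrix.diagonal fun l => algebraMap R K (x l).2 := by
      ext l l'
      change u.equivFun (Fr.map p 1 (Algebra.linearMap R K) (x l).1) l' = _
      rw [← hx, Submonoid.smul_def, ← algebraMap_smul K, map_smul, Matrix.diagonal_apply]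
      simp [Finsupp.single_apply]
    rw [dt, this, Matrix.det_diagonal]
    exact Finset.prod_ne_zero_iff.2 fun l _ =>
      IsFractionRing.to_map_ne_zero_of_mem_nonZeroDivisors (x l).2.2
  choose b hb hb' using fun P (hP : P ∈ V) => h.exists_pbasis j hj _ hd hP
  refine ⟨u, fun P => if hP : P ∈ V then dt j (b P hP) else 0, fun P hP => ?_⟩
  simp only [dif_pos hP]
  exact ⟨hb' P hP, fun l => (Fr.mk p 1).symm (b P hP l), hb P hP, rfl⟩

/-- Depth two with respect to the good pairs. -/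
def HH (Good : R → R → Prop) (M : Type*) [AddCommGroup M] [Module R M] : Prop :=
  ∀ x y, Good x y → ∀ m m' : M, y • m = x • m' → ∃ m'', m = x • m''

section HH

variable {M : Type*} [AddCommGroup M] [Module R M] {N : Type*} [AddCommGroup N] [Module R N]

omit [IsDomain R] in
lemma HH.fr (h : Ctx R V Good) (hM : HH Good M) : HH Good (Fr p 1 M) :=
  fun x y hxy m m' hm => hM _ _ (h.pow x y (p ^ 1) hxy) m m' hm

omit [IsDomain R] in
lemma HH.prod (hM : HH Good M) (hN : HH Good N) : HH Good (M × N) := by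
  intro x y hxy m m' hm
  obtain ⟨a, ha⟩ := hM x y hxy m.1 m'.1 (congrArg Prod.fst hm)
  obtain ⟨b, hb⟩ := hN x y hxy m.2 m'.2 (congrArg Prod.snd hm)
  exact ⟨(a, b), Prod.ext ha hb⟩

omit [IsDomain R] in
lemma HH.pi (hM : HH Good M) (ι : Type*) : HH Good (ι → M) := by
  intro x y hxy m m' hm
  choose a ha using fun i => hM x y hxy (m i) (m' i) (congrFun hm i)
  exact ⟨a, funext ha⟩

end HH

omit [ExpChar K p] in
lemma Ctx.rec_aux [IsLocalRing R] [IsNoetherianRing R] (h : Ctx R V Good) {d : ℕ}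
    {F : Type*} [AddCommGroup F] [Module R F] [Module.Finite R F]
    {G : Type*} [AddCommGroup G] [Module R G] [Module.Finite R G]
    {ι : Type*} [Fintype ι] [DecidableEq ι] {κ : Type*} [Fintype κ] [DecidableEq κ]
    {ξ ζ : Ideal R → K} (vF : Vol V K F ι ξ) (vG : Vol V K G κ ζ) (a b : ℕ)
    (hcard : Fintype.card κ + a = Fintype.card ι * b) (hvol : ∀ P ∈ V, ζ P = ξ P ^ b)
    (HF : HH Good F) (HG : HH Good G) (htop : ∀ e, fa p R e R ≠ ⊤)
    (hb : ∀ x y, Good x y → Small p d fun e => fb p e R x y)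
    (hb1 : ∀ x y, Good x y → Small p d fun e => fb p e F x y)
    (hb2 : ∀ x y, Good x y → Small p d fun e => fb p e G x y)
    (hc : ∀ x y, Good x y → Small p d fun e => fc p e x y) :
    ∃ f : ℕ → ℕ∞, Small p d f ∧ ∀ e,
      fa p R e G + a * fa p R e R ≤ b * fa p R e F + f e ∧
      b * fa p R e F ≤ fa p R e G + a * fa p R e R + f e := by
  classical
  have v0 := Vol.self h.prime (IsFractionRing.injective R K)
  have w1 := (vG.prod h.prime (v0.pi h.prime (Fin a))).congr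
    (ζ := fun P => ξ P ^ b) fun P hP => by simp [hvol P hP]
  have w2 := ((vF.pi h.prime (Fin b)).congr
    (ζ := fun P => ξ P ^ b) fun P _ => by simp).reindex
      (Fintype.equivOfCardEq (β := κ ⊕ (Unit × Fin a)) (by simp [hcard]))
  have H0 : HH Good R := fun x y hxy m m' hm => h.h2 x y hxy m m' hm
  obtain ⟨x₁, y₁, x₁', y₁', n₁, g₁, g₁', e₁⟩ := Vol.compare (p := p) h w2 w1
    (HG.prod (H0.pi _)) htop
  obtain ⟨x₂, y₂, x₂', y₂', n₂, g₂, g₂', e₂⟩ := Vol.compare (p := p) h w1 w2 (HF.pi _) htop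
  have s₁ := ((((hb2 _ _ g₁).add ((hb _ _ g₁).const_mul (Fintype.card (Fin a)))).mono
    fun e => (fb_prod x₁ y₁).trans (add_le_add_right (fb_pi x₁ y₁) _)).add
      ((hb _ _ g₁').const_mul n₁)).add (hc _ _ g₁')
  have s₂ := (((((hb1 _ _ g₂).const_mul (Fintype.card (Fin b)))).mono
    fun e => fb_pi x₂ y₂).add ((hb _ _ g₂').const_mul n₂)).add (hc _ _ g₂')
  refine ⟨_, s₁.add s₂, fun e => ⟨?_, ?_⟩⟩
  · have := e₁ e
    rw [fa_prod, fa_pi, fa_pi, Fintype.card_fin, Fintype.card_fin, add_assoc, add_assoc] at this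
    refine this.trans (add_le_add_right ?_ _)
    rw [← add_assoc]
    exact le_self_add
  · have := e₂ e
    rw [fa_prod, fa_pi, fa_pi, Fintype.card_fin, Fintype.card_fin,
      add_assoc _ (fb p e _ x₂ y₂), add_assoc _ (_ + _) (fc p e x₂' y₂')] at this
    exact this.trans (add_le_add_right le_add_self _)

variable (K) in
include K in
theorem Ctx.recurrence [IsLocalRing R] [IsNoetherianRing R] (h : Ctx R V Good)
    (hfin : ∀ e, Module.Finite R (Fr p e R)) {d ρ : ℕ} (hρ : finrank K (Fr p 1 K) = ρ * p)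
    (hb : ∀ x y, Good x y → Small p d fun e => fb p e R x y)
    (hc : ∀ x y, Good x y → Small p d fun e => fc p e x y) :
    ∃ f : ℕ → ℕ∞, Small p d f ∧ ∀ e,
      fa p R (e + 2) R + (ρ * p * ρ : ℕ) * fa p R e R ≤
        (ρ * p + ρ : ℕ) * fa p R (e + 1) R + f e ∧
      (ρ * p + ρ : ℕ) * fa p R (e + 1) R ≤
        fa p R (e + 2) R + (ρ * p * ρ : ℕ) * fa p R e R + f e := by
  classical
  have := hfin 1
  have := hfin 2
  have : Module.Finite R (Fr p 1 (Fr p 1 R)) := Module.Finite.equiv (Fr.succEquiv p 1 R R).symm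
  have hp : 1 ≤ p := expChar_pos R p
  have htop : ∀ e, fa p R e R ≠ ⊤ := fun e => have := hfin e; frk_ne_top
  obtain ⟨u, ξ₀, h₀⟩ := h.exists_fr_basis K (p := p)
  have hc₀ : Fintype.card (Fin (finrank K (Fr p 1 K))) = ρ * p := by simp [hρ]
  have v0 := Vol.self h.prime (IsFractionRing.injective R K)
  have v1 := Vol.fr h.prime v0 u hc₀ h₀
  have v2 := Vol.fr h.prime v1 u hc₀ h₀
  have H0 : HH Good R := fun x y hxy m m' hm => h.h2 x y hxy m m' hm
  have hb1 : ∀ x y, Good x y → Small p d fun e => fb p e (Fr p 1 R) x y := fun x y hxy =>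
    ((hb _ _ (h.pow x y p hxy)).succ hp).mono fun e => fb_succ x y
  have hb2 : ∀ x y, Good x y → Small p d fun e => fb p e (Fr p 1 (Fr p 1 R)) x y := fun x y hxy =>
    ((hb1 _ _ (h.pow x y p hxy)).succ hp).mono fun e => fb_succ x y
  obtain ⟨f, hf, hf'⟩ := h.rec_aux v1 v2 (ρ * p * ρ) (ρ * p + ρ) (by simp [hρ]; ring)
    (fun P _ => by simp [hρ, pow_add, mul_comm]) (H0.fr h) ((H0.fr h).fr h) htop hb hb1 hb2 hc
  refine ⟨f, hf, fun e => ?_⟩
  have := hf' e
  rwa [fa_succ, fa_succ, fa_succ] at this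

end Pool.Agent.Lib.MP_5022ed_ag
end

-- part Pool.Agent.Lib.MP_5022ed_ag.Recur
section

/-!
From an approximate linear recurrence to an asymptotic expansion.
-/

set_option autoImplicit false

namespace Pool.Agent.Lib.MP_5022ed_ag

lemma geom_approx (b : ℕ → ℝ) {l μ K : ℝ} (hμ : 0 < μ) (hl : μ < l)
    (h : ∀ e, |b (e + 1) - l * b e| ≤ K * μ ^ e) :
    ∃ s K' : ℝ, ∀ e, |b e - s * l ^ e| ≤ K' * μ ^ e := by
  have hl0 : 0 < l := hμ.trans hl
  have hr : μ / l < 1 := (div_lt_one hl0).2 hl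
  have hd : ∀ e, dist (b e / l ^ e) (b (e + 1) / l ^ (e + 1)) ≤ K / l * (μ / l) ^ e := by
    intro e
    have h1 : b (e + 1) / l ^ (e + 1) - b e / l ^ e = (b (e + 1) - l * b e) / l ^ (e + 1) := by
      field_simp
      ring
    rw [dist_comm, Real.dist_eq, h1, abs_div, abs_of_pos (pow_pos hl0 _), div_pow,
      div_mul_div_comm, ← pow_succ']
    exact div_le_div_of_nonneg_right (h e) (pow_pos hl0 _).le
  obtain ⟨s, hs⟩ := cauchySeq_tendsto_of_complete (cauchySeq_of_le_geometric _ _ hr hd)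
  refine ⟨s, K / l / (1 - μ / l), fun e => ?_⟩
  have h2 := dist_le_of_le_geometric_of_tendsto _ _ hr hd hs e
  have h3 : b e - s * l ^ e = (b e / l ^ e - s) * l ^ e := by field_simp
  rw [h3, abs_mul, abs_of_pos (pow_pos hl0 _), ← Real.dist_eq]
  refine (mul_le_mul_of_nonneg_right h2 (pow_pos hl0 _).le).trans (le_of_eq ?_)
  rw [div_pow]
  field_simp

lemma recur_approx (a : ℕ → ℝ) {l₁ l₂ μ K : ℝ} (hμ : 0 < μ) (h₂ : μ < l₂) (h₁ : l₂ < l₁)
    (h : ∀ e, |a (e + 2) - (l₁ + l₂) * a (e + 1) + l₁ * l₂ * a e| ≤ K * μ ^ e) :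
    ∃ s C K' : ℝ, ∀ e, |a e - s * l₁ ^ e - C * l₂ ^ e| ≤ K' * μ ^ e := by
  obtain ⟨t, K₁, ht⟩ := geom_approx (fun e => a (e + 1) - l₁ * a e) (K := K) hμ h₂ fun e => by
    convert h e using 2
    ring
  obtain ⟨s, K₂, hs⟩ := geom_approx (fun e => a e - t / (l₂ - l₁) * l₂ ^ e) (K := K₁) hμ
    (h₂.trans h₁) fun e => by
      convert ht e using 2
      have : l₂ - l₁ ≠ 0 := (sub_neg.2 h₁).ne
      field_simp
      ring
  refine ⟨s, t / (l₂ - l₁), K₂, fun e => ?_⟩
  convert hs e using 2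
  ring

lemma expansion {p n : ℕ} (hp : 2 ≤ p) (a : ℕ → ℕ∞) (ha : ∀ e, a e ≠ ⊤) (f : ℕ → ℕ∞)
    (hf : Small p (n + 1) f)
    (h : ∀ e, a (e + 2) + (p ^ n * p * p ^ n : ℕ) * a e ≤ (p ^ n * p + p ^ n : ℕ) * a (e + 1) + f e ∧
      (p ^ n * p + p ^ n : ℕ) * a (e + 1) ≤ a (e + 2) + (p ^ n * p * p ^ n : ℕ) * a e + f e) :
    ∃ s C K : ℝ, ∀ e : ℕ, |((a e).toNat : ℝ) - s * (p : ℝ) ^ ((e : ℝ) * ((n + 1 : ℕ) : ℝ))
      - C * (p : ℝ) ^ ((e : ℝ) * (((n + 1 : ℕ) : ℝ) - 1))| ≤
        K * (p : ℝ) ^ ((e : ℝ) * (((n + 1 : ℕ) : ℝ) - 2)) := by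
  obtain ⟨C, hC⟩ := hf
  have hp1 : (1 : ℝ) < p := by exact_mod_cast hp
  have hp0 : (0 : ℝ) < p := by linarith
  lift a to ℕ → ℕ using ha
  obtain ⟨s, C', K, hK⟩ := recur_approx (fun e => (a e : ℝ)) (l₁ := (p : ℝ) ^ n * p)
    (l₂ := (p : ℝ) ^ n) (μ := (p : ℝ) ^ n / p) (K := C) (by positivity)
    (div_lt_self (by positivity) hp1) (lt_mul_of_one_lt_right (by positivity) hp1) fun e => by
      obtain ⟨D, hD, hD'⟩ := hC e
      have h1 : a (e + 2) + (p ^ n * p * p ^ n) * a e ≤ (p ^ n * p + p ^ n) * a (e + 1) + D := by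
        have := (h e).1.trans (add_le_add_right hD _)
        beta_reduce at this
        exact_mod_cast this
      have h2 : (p ^ n * p + p ^ n) * a (e + 1) ≤ a (e + 2) + (p ^ n * p * p ^ n) * a e + D := by
        have := (h e).2.trans (add_le_add_right hD _)
        beta_reduce at this
        exact_mod_cast this
      have h3 : (D : ℝ) ≤ C * ((p : ℝ) ^ n / p) ^ e := by
        have h4 : (D : ℝ) * ((p : ℝ) ^ e) ^ 2 ≤ C * ((p : ℝ) ^ e) ^ (n + 1) := by
          exact_mod_cast hD'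
        rw [← le_div_iff₀ (by positivity)] at h4
        refine h4.trans (le_of_eq ?_)
        rw [div_pow, ← pow_mul, ← pow_mul, ← pow_mul, mul_comm n e]
        field_simp
        ring
      have h1' := (Nat.cast_le (α := ℝ)).2 h1
      have h2' := (Nat.cast_le (α := ℝ)).2 h2
      push_cast at h1' h2'
      rw [abs_le]
      constructor <;> linarith
  refine ⟨s, C', K, fun e => ?_⟩
  have e1 : (p : ℝ) ^ ((e : ℝ) * ((n + 1 : ℕ) : ℝ)) = ((p : ℝ) ^ n * p) ^ e := by
    rw [← Nat.cast_mul, Real.rpow_natCast, ← pow_succ, ← pow_mul, mul_comm]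
  have e2 : (p : ℝ) ^ ((e : ℝ) * (((n + 1 : ℕ) : ℝ) - 1)) = ((p : ℝ) ^ n) ^ e := by
    rw [Nat.cast_add_one, add_sub_cancel_right, ← Nat.cast_mul, Real.rpow_natCast, ← pow_mul,
      mul_comm]
  have e3 : (p : ℝ) ^ ((e : ℝ) * (((n + 1 : ℕ) : ℝ) - 2)) = ((p : ℝ) ^ n / p) ^ e := by
    have : (e : ℝ) * (((n + 1 : ℕ) : ℝ) - 2) = ((n * e : ℕ) : ℝ) - e := by push_cast; ring
    rw [this, Real.rpow_sub hp0, Real.rpow_natCast, Real.rpow_natCast, div_pow, ← pow_mul]
  rw [e1, e2, e3]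
  simpa using hK e

end Pool.Agent.Lib.MP_5022ed_ag
end

-- part Pool.Agent.Lib.MP_5022ed_ag.Dim
section

/-!
Noether normalisation, dimension, and reduction to domains.
-/

set_option autoImplicit false

namespace Pool.Agent.Lib.MP_5022ed_ag

open Module IsLocalRing MvPolynomial

lemma isDomain_of_sfr {p : ℕ} (hp : 2 ≤ p) {R : Type*} [CommRing R] [IsLocalRing R]
    [IsNoetherianRing R]
    (h : ∀ c : R, (∀ P ∈ minimalPrimes R, c ∉ P) → ∃ e : ℕ, 1 ≤ e ∧ ∃ φ : R →+ R,
      (∀ r y : R, φ (r ^ p ^ e * y) = r * φ y) ∧ φ c = 1) : IsDomain R := by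
  classical
  have hred : ∀ x : R, (∀ P ∈ minimalPrimes R, x ∈ P) → x = 0 := by
    obtain ⟨e, he, φ, hφ, h1⟩ := h 1 fun P hP => one_notMem hP.1.1
    have hq : 2 ≤ p ^ e := hp.trans (Nat.le_self_pow (by omega) p)
    have h2 : ∀ n, ∀ x : R, x ^ (p ^ e) ^ n = 0 → x = 0 := by
      intro n
      induction n with
      | zero => intro x hx; simpa using hx
      | succ n ih =>
        intro x hx
        rw [pow_succ', pow_mul] at hx
        have := hφ x 1
        rw [ih _ hx, zero_mul, map_zero, h1, mul_one] at this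
        exact this.symm
    intro x hx
    have h3 : x ∈ (⊥ : Ideal R).radical := by
      rw [← Ideal.sInf_minimalPrimes]
      exact Submodule.mem_sInf.2 hx
    obtain ⟨n, hn⟩ := h3
    refine h2 n x ?_
    obtain ⟨m, hm⟩ := Nat.exists_eq_add_of_le (Nat.lt_pow_self (n := n) (a := p ^ e) (by omega)).le
    rw [hm, pow_add, Ideal.mem_bot.1 hn, zero_mul]
  have hfin := minimalPrimes.finite_of_isNoetherianRing R
  have hb : ∀ P ∈ minimalPrimes R, ∃ b ∉ P, ∀ Q ∈ minimalPrimes R, Q ≠ P → b ∈ Q := by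
    intro P hP
    have : ¬ (hfin.toFinset.erase P).inf id ≤ P := by
      intro hle
      obtain ⟨Q, hQ, hQP⟩ := hP.1.1.inf_le'.1 hle
      obtain ⟨h1, h2⟩ := Finset.mem_erase.1 hQ
      exact h1 (le_antisymm hQP (hP.2 (hfin.mem_toFinset.1 h2).1 hQP))
    obtain ⟨b, hb, hbP⟩ := SetLike.not_le_iff_exists.1 this
    exact ⟨b, hbP, fun Q hQ hne => (Finset.inf_le (f := id)
      (Finset.mem_erase.2 ⟨hne, hfin.mem_toFinset.2 hQ⟩) : _ ≤ Q) hb⟩
  choose! b hb hb' using hb
  obtain ⟨P, hP, -⟩ := Ideal.exists_minimalPrimes_le (I := ⊥) (J := maximalIdeal R) bot_le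
  have huniq : ∀ Q ∈ minimalPrimes R, Q = P := by
    by_contra! hne
    obtain ⟨Q, hQ, hQP⟩ := hne
    obtain ⟨e, he, φ, hφ, h1⟩ := h (∑ P' ∈ hfin.toFinset, b P') fun P' hP' hmem => by
      rw [← Finset.add_sum_erase _ _ (hfin.mem_toFinset.2 hP')] at hmem
      refine hb P' hP' ((Ideal.add_mem_iff_left _ (Ideal.sum_mem _ fun Q' hQ' => ?_)).1 hmem)
      obtain ⟨h1, h2⟩ := Finset.mem_erase.1 hQ'
      exact hb' Q' (hfin.mem_toFinset.1 h2) P' hP' h1.symm
    refine one_notMem (maximalIdeal.isMaximal R).isPrime ?_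
    rw [← h1, map_sum]
    refine Ideal.sum_mem _ fun P' hP' => ?_
    replace hP' := hfin.mem_toFinset.1 hP'
    obtain ⟨Q', hQ', hne⟩ : ∃ Q' ∈ minimalPrimes R, Q' ≠ P' := by
      by_cases h2 : P' = P
      · exact ⟨Q, hQ, h2 ▸ hQP⟩
      · exact ⟨P, hP, Ne.symm h2⟩
    have h3 : b Q' ^ p ^ e * b P' = 0 := hred _ fun T hT => by
      by_cases h4 : T = P'
      · exact Ideal.mul_mem_right _ _ (Ideal.pow_mem_of_mem _ (hb' Q' hQ' T hT (h4 ▸ hne.symm)) _
          (by positivity))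
      · exact Ideal.mul_mem_left _ _ (hb' P' hP' T hT h4)
    have h4 := hφ (b Q') (b P')
    rw [h3, map_zero] at h4
    exact le_maximalIdeal hQ'.1.1.ne_top
      ((hQ'.1.1.mem_or_mem (h4 ▸ Q'.zero_mem)).resolve_left (hb Q' hQ'))
  have : P = ⊥ := eq_bot_iff.2 fun x hx => hred x fun Q hQ => huniq Q hQ ▸ hx
  have : (⊥ : Ideal R).IsPrime := this ▸ hP.1.1
  exact IsDomain.of_bot_isPrime R

lemma exists_base (k R : Type*) [Field k] [CommRing R] [Nontrivial R] [Algebra k R]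
    [Algebra.EssFiniteType k R] :
    ∃ (n : ℕ) (_ : Algebra (MvPolynomial (Fin n) k) R)
      (_ : IsScalarTower k (MvPolynomial (Fin n) k) R) (S : Subalgebra (MvPolynomial (Fin n) k) R)
      (N : ℕ) (y : Fin N → R), Base S ∧ ∀ z, z ∈ S ↔ ∃ j, Deg k y z j := by
  obtain ⟨σ, hσ⟩ := (Algebra.essFiniteType_iff k R).1 inferInstance
  let S₀ := Algebra.adjoin k (σ : Set R)
  have : Algebra.FiniteType k S₀ := ⟨(Subalgebra.fg_top _).2 ⟨σ, rfl⟩⟩
  obtain ⟨n, g, hg, hg'⟩ := exists_finite_inj_algHom_of_fg k S₀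
  let _ : Algebra (MvPolynomial (Fin n) k) R := (S₀.val.comp g).toRingHom.toAlgebra
  have : IsScalarTower k (MvPolynomial (Fin n) k) R :=
    IsScalarTower.of_algebraMap_eq fun a => ((S₀.val.comp g).commutes a).symm
  let S : Subalgebra (MvPolynomial (Fin n) k) R :=
    { S₀.toSubsemiring with algebraMap_mem' := fun a => (g a).2 }
  refine ⟨n, _, this, S, σ.card, fun i => σ.equivFin.symm i, ⟨Subtype.val_injective.comp hg, hg',
    fun r => ?_⟩, fun z => ?_⟩
  · obtain ⟨t, ht, htu, htr⟩ := hσ r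
    exact ⟨t, ht, htu, mul_comm r t ▸ htr⟩
  · have : (σ : Set R) = Set.range fun i => (σ.equivFin.symm i : R) := by
      ext x
      exact ⟨fun hx => ⟨σ.equivFin ⟨x, hx⟩, by simp⟩, by rintro ⟨i, rfl⟩; simp⟩
    change z ∈ Algebra.adjoin k (σ : Set R) ↔ _
    rw [this, Algebra.adjoin_range_eq_range_aeval]
    exact ⟨fun ⟨f, hf⟩ => ⟨_, f, le_rfl, hf⟩, fun ⟨_, f, _, hf⟩ => ⟨f, hf⟩⟩

lemma isIntegral_of_perfect {p : ℕ} (hp : 2 ≤ p) (k κ : Type*) [Field k] [Field κ] [Algebra k κ]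
    [Algebra.EssFiniteType k κ] [ExpChar k p] [PerfectField k] (h : ∀ y : κ, ∃ z, z ^ p = y) :
    Algebra.IsIntegral k κ := by
  obtain ⟨n, _, _, S, -, -, hB, -⟩ := exists_base k κ
  have : ExpChar κ p := expChar_of_injective_algebraMap (algebraMap k κ).injective p
  have : ExpChar (FractionRing κ) p :=
    expChar_of_injective_algebraMap (IsFractionRing.injective κ _) p
  have h1 := hB.finrank_fr (p := p)
  have h2 : finrank (FractionRing κ) (Fr p 1 (FractionRing κ)) ≤ 1 := by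
    refine finrank_le_one (Fr.mk p 1 1) fun w => ?_
    obtain ⟨w, rfl⟩ := (Fr.mk p 1).surjective w
    obtain ⟨w, rfl⟩ := IsFractionRing.surjective_iff_isField.2 (Field.toIsField κ) w
    obtain ⟨z, rfl⟩ := h w
    exact ⟨algebraMap κ _ z, by rw [Fr.smul_mk, pow_one, smul_eq_mul, mul_one,
      map_pow (algebraMap κ _)]⟩
  obtain rfl : n = 0 := by
    by_contra hn
    rw [h1, Fintype.card_fin] at h2
    have := Nat.le_self_pow hn p
    omega
  have : Algebra.IsIntegral k (MvPolynomial (Fin 0) k) :=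
    Algebra.isIntegral_of_surjective (MvPolynomial.isEmptyAlgEquiv k (Fin 0)).symm.surjective
  have h3 : ∀ z ∈ S, IsIntegral k z := fun z hz => isIntegral_trans z (hB.isIntegral hz)
  refine ⟨fun r => ?_⟩
  obtain ⟨t, ht, htu, htr⟩ := hB.loc r
  have := (h3 t ht).inv.mul (h3 _ htr)
  rwa [inv_mul_cancel_left₀ htu.ne_zero] at this

lemma perfectField_of_perfect {p : ℕ} (k κ : Type*) [Field k] [Field κ] [Algebra k κ]
    [Algebra.EssFiniteType k κ] [ExpChar k p] (h : ∀ y : κ, ∃ z, z ^ p = y) : PerfectField k := by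
  obtain ⟨n, _, _, S, -, -, hB, -⟩ := exists_base k κ
  have : ExpChar κ p := expChar_of_injective_algebraMap (algebraMap k κ).injective p
  let A := MvPolynomial (Fin n) k
  let L := FractionRing A
  have : FaithfulSMul A κ := (faithfulSMul_iff_algebraMap_injective A κ).2 hB.inj
  let _ : Algebra L κ := FractionRing.liftAlgebra A κ
  have : IsScalarTower A L κ := FractionRing.isScalarTower_liftAlgebra A κ
  have : ExpChar L p := expChar_of_injective_algebraMap (IsFractionRing.injective A L) p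
  have : Module.Finite L κ := hB.finite_frac L κ
  have h1 : finrank κ (Fr p 1 κ) = 1 := by
    refine finrank_eq_one (Fr.mk p 1 1) (by simp) fun w => ?_
    obtain ⟨w, rfl⟩ := (Fr.mk p 1).surjective w
    obtain ⟨z, rfl⟩ := h w
    exact ⟨z, by rw [Fr.smul_mk, pow_one, smul_eq_mul, mul_one]⟩
  have h2 : finrank L (Fr p 1 κ) = finrank L κ * finrank L (Fr p 1 L) := by
    have : Module.Finite κ (Fr p 1 κ) := Module.finite_of_finrank_eq_succ h1
    have : Module.Finite L (Fr p 1 κ) := Module.Finite.trans κ _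
    have : Module.Finite L (Fr p 1 L) := Module.Finite.of_injective
      (Fr.map p 1 (Algebra.linearMap L κ)) (algebraMap L κ).injective
    rw [((Fr.congr p 1 (Module.finBasis L κ).equivFun).trans (Fr.piEquiv p 1 L L _)).finrank_eq,
      Module.finrank_pi_fintype]
    simp
  rw [← Module.finrank_mul_finrank L κ (Fr p 1 κ), h1] at h2
  have h3 := (finrank_eq_one_iff_of_nonzero' (Fr.mk p 1 (1 : L)) (by simp)).1
    (Nat.eq_of_mul_eq_mul_left Module.finrank_pos h2).symm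
  have : PerfectRing k p := PerfectRing.ofSurjective k p fun a => by
    obtain ⟨z, hz⟩ := h3 (Fr.mk p 1 (algebraMap A L (C a)))
    rw [Fr.smul_mk, pow_one, smul_eq_mul, mul_one] at hz
    replace hz := (Fr.mk p 1).injective hz
    obtain ⟨w, rfl⟩ := IsIntegrallyClosed.exists_algebraMap_eq_of_isIntegral_pow (R := A)
      (expChar_pos k p) (hz ▸ isIntegral_algebraMap)
    rw [← map_pow] at hz
    refine ⟨constantCoeff w, ?_⟩
    rw [frobenius_def, ← map_pow, IsFractionRing.injective A L hz, constantCoeff_C]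
  exact PerfectRing.toPerfectField k p

lemma height_maximal (k : Type*) [Field k] (n : ℕ) :
    ∀ M : Ideal (MvPolynomial (Fin n) k), M.IsMaximal → M.height = n := by
  induction n with
  | zero =>
    intro M hM
    have := Ideal.height_le_ringKrullDim_of_ne_top hM.ne_top
    rw [MvPolynomial.ringKrullDim_of_isNoetherianRing, ringKrullDim_eq_zero_of_field] at this
    simpa using this
  | succ n ih =>
    intro M hM
    let E := (finSuccEquiv k n).toRingEquiv
    have : (M.comap E.symm).IsMaximal := Ideal.comap_isMaximal_of_equiv E.symm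
    rw [← RingEquiv.height_comap E.symm M,
      Polynomial.height_eq_height_add_one ((M.comap E.symm).under (MvPolynomial (Fin n) k)),
      ih ((M.comap E.symm).under (MvPolynomial (Fin n) k))
        (Polynomial.isMaximal_comap_C_of_isJacobsonRing _)]
    simp

lemma Base.ringKrullDim_eq {p : ℕ} (hp : 2 ≤ p) {k R : Type*} [Field k] [CommRing R] [IsDomain R]
    [IsLocalRing R] [IsNoetherianRing R] [Algebra k R] [Algebra.EssFiniteType k R] [ExpChar k p]
    [PerfectField k] {n : ℕ} [Algebra (MvPolynomial (Fin n) k) R]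
    [IsScalarTower k (MvPolynomial (Fin n) k) R] {S : Subalgebra (MvPolynomial (Fin n) k) R}
    (hB : Base S) (h : ∀ y : R, ∃ z : R, y - z ^ p ∈ maximalIdeal R) : ringKrullDim R = n := by
  let A := MvPolynomial (Fin n) k
  have hint : Algebra.IsIntegral k (R ⧸ maximalIdeal R) := by
    let _ := Ideal.Quotient.field (maximalIdeal R)
    refine isIntegral_of_perfect hp k _ fun y => ?_
    obtain ⟨y, rfl⟩ := Ideal.Quotient.mk_surjective y
    obtain ⟨z, hz⟩ := h y
    exact ⟨Ideal.Quotient.mk _ z, by rw [← map_pow, eq_comm, Ideal.Quotient.eq]; exact hz⟩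
  have hmax : ((maximalIdeal R).under A).IsMaximal := by
    let f : (A ⧸ (maximalIdeal R).under A) →ₐ[k] (R ⧸ maximalIdeal R) :=
      Ideal.quotientMapₐ (maximalIdeal R) (IsScalarTower.toAlgHom k A R) le_rfl
    have hf : Function.Injective f := Ideal.quotientMap_injective
    have : Algebra.IsIntegral k (A ⧸ (maximalIdeal R).under A) :=
      ⟨fun a => (isIntegral_algHom_iff f hf).1 (hint.isIntegral _)⟩
    exact Ideal.Quotient.maximal_of_isField _
      (isField_of_isIntegral_of_isField' (Field.toIsField k))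
  have h1 := height_maximal k n _ hmax
  rw [← maximalIdeal_height_eq_ringKrullDim]
  suffices (maximalIdeal R).height = n by rw [this]; rfl
  rw [← h1]
  apply le_antisymm
  · have := Order.height_le_height_apply_of_strictMono (PrimeSpectrum.comap (algebraMap A R))
      (fun P Q hPQ => lt_of_le_not_ge (Ideal.comap_mono hPQ.le) fun hle =>
        hPQ.ne (PrimeSpectrum.ext (hB.eq_of_comap P.2 hPQ.le hle))) (closedPoint R)
    rwa [← PrimeSpectrum.height_eq_orderHeight, ← PrimeSpectrum.height_eq_orderHeight] at this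
  · have := hB.fin
    have : FaithfulSMul A S := (faithfulSMul_iff_algebraMap_injective A S).2 fun a b hab =>
      hB.inj (congrArg Subtype.val hab)
    have : IsLocalization ((IsUnit.submonoid R).comap (algebraMap S R)) R := by
      refine ⟨⟨fun y => y.2, fun r => ?_, fun {x y} e => ⟨1, by simpa using Subtype.ext e⟩⟩⟩
      obtain ⟨t, ht, htu, htr⟩ := hB.loc r
      exact ⟨⟨⟨_, htr⟩, ⟨t, ht⟩, htu⟩, mul_comm _ _⟩
    have : Module.Flat S R := IsLocalization.flat R ((IsUnit.submonoid R).comap (algebraMap S R))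
    have : Algebra.HasGoingDown A R := Algebra.HasGoingDown.trans A S R
    rw [Ideal.height_eq_height_add_of_liesOver_of_hasGoingDown ((maximalIdeal R).under A)
      (maximalIdeal R)]
    exact le_self_add

lemma dual_iff {p e : ℕ} {R : Type*} [CommRing R] [ExpChar R p] (n : ℕ) :
    Dual R (Fr p e R) n ↔ ∃ φ : Fin n → (R →+ R), ∃ x : Fin n → R,
      (∀ (i : Fin n) (r y : R), φ i (r ^ (p ^ e) * y) = r * φ i y) ∧
        ∀ i j : Fin n, φ i (x j) = if i = j then 1 else 0 := by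
  constructor
  · rintro ⟨φ, x, h⟩
    exact ⟨fun i => (φ i).toAddMonoidHom.comp (Fr.mk p e).toAddMonoidHom,
      fun j => (Fr.mk p e).symm (x j), fun i r y => Fr.apply_pow_mul (φ i) r y, h⟩
  · rintro ⟨φ, x, h, h'⟩
    exact ⟨fun i => { toFun := fun r => φ i ((Fr.mk p e).symm r)
                      map_add' := fun a b => by rw [map_add, map_add]
                      map_smul' := fun r y => h i r _ }, fun j => Fr.mk p e (x j), h'⟩

theorem main_pos {p : ℕ} (hp : 2 ≤ p) {k R : Type*} [Field k] [CommRing R] [IsDomain R]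
    [IsLocalRing R] [IsNoetherianRing R] [Algebra k R] [Algebra.EssFiniteType k R] [ExpChar k p]
    [ExpChar R p] [PerfectField k] {n : ℕ} (hd : ringKrullDim R = (n + 1 : ℕ))
    (h : ∀ y : R, ∃ z : R, y - z ^ p ∈ maximalIdeal R) (hF : SFR p R) :
    (∀ e, fa p R e R ≠ ⊤) ∧ ∃ s C K : ℝ, ∀ e : ℕ,
      |((fa p R e R).toNat : ℝ) - s * (p : ℝ) ^ ((e : ℝ) * ((n + 1 : ℕ) : ℝ))
        - C * (p : ℝ) ^ ((e : ℝ) * (((n + 1 : ℕ) : ℝ) - 1))| ≤
          K * (p : ℝ) ^ ((e : ℝ) * (((n + 1 : ℕ) : ℝ) - 2)) := by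
  obtain ⟨m, _, _, S, N, y, hB, hS⟩ := exists_base k R
  obtain rfl : m = n + 1 := by
    have := (hB.ringKrullDim_eq hp h).symm.trans hd
    exact_mod_cast this
  have : ExpChar (FractionRing R) p :=
    expChar_of_injective_algebraMap (IsFractionRing.injective R _) p
  have hfin := (hB.locGen hS).finite (p := p)
  have htop : ∀ e, fa p R e R ≠ ⊤ := fun e => have := hfin e; frk_ne_top
  obtain ⟨f, hf, hf'⟩ := (hB.ctx hF).recurrence (FractionRing R) hfin (d := n + 1) (ρ := p ^ n)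
    (by rw [hB.finrank_fr, Fintype.card_fin, pow_succ])
    (fun x y hxy => by simpa using (hB.small hp hS hF hxy).1)
    (fun x y hxy => by simpa using (hB.small hp hS hF hxy).2)
  exact ⟨htop, expansion hp _ htop f hf hf'⟩

lemma main_zero {p : ℕ} (hp : 2 ≤ p) {R : Type*} [CommRing R] [IsDomain R] [IsLocalRing R]
    [ExpChar R p] (hd : ringKrullDim R = (0 : ℕ))
    (h : ∀ y : R, ∃ z : R, y - z ^ p ∈ maximalIdeal R) (e : ℕ) :
    IsGreatest {n : ℕ | Dual R (Fr p e R) n} 1 := by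
  have hF : IsField R := by
    have : Ring.KrullDimLE 0 R := ringKrullDimZero_iff_ringKrullDim_eq_zero.2 (by simpa using hd)
    exact Ring.KrullDimLE.isField_of_isDomain
  have hm : maximalIdeal R = ⊥ := (isField_iff_maximalIdeal_eq).1 hF
  have hs : ∀ e, ∀ y : R, ∃ z, z ^ p ^ e = y := by
    intro e
    induction e with
    | zero => exact fun y => ⟨y, by simp⟩
    | succ e ih =>
      intro y
      obtain ⟨z, rfl⟩ := ih y
      obtain ⟨w, hw⟩ := h z
      rw [hm, Ideal.mem_bot, sub_eq_zero] at hw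
      exact ⟨w, by rw [hw, pow_succ', pow_mul]⟩
  let E : R ≃ₗ[R] Fr p e R := LinearEquiv.ofBijective
    (LinearMap.toSpanSingleton R _ (Fr.mk p e 1)) ⟨by
      rw [injective_iff_map_eq_zero]
      intro a ha
      have : a ^ p ^ e * 1 = 0 := ha
      rw [mul_one] at this
      exact pow_eq_zero_iff (by positivity) |>.1 this, fun w => by
      obtain ⟨w, rfl⟩ := (Fr.mk p e).surjective w
      obtain ⟨z, rfl⟩ := hs e w
      exact ⟨z, by rw [LinearMap.toSpanSingleton_apply, Fr.smul_mk, smul_eq_mul, mul_one]⟩⟩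
  refine ⟨⟨fun _ => E.symm.toLinearMap, fun _ => E 1, fun i j => by simp [Subsingleton.elim i j]⟩,
    fun n hn => ?_⟩
  have h1 := hn.le_frk
  rw [← frk_equiv E] at h1
  have h2 : frk R R ≤ (1 : ℕ) :=
    length_quot_le_of_span (Z R R) le_rfl (fun _ : Fin 1 => 1) fun a => ⟨fun _ => a, by simp⟩
  exact_mod_cast h1.trans h2

end Pool.Agent.Lib.MP_5022ed_ag
end
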