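import Pool.Agent.Lib.MP_5022ed_ag.VolOps

-- part Pool.Agent.Lib.MP_5022ed_ag.Compare
section

/-!
Two lattices with the same volumes have close splitting numbers.
-/

set_option autoImplicit false

namespace Pool.Agent.Lib.MP_5022ed_ag

open IsLocalRing Module

lemma exists_sandwich (R M : Type*) [CommRing R] [IsDomain R] [AddCommGroup M] [Module R M]
    [Module.Finite R M] :
    ∃ (n : ℕ) (s : Fin n → M) (g : R) (θ : M →ₗ[R] (Fin n → R)), LinearIndependent R s ∧ g ≠ 0 ∧
      ∀ m, g • m = ∑ i, θ m i • s i := by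
  classical
  obtain ⟨N, v, hv⟩ := Module.Finite.exists_fin (R := R) (M := M)
  obtain ⟨I, hI, hI'⟩ := exists_maximal_linearIndepOn R v
  let η := (Fintype.equivFin I).symm
  let s : Fin (Fintype.card I) → M := fun i => v (η i)
  have hs : LinearIndependent R s := LinearIndependent.comp hI η η.injective
  have hsp : Submodule.span R (v '' I) ≤ Submodule.span R (Set.range s) := by
    refine Submodule.span_mono ?_
    rintro _ ⟨i, hi, rfl⟩
    exact ⟨η.symm ⟨i, hi⟩, by simp [s]⟩
  have ha : ∀ i, ∃ a : R, a ≠ 0 ∧ a • v i ∈ Submodule.span R (Set.range s) := by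
    intro i
    by_cases hi : i ∈ I
    · exact ⟨1, one_ne_zero, hsp (by rw [one_smul]; exact Submodule.subset_span ⟨i, hi, rfl⟩)⟩
    · obtain ⟨a, ha, h⟩ := hI' i hi
      exact ⟨a, ha, hsp h⟩
  choose a ha ha' using ha
  have hg : ∀ m : M, (∏ i, a i) • m ∈ Submodule.span R (Set.range s) := by
    intro m
    have hm : m ∈ Submodule.span R (Set.range v) := hv ▸ Submodule.mem_top
    induction hm using Submodule.span_induction with
    | mem x hx =>
      obtain ⟨i, rfl⟩ := hx
      rw [← Finset.mul_prod_erase _ _ (Finset.mem_univ i), mul_comm, mul_smul]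
      exact Submodule.smul_mem _ _ (ha' i)
    | zero => simp
    | add x y _ _ hx hy => rw [smul_add]; exact add_mem hx hy
    | smul c x _ hx => rw [smul_comm]; exact Submodule.smul_mem _ _ hx
  let B := Basis.span hs
  let G : M →ₗ[R] Submodule.span R (Set.range s) :=
    LinearMap.codRestrict _ (LinearMap.lsmul R M (∏ i, a i)) hg
  refine ⟨_, s, ∏ i, a i, B.equivFun.toLinearMap ∘ₗ G, hs,
    Finset.prod_ne_zero_iff.2 fun i _ => ha i, fun m => ?_⟩
  have := congrArg Subtype.val (B.sum_equivFun (G m))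
  simpa [B, G] using this.symm

lemma card_le_of_det {K : Type*} [Field K] {m n : Type*} [Fintype m] [Fintype n] [DecidableEq m]
    (A : Matrix m n K) (B : Matrix n m K) (h : (A * B).det ≠ 0) :
    Fintype.card m ≤ Fintype.card n := by
  rw [← Matrix.rank_of_det_ne_zero h]
  exact (Matrix.rank_mul_le_left A B).trans (Matrix.rank_le_card_width A)

variable {R : Type*} [CommRing R] {V : Set (Ideal R)} {Good : R → R → Prop}
variable {K : Type*} [Field K] [Algebra R K] [IsDomain R] [IsFractionRing R K]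
variable {M : Type*} [AddCommGroup M] [Module R M] {N : Type*} [AddCommGroup N] [Module R N]
variable {ι : Type*} [Fintype ι] [DecidableEq ι]

variable (K) in
lemma Ctx.exists_vol (h : Ctx R V Good) [Module.Finite R M]
    (htf : ∀ (r : R) (m : M), r ≠ 0 → r • m = 0 → m = 0) :
    ∃ (n : ℕ) (ζ : Ideal R → K), Vol V K M (Fin n) ζ := by
  classical
  obtain ⟨n, s, g, θ, hs, hg, hθ⟩ := exists_sandwich R M
  let j : M →ₗ[R] (Fin n → K) := (Algebra.linearMap R K).compLeft (Fin n) ∘ₗ θ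
  have hj : Function.Injective j := by
    rw [injective_iff_map_eq_zero]
    intro m hm
    refine htf g m hg ?_
    rw [hθ]
    refine Finset.sum_eq_zero fun i _ => ?_
    have : algebraMap R K (θ m i) = 0 := congrFun hm i
    rw [IsFractionRing.to_map_eq_zero_iff.1 this, zero_smul]
  have hd : dt j s ≠ 0 := by
    have h1 : ∀ i l, θ (s i) l = if i = l then g else 0 := by
      intro i l
      have h2 := hθ (s i)
      have h3 : ∑ l, (θ (s i) l - if i = l then g else 0) • s l = 0 := by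
        simp [sub_smul, ← h2]
      exact sub_eq_zero.1 (Fintype.linearIndependent_iff.1 hs _ h3 l)
    have : (Matrix.of fun i => j (s i)) = Matrix.diagonal fun _ => algebraMap R K g := by
      ext i l
      change algebraMap R K (θ (s i) l) = _
      rw [h1, Matrix.diagonal_apply]
      split_ifs <;> simp
    rw [dt, this, Matrix.det_diagonal]
    exact Finset.prod_ne_zero_iff.2 fun i _ =>
      (map_ne_zero_iff _ (IsFractionRing.injective R K)).2 hg
  choose b hb hb' using fun P (hP : P ∈ V) => h.exists_pbasis j hj s hd hP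
  refine ⟨n, fun P => if hP : P ∈ V then dt j (b P hP) else 0, j, hj, fun P hP => ?_⟩
  simp only [dif_pos hP]
  exact ⟨hb' P hP, b P hP, hb P hP, rfl⟩

omit [IsDomain R] in
lemma exists_split [IsNoetherianRing R] [Module.Finite R M] (hV : ∀ P ∈ V, P.IsPrime)
    {ξ : Ideal R → K} (hM : Vol V K M ι ξ) :
    ∃ (n : ℕ) (F : M →ₗ[R] (Fin n → R)),
      ∀ P ∈ V, ∃ t ∉ P, ∃ σ : (Fin n → R) →ₗ[R] M, ∀ m, σ (F m) = t • m := by
  classical
  obtain ⟨n, f, hf⟩ := Module.Finite.exists_fin (R := R) (M := M →ₗ[R] R)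
  refine ⟨n, LinearMap.pi f, fun P hP => ?_⟩
  obtain ⟨j, hj, hM⟩ := hM
  obtain ⟨hξ, b, hb, hd⟩ := hM P hP
  obtain ⟨N, g, hg⟩ := Module.Finite.exists_fin (R := R) (M := M)
  choose t ht r hr using fun s => hb (g s)
  have hli : LinearIndependent R b := by
    have h1 : LinearIndependent K fun i => j (b i) :=
      Matrix.linearIndependent_rows_of_det_ne_zero (A := Matrix.of fun i => j (b i))
        (by rw [← hd] at hξ; exact hξ)
    have h2 : LinearIndependent R fun i => j (b i) :=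
      h1.restrict_scalars (by
        simpa [Algebra.smul_def] using IsFractionRing.injective R K)
    exact LinearIndependent.of_comp j h2
  have hmem : ∀ m : M, (∏ s, t s) • m ∈ Submodule.span R (Set.range b) := by
    intro m
    have hm : m ∈ Submodule.span R (Set.range g) := hg ▸ Submodule.mem_top
    induction hm using Submodule.span_induction with
    | mem x hx =>
      obtain ⟨i, rfl⟩ := hx
      rw [← Finset.mul_prod_erase _ _ (Finset.mem_univ i), mul_comm, mul_smul, hr]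
      exact Submodule.smul_mem _ _ (Submodule.sum_mem _ fun l _ =>
        Submodule.smul_mem _ _ (Submodule.subset_span ⟨l, rfl⟩))
    | zero => simp
    | add x y _ _ hx hy => rw [smul_add]; exact add_mem hx hy
    | smul c x _ hx => rw [smul_comm]; exact Submodule.smul_mem _ _ hx
  let B := Basis.span hli
  let G : M →ₗ[R] Submodule.span R (Set.range b) :=
    LinearMap.codRestrict _ (LinearMap.lsmul R M (∏ s, t s)) hmem
  let β : ι → (M →ₗ[R] R) := fun i => B.coord i ∘ₗ G
  have hβ : ∀ m, (∏ s, t s) • m = ∑ i, β i m • b i := fun m => by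
    have := congrArg Subtype.val (B.sum_repr (G m))
    simpa [B, G, β] using this.symm
  have hc : ∀ i, ∃ c : Fin n → R, ∑ l, c l • f l = β i := fun i =>
    (Submodule.mem_span_range_iff_exists_fun R).1 (hf ▸ Submodule.mem_top)
  choose c hc using hc
  refine ⟨_, prod_notMem (hV P hP) ht,
    Fintype.linearCombination R fun l => ∑ i, c i l • b i, fun m => ?_⟩
  rw [hβ, Fintype.linearCombination_apply]
  simp only [← hc, LinearMap.pi_apply, Finset.smul_sum, LinearMap.coe_sum, Finset.sum_apply,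
    LinearMap.smul_apply, Finset.sum_smul, smul_eq_mul, smul_smul]
  rw [Finset.sum_comm]
  refine Finset.sum_congr rfl fun i _ => Finset.sum_congr rfl fun l _ => ?_
  rw [mul_comm]

omit [IsDomain R] in
lemma free_vol (h : Ctx R V Good) {n : ℕ} (J : (Fin n → R) →ₗ[R] (ι → K)) {ξ : Ideal R → K}
    (hJ : ∀ P ∈ V, ξ P ≠ 0 ∧ ∃ b : ι → (Fin n → R), Spans P b ∧ dt J b = ξ P) :
    Fintype.card ι = n ∧ ∃ ψ : K, ∀ P ∈ V, ∃ δ ∉ P, ξ P = ψ * algebraMap R K δ := by
  classical
  have hc : Fintype.card ι = n := by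
    obtain ⟨hξ, b, hb, hd⟩ := hJ ⊥ h.bot_mem
    let Zm : Matrix ι (Fin n) K := Matrix.of fun a l => algebraMap R K (b a l)
    have h1 : Fintype.card ι ≤ Fintype.card (Fin n) := by
      refine card_le_of_det Zm (Matrix.of fun l => J (Pi.single l 1)) ?_
      rw [← hd, dt] at hξ
      suffices Zm * (Matrix.of fun l => J (Pi.single l 1)) = Matrix.of fun i => J (b i) by
        rwa [this]
      ext a c
      rw [Matrix.mul_apply, Matrix.of_apply, LinearMap.pi_apply_eq_sum_univ J (b a),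
        Finset.sum_apply]
      refine Finset.sum_congr rfl fun l _ => ?_
      have : (Pi.single l 1 : Fin n → R) = fun j => if l = j then 1 else 0 := by
        ext i
        simp [Pi.single_apply, eq_comm]
      simp only [Zm, Matrix.of_apply, Pi.smul_apply, Algebra.smul_def, this]
    have h2 : Fintype.card (Fin n) ≤ Fintype.card ι := by
      choose t ht r hr using fun l : Fin n => hb (Pi.single l 1)
      refine card_le_of_det (Matrix.of fun l a => algebraMap R K (r l a)) Zm ?_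
      have : (Matrix.of fun l a => algebraMap R K (r l a)) * Zm =
          Matrix.diagonal fun l => algebraMap R K (t l) := by
        ext l l'
        have := congrArg (algebraMap R K) (congrFun (hr l) l')
        simp only [Pi.smul_apply, smul_eq_mul, Finset.sum_apply, map_sum, map_mul] at this
        rw [Matrix.mul_apply, Matrix.diagonal_apply]
        simp only [Zm, Matrix.of_apply]
        rw [← this]
        by_cases hl : l = l'
        · subst hl; simp
        · simp [hl, Ne.symm hl]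
      rw [this, Matrix.det_diagonal]
      exact Finset.prod_ne_zero_iff.2 fun l _ =>
        (map_ne_zero_iff _ (IsFractionRing.injective R K)).2 (by simpa using ht l)
    simpa using le_antisymm h1 h2
  refine ⟨hc, ?_⟩
  let η : ι ≃ Fin n := Fintype.equivFinOfCardEq hc
  let e : ι → (Fin n → R) := fun a => Pi.single (η a) 1
  refine ⟨dt J e, fun P hP => ?_⟩
  obtain ⟨hξ, b, hb, hd⟩ := hJ P hP
  have h1 := dt_smul_eq J e b (fun _ => 1) (fun a c => b a (η c)) fun a => by
    rw [one_smul, η.sum_comp fun l => b a l • (Pi.single l 1 : Fin n → R)]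
    ext i
    simp [Pi.single_apply]
  obtain ⟨t, ht, r, hr⟩ := dt_of_spans (h.prime P hP) J hb e
  simp only [Finset.prod_const_one, map_one, one_mul] at h1
  have h0 : dt J e ≠ 0 := by
    intro h0
    rw [h0, mul_zero, hd] at h1
    exact hξ h1
  refine ⟨_, fun hmem => ht ?_, by rw [← hd, h1, mul_comm]⟩
  rw [h1, ← mul_assoc, ← map_mul] at hr
  rw [IsFractionRing.injective R K (mul_right_cancel₀ h0 hr)]
  exact P.mul_mem_left _ hmem

lemma Vol.compare [IsLocalRing R] [IsNoetherianRing R] {p : ℕ} [ExpChar R p] (h : Ctx R V Good)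
    [Module.Finite R N] {ξ : Ideal R → K} (hM : Vol V K M ι ξ) (hN : Vol V K N ι ξ)
    (H2 : ∀ x y, Good x y → ∀ m m' : N, y • m = x • m' → ∃ m'', m = x • m'')
    (hfin : ∀ e, fa p R e R ≠ ⊤) :
    ∃ (x y x' y' : R) (n : ℕ), Good x y ∧ Good x' y' ∧ ∀ e, fa p R e N ≤
      fa p R e M + fb p e N x y + n * fb p e R x' y' + fc p e x' y' := by
  classical
  obtain ⟨n, F, hF⟩ := exists_split h.prime hN
  let I : Ideal R :=
    { carrier := {t | ∃ σ : (Fin n → R) →ₗ[R] N, ∀ m, σ (F m) = t • m}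
      add_mem' := by
        rintro a b ⟨σ, hσ⟩ ⟨τ, hτ⟩
        exact ⟨σ + τ, fun m => by simp [hσ, hτ, add_smul]⟩
      zero_mem' := ⟨0, fun m => by simp⟩
      smul_mem' := by
        rintro c a ⟨σ, hσ⟩
        exact ⟨c • σ, fun m => by simp [hσ, mul_smul]⟩ }
  obtain ⟨x, ⟨σ, hσ⟩, y, ⟨τ, hτ⟩, hxy⟩ := h.big I fun P hP hle => by
    obtain ⟨t, ht, hσ⟩ := hF P hP
    exact ht (hle hσ)
  obtain ⟨j, hj, hN⟩ := hN
  have htfN := torsionFree_of_inj j hj
  let π := (LinearMap.range F).mkQ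
  have htfC : ∀ (r : R) (c : (Fin n → R) ⧸ LinearMap.range F), r ≠ 0 → r • c = 0 → c = 0 := by
    intro r c hr hc
    obtain ⟨w, rfl⟩ := (LinearMap.range F).mkQ_surjective c
    rw [← map_smul, Submodule.mkQ_apply, Submodule.Quotient.mk_eq_zero] at hc
    obtain ⟨m, hm⟩ := hc
    have h1 : r • σ w = x • m := by rw [← map_smul, ← hm, hσ]
    have h2 : r • τ w = y • m := by rw [← map_smul, ← hm, hτ]
    have h3 : y • σ w = x • τ w := by
      refine sub_eq_zero.1 (htfN r _ hr ?_)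
      rw [smul_sub, smul_comm r y, smul_comm r x, h1, h2, smul_comm, sub_self]
    obtain ⟨m', hm'⟩ := H2 x y hxy _ _ h3
    have h4 : r • m' = m := by
      refine sub_eq_zero.1 (htfN x _ (h.ne x y hxy) ?_)
      rw [smul_sub, smul_comm, ← hm', h1, sub_self]
    rw [Submodule.mkQ_apply, Submodule.Quotient.mk_eq_zero]
    refine ⟨m', smul_right_injective (Fin n → R) hr ?_⟩
    change r • F m' = r • w
    rw [← map_smul, h4, hm]
  obtain ⟨n', ζ, hC⟩ := h.exists_vol K htfC
  have hMC := Vol.prod h.prime hM hC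
  obtain ⟨jC, -, hC⟩ := hC
  have hx0 : algebraMap R K x ≠ 0 :=
    (map_ne_zero_iff _ (IsFractionRing.injective R K)).2 (h.ne x y hxy)
  let J : (Fin n → R) →ₗ[R] (ι ⊕ Fin n' → K) :=
    (LinearEquiv.sumArrowLequivProdArrow ι (Fin n') R K).symm.toLinearMap ∘ₗ
      (((algebraMap R K x)⁻¹ • (j ∘ₗ σ)).prod (jC ∘ₗ π))
  obtain ⟨hcard, ψ, hψ⟩ := free_vol h J (ξ := fun P => ξ P * ζ P) fun P hP => by
    obtain ⟨hξ, b, hb, hd⟩ := hN P hP
    obtain ⟨hζ, c, hc, hd'⟩ := hC P hP
    choose c' hc' using fun l => (LinearMap.range F).mkQ_surjective (c l)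
    refine ⟨mul_ne_zero hξ hζ, Sum.elim (fun i => F (b i)) c', fun w => ?_, ?_⟩
    · obtain ⟨t, ht, r, hr⟩ := hc (π w)
      have : t • w - ∑ l, r l • c' l ∈ LinearMap.range F := by
        rw [← Submodule.Quotient.mk_eq_zero, ← Submodule.mkQ_apply, map_sub, map_smul, map_sum]
        simp only [map_smul, hc']
        rw [← hr, sub_self]
      obtain ⟨m, hm⟩ := this
      obtain ⟨t', ht', r', hr'⟩ := hb m
      refine ⟨t' * t, mul_notMem (h.prime P hP) ht' ht, Sum.elim r' fun l => t' * r l, ?_⟩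
      rw [Fintype.sum_sum_type, mul_smul, eq_add_of_sub_eq hm.symm, smul_add, ← map_smul, hr',
        map_sum, Finset.smul_sum]
      simp [mul_smul]
    · rw [← hd, ← hd', dt, dt, dt, ← Matrix.det_fromBlocks_zero₁₂ _
        (Matrix.of fun l => (algebraMap R K x)⁻¹ • j (σ (c' l)))]
      congr 1
      have hz : ∀ m, π (F m) = 0 := fun m => (Submodule.Quotient.mk_eq_zero _).2 ⟨m, rfl⟩
      ext (a | a) (c | c)
      · simp [J, hσ, Algebra.smul_def, hx0]
      · simp [J, hz]
      · simp [J]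
      · simp [J, π, ← hc']
  obtain ⟨x', y', hxy', hle⟩ := Vol.lower (p := p) h hMC ψ hψ
  refine ⟨x, y, x', y', n, hxy, hxy', fun e => ?_⟩
  have h1 := fa_superadd (p := p) (e := e) F π (LinearMap.range F).mkQ_surjective
    (LinearMap.exact_map_mkQ_range F) x y σ τ hσ hτ
  have h2 := hle e
  rw [hcard, fa_prod] at h2
  rw [fa_pi, Fintype.card_fin] at h1
  have h3 : fa p R e ((Fin n → R) ⧸ LinearMap.range F) ≠ ⊤ := by
    refine ne_top_of_le_ne_top ?_ (fa_le_of_surjective π (LinearMap.range F).mkQ_surjective)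
    rw [fa_pi]
    exact WithTop.mul_ne_top (ENat.natCast_ne_top _) (hfin e)
  refine (ENat.add_le_add_iff_right h3).1 (h1.trans ?_)
  calc _ ≤ _ + fb p e N x y := add_le_add_left h2 _
    _ = _ := by ring

end Pool.Agent.Lib.MP_5022ed_ag
end

-- part Pool.Agent.Lib.MP_5022ed_ag.Poly
section

/-!
Polynomial rings over perfect fields and the Frobenius.
-/

set_option autoImplicit false

namespace Pool.Agent.Lib.MP_5022ed_ag

open Module MvPolynomial

instance Fr.isScalarTower {p e : ℕ} {L K M : Type*} [CommRing L] [CommRing K] [ExpChar L p]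
    [ExpChar K p] [Algebra L K] [AddCommGroup M] [Module L M] [Module K M] [IsScalarTower L K M] :
    IsScalarTower L K (Fr p e M) where
  smul_assoc a b m := by
    obtain ⟨m, rfl⟩ := (Fr.mk p e).surjective m
    rw [Fr.smul_mk, Fr.smul_mk, Fr.smul_mk, Algebra.smul_def, mul_pow, ← map_pow, mul_smul,
      algebraMap_smul]

lemma Fr.isLocalizedModule (p e : ℕ) (R K : Type*) [CommRing R] [IsDomain R] [Field K]
    [ExpChar R p] [Algebra R K] [IsFractionRing R K] :
    IsLocalizedModule (nonZeroDivisors R) (Fr.map p e (Algebra.linearMap R K)) where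
  map_units s := by
    have hs : algebraMap R K (s ^ p ^ e) ≠ 0 := by
      rw [map_pow]
      exact pow_ne_zero _ (IsFractionRing.to_map_ne_zero_of_mem_nonZeroDivisors s.2)
    rw [Module.End.isUnit_iff]
    constructor
    · intro a b hab
      obtain ⟨a, rfl⟩ := (Fr.mk p e).surjective a
      obtain ⟨b, rfl⟩ := (Fr.mk p e).surjective b
      simp only [Module.algebraMap_end_apply, Fr.smul_mk, Algebra.smul_def] at hab
      rw [mul_left_cancel₀ hs ((Fr.mk p e).injective hab)]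
    · intro a
      obtain ⟨a, rfl⟩ := (Fr.mk p e).surjective a
      refine ⟨Fr.mk p e ((algebraMap R K (s ^ p ^ e))⁻¹ * a), ?_⟩
      simp only [Module.algebraMap_end_apply, Fr.smul_mk, Algebra.smul_def]
      rw [mul_inv_cancel_left₀ hs]
  surj a := by
    obtain ⟨a, rfl⟩ := (Fr.mk p e).surjective a
    obtain ⟨⟨r, s⟩, hrs⟩ := IsLocalization.surj (nonZeroDivisors R) a
    refine ⟨⟨Fr.mk p e (s ^ (p ^ e - 1) * r), s⟩, ?_⟩
    have h1 : p ^ e - 1 + 1 = p ^ e := Nat.sub_add_cancel (expChar_pow_pos R p e)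
    change (s : R) • Fr.mk p e a = _
    rw [Fr.smul_mk, Fr.map_mk, Algebra.linearMap_apply, map_mul, ← hrs, Algebra.smul_def]
    congr 1
    conv_lhs => rw [← h1, pow_succ, map_mul]
    ring
  exists_of_eq {a b} hab := ⟨1, by
    obtain ⟨a, rfl⟩ := (Fr.mk p e).surjective a
    obtain ⟨b, rfl⟩ := (Fr.mk p e).surjective b
    obtain rfl : a = b := IsFractionRing.injective R K ((Fr.mk p e).injective hab)
    rfl⟩

variable {k : Type*} [Field k] {p : ℕ} [ExpChar k p] {σ : Type*}

lemma frob_induction [PerfectField k] (e j : ℕ) {P : MvPolynomial σ k → Prop} (h0 : P 0)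
    (hadd : ∀ f g, P f → P g → P (f + g))
    (hmono : ∀ (c : MvPolynomial σ k) (α : σ →₀ ℕ), c.totalDegree * p ^ e ≤ j →
      (∀ i, α i < p ^ e) → P (c ^ p ^ e * monomial α 1)) (f : MvPolynomial σ k)
    (hf : f.totalDegree ≤ j) : P f := by
  classical
  have hq : 0 < p ^ e := expChar_pow_pos k p e
  rw [f.as_sum]
  refine Finset.sum_induction _ P hadd h0 fun s hs => ?_
  obtain ⟨a, ha⟩ := (iterateFrobeniusEquiv k p e).surjective (coeff s f)
  rw [iterateFrobeniusEquiv_apply, iterateFrobenius_def] at ha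
  let s₁ : σ →₀ ℕ := s.mapRange (· / p ^ e) (by simp)
  let s₂ : σ →₀ ℕ := s.mapRange (· % p ^ e) (by simp)
  have hs' : (p ^ e) • s₁ + s₂ = s := by
    ext i
    simp [s₁, s₂, Nat.div_add_mod]
  have : monomial s (coeff s f) = (monomial s₁ a) ^ p ^ e * monomial s₂ 1 := by
    rw [monomial_pow, monomial_mul, hs', mul_one, ha]
  rw [this]
  refine hmono _ _ ?_ fun i => Nat.mod_lt _ hq
  refine le_trans ?_ ((le_totalDegree hs).trans hf)
  refine (Nat.mul_le_mul_right _ (totalDegree_monomial_le _ _)).trans ?_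
  conv_rhs => rw [← hs']
  rw [Finsupp.sum_add_index' (fun _ => rfl) (fun _ _ _ => rfl)]
  refine le_trans (le_of_eq ?_) (Nat.le_add_right _ _)
  rw [Finsupp.sum_smul_index' (fun _ => rfl), Finsupp.sum, Finsupp.sum, Finset.sum_mul]
  simp [mul_comm]

lemma totalDegree_monomial_lt [Fintype σ] {q : ℕ} {α : σ →₀ ℕ} (h : ∀ i, α i < q) :
    (monomial α (1 : k)).totalDegree ≤ Fintype.card σ * q := by
  refine (totalDegree_monomial_le _ _).trans ?_
  rw [Finsupp.sum_fintype _ _ (fun _ => rfl)]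
  calc _ ≤ ∑ _i : σ, q := Finset.sum_le_sum fun i _ => (h i).le
    _ = _ := by simp

/-- The exponent vector of a function to `Fin q`. -/
noncomputable def expo [Finite σ] {q : ℕ} (α : σ → Fin q) : σ →₀ ℕ :=
  Finsupp.equivFunOnFinite.symm fun i => α i

@[simp] lemma expo_apply [Finite σ] {q : ℕ} (α : σ → Fin q) (i : σ) : expo α i = α i := rfl

lemma exists_expo [Finite σ] {q : ℕ} {α : σ →₀ ℕ} (h : ∀ i, α i < q) :
    ∃ β : σ → Fin q, expo β = α := ⟨fun i => ⟨α i, h i⟩, by ext; rfl⟩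

lemma finrank_fr_poly [PerfectField k] [Fintype σ] [DecidableEq σ] :
    finrank (MvPolynomial σ k) (Fr p 1 (MvPolynomial σ k)) = p ^ Fintype.card σ := by
  classical
  have hp : 0 < p := expChar_pos k p
  let b : (σ → Fin p) → Fr p 1 (MvPolynomial σ k) := fun α => Fr.mk p 1 (monomial (expo α) 1)
  have hli : LinearIndependent (MvPolynomial σ k) b := by
    rw [Fintype.linearIndependent_iff]
    intro c hc α
    have h1 : ∑ β, c β ^ p * monomial (expo β) (1 : k) = 0 := by
      apply (Fr.mk p 1).injective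
      rw [map_sum, map_zero, ← hc]
      refine Finset.sum_congr rfl fun β _ => ?_
      rw [Fr.smul_mk, pow_one, smul_eq_mul]
    ext s
    have h2 := congrArg (coeff (p • s + expo α)) h1
    rw [coeff_sum, Finset.sum_eq_single α, coeff_mul_monomial, mul_one, ← map_frobenius_expand,
      coeff_map, coeff_expand_smul p hp.ne', coeff_zero, frobenius_def] at h2
    · rw [coeff_zero]
      exact pow_eq_zero_iff hp.ne' |>.1 h2
    · intro β _ hβ
      rw [coeff_mul_monomial']
      split_ifs with hle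
      · obtain ⟨i, hi⟩ := Function.ne_iff.1 hβ
        rw [← map_frobenius_expand, coeff_map, coeff_expand_of_not_dvd (i := i), map_zero, zero_mul]
        intro hdvd
        have h3 := hle i
        simp only [Finsupp.coe_add, Finsupp.coe_smul, Pi.add_apply, Pi.smul_apply, smul_eq_mul,
          expo_apply, Finsupp.coe_tsub, Pi.sub_apply] at h3 hdvd
        have h4 : (β i : ℕ) ≡ p * s i + α i [MOD p] := (Nat.modEq_iff_dvd' h3).2 hdvd
        apply hi
        ext
        rw [Nat.ModEq, Nat.mul_add_mod, Nat.mod_eq_of_lt (β i).2, Nat.mod_eq_of_lt (α i).2] at h4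
        exact h4
      · rfl
    · simp
  have hsp : ⊤ ≤ Submodule.span (MvPolynomial σ k) (Set.range b) := by
    intro f _
    obtain ⟨f, rfl⟩ := (Fr.mk p 1).surjective f
    refine frob_induction (p := p) 1 f.totalDegree
      (P := fun f => Fr.mk p 1 f ∈ Submodule.span (MvPolynomial σ k) (Set.range b)) (by simp)
      (fun f g hf hg => by rw [map_add]; exact add_mem hf hg) (fun c α _ hα => ?_) f le_rfl
    rw [pow_one] at hα
    obtain ⟨β, rfl⟩ := exists_expo hα
    rw [← smul_eq_mul, ← Fr.smul_mk]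
    exact Submodule.smul_mem _ _ (Submodule.subset_span ⟨β, rfl⟩)
  rw [finrank_eq_card_basis (Basis.mk hli hsp)]
  simp

lemma finrank_restrict_le [Fintype σ] (j : ℕ) :
    finrank k (restrictTotalDegree σ k j) ≤ (j + 1) ^ Fintype.card σ := by
  classical
  let G : restrictTotalDegree σ k j →ₗ[k] ((σ → Fin (j + 1)) → k) :=
    LinearMap.pi fun α => lcoeff k (expo α) ∘ₗ Submodule.subtype _
  have hG : Function.Injective G := by
    rw [injective_iff_map_eq_zero]
    rintro ⟨f, hf⟩ h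
    ext s
    by_contra hne
    have hs : s ∈ f.support := by simpa using hne
    have h1 : ∀ i, s i < j + 1 := fun i => Nat.lt_succ_of_le
      ((mem_restrictDegree _ _ _).1 (restrictTotalDegree_le_restrictDegree σ k j hf) s hs i)
    obtain ⟨β, rfl⟩ := exists_expo h1
    exact hne (congrFun h β)
  simpa using LinearMap.finrank_le_finrank_of_injective hG

end Pool.Agent.Lib.MP_5022ed_ag
end

-- part Pool.Agent.Lib.MP_5022ed_ag.Count
section

/-!
Counting generators modulo two coprime polynomials by second differences.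
-/

set_option autoImplicit false

namespace Pool.Agent.Lib.MP_5022ed_ag

open Module MvPolynomial

lemma grid_bound (D F : ℕ → ℕ → ℕ) (q : ℕ) (hq : 0 < q)
    (h : ∀ s t, D s t + F (s + 1) t + F s (t + 1) ≤ F (s + 1) (t + 1) + F s t)
    (h0 : F 0 0 ≤ F q 0) : ∃ s t, D s t * q ^ 2 ≤ F q q := by
  have h1 : ∀ s n, ∑ t ∈ Finset.range n, D s t + F (s + 1) 0 + F s n ≤ F (s + 1) n + F s 0 := by
    intro s n
    induction n with
    | zero => simp
    | succ n ih =>
      rw [Finset.sum_range_succ]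
      have := h s n
      omega
  have h2 : ∀ m, ∑ s ∈ Finset.range m, ∑ t ∈ Finset.range q, D s t + F m 0 + F 0 q ≤
      F m q + F 0 0 := by
    intro m
    induction m with
    | zero => simp [add_comm]
    | succ m ih =>
      rw [Finset.sum_range_succ]
      have := h1 m q
      omega
  obtain ⟨⟨s, t⟩, -, hst⟩ := Finset.exists_min_image (Finset.range q ×ˢ Finset.range q)
    (fun x => D x.1 x.2) ⟨(0, 0), by simp [hq]⟩
  refine ⟨s, t, ?_⟩
  have h3 := Finset.card_nsmul_le_sum _ _ _ hst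
  rw [Finset.sum_product, Finset.card_product, Finset.card_range, smul_eq_mul] at h3
  have h4 := h2 q
  simp only at h3
  calc D s t * q ^ 2 = q * q * D s t := by ring
    _ ≤ _ := by omega

variable {k : Type*} [Field k] {σ : Type*} [Fintype σ] {ι : Type*} [Fintype ι]

/-- The elements of `W` of degree at most `j`. -/
noncomputable def Wd (W : Submodule (MvPolynomial σ k) (ι → MvPolynomial σ k)) (j : ℕ) :
    Submodule k (ι → MvPolynomial σ k) :=
  W.restrictScalars k ⊓ Submodule.pi Set.univ fun _ => restrictTotalDegree σ k j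

variable {W : Submodule (MvPolynomial σ k) (ι → MvPolynomial σ k)}

omit [Fintype σ] [Fintype ι] in
lemma mem_Wd {j : ℕ} {w : ι → MvPolynomial σ k} :
    w ∈ Wd W j ↔ w ∈ W ∧ ∀ i, (w i).totalDegree ≤ j := by
  simp [Wd, Submodule.mem_pi, mem_restrictTotalDegree]

/-- The inclusion in a product of spaces of polynomials of bounded degree. -/
noncomputable def WdIncl (W : Submodule (MvPolynomial σ k) (ι → MvPolynomial σ k)) (j : ℕ) :
    Wd W j →ₗ[k] (ι → restrictTotalDegree σ k j) :=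
  LinearMap.pi fun i => LinearMap.codRestrict _ (LinearMap.proj i ∘ₗ (Wd W j).subtype) fun w =>
    (mem_restrictTotalDegree _ _ _).2 ((mem_Wd.1 w.2).2 i)

omit [Fintype σ] [Fintype ι] in
lemma WdIncl_injective (j : ℕ) : Function.Injective (WdIncl W j) := by
  intro a b hab
  ext1
  funext i
  exact congrArg Subtype.val (congrFun hab i)

instance (j : ℕ) : Module.Finite k (Wd W j) :=
  Module.Finite.of_injective _ (WdIncl_injective j)

lemma finrank_Wd_le (j : ℕ) :
    finrank k (Wd W j) ≤ Fintype.card ι * (j + 1) ^ Fintype.card σ := by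
  refine (LinearMap.finrank_le_finrank_of_injective (WdIncl_injective j)).trans ?_
  rw [Module.finrank_pi_fintype]
  calc _ ≤ ∑ _i : ι, (j + 1) ^ Fintype.card σ :=
        Finset.sum_le_sum fun i _ => finrank_restrict_le j
    _ = _ := by simp

omit [Fintype σ] [Fintype ι] in
lemma Wd_mono {i j : ℕ} (h : i ≤ j) : Wd W i ≤ Wd W j := fun _ hw =>
  mem_Wd.2 ⟨(mem_Wd.1 hw).1, fun l => ((mem_Wd.1 hw).2 l).trans h⟩

/-- Multiplication by a polynomial on the pieces of bounded degree. -/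
noncomputable def WdMul (W : Submodule (MvPolynomial σ k) (ι → MvPolynomial σ k)) (a : MvPolynomial σ k)
    {i j : ℕ} (h : a.totalDegree + i ≤ j) : Wd W i →ₗ[k] Wd W j :=
  LinearMap.codRestrict _ (((LinearMap.lsmul (MvPolynomial σ k) _ a).restrictScalars k) ∘ₗ
    (Wd W i).subtype) fun w => mem_Wd.2 ⟨W.smul_mem a (mem_Wd.1 w.2).1, fun l =>
      (totalDegree_mul _ _).trans ((Nat.add_le_add_left ((mem_Wd.1 w.2).2 l) _).trans h)⟩

omit [Fintype σ] [Fintype ι] in
@[simp] lemma WdMul_coe (a : MvPolynomial σ k) {i j : ℕ} (h : a.totalDegree + i ≤ j)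
    (w : Wd W i) : (WdMul W a h w : ι → MvPolynomial σ k) = a • (w : ι → MvPolynomial σ k) := rfl

lemma count_step {a b : MvPolynomial σ k} (ha : a ≠ 0)
    (H2 : ∀ w ∈ W, ∀ w' ∈ W, b • w = a • w' → ∃ w'' ∈ W, w = a • w'') (j : ℕ) :
    ∃ D : ℕ, D + finrank k (Wd W (j + a.totalDegree)) + finrank k (Wd W (j + b.totalDegree)) ≤
      finrank k (Wd W (j + a.totalDegree + b.totalDegree)) + finrank k (Wd W j) ∧
      ∃ w : Fin D → (ι → MvPolynomial σ k), (∀ i, w i ∈ W) ∧
        ∀ u ∈ Wd W j, ∃ c : Fin D → k, ∃ u₁ ∈ W, ∃ u₂ ∈ W,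
          u = ∑ i, c i • w i + a • u₁ + b • u₂ := by
  let μ : (Wd W (j + b.totalDegree) × Wd W (j + a.totalDegree)) →ₗ[k]
      Wd W (j + a.totalDegree + b.totalDegree) :=
    (WdMul W a (by omega)).coprod (WdMul W (-b) (by rw [totalDegree_neg]; omega))
  let ν : Wd W j →ₗ[k] (Wd W (j + b.totalDegree) × Wd W (j + a.totalDegree)) :=
    (WdMul W b (by omega)).prod (WdMul W a (by omega))
  have hker : LinearMap.ker μ ≤ LinearMap.range ν := by
    rintro ⟨u, v⟩ huv
    have h1 : a • (u : ι → MvPolynomial σ k) + (-b) • (v : ι → MvPolynomial σ k) = 0 :=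
      congrArg Subtype.val (LinearMap.mem_ker.1 huv)
    rw [neg_smul, add_neg_eq_zero] at h1
    obtain ⟨w, hw, hw'⟩ := H2 v (mem_Wd.1 v.2).1 u (mem_Wd.1 u.2).1 h1.symm
    refine ⟨⟨w, mem_Wd.2 ⟨hw, fun l => ?_⟩⟩, ?_⟩
    · by_cases h0 : w l = 0
      · simp [h0]
      · have := (mem_Wd.1 v.2).2 l
        rw [hw', Pi.smul_apply, smul_eq_mul, totalDegree_mul_of_isDomain ha h0] at this
        omega
    · ext1
      · ext1
        change b • w = u
        apply smul_right_injective _ ha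
        change a • b • w = a • (u : ι → MvPolynomial σ k)
        rw [h1, hw', smul_comm]
      · ext1
        exact hw'.symm
  have h1 := LinearMap.finrank_range_add_finrank_ker μ
  have h2 := (Submodule.finrank_mono hker).trans (LinearMap.finrank_range_le ν)
  have h3 := Submodule.finrank_quotient_add_finrank (LinearMap.range μ)
  rw [Module.finrank_prod] at h1
  refine ⟨finrank k (_ ⧸ LinearMap.range μ), by omega, ?_⟩
  let B := Module.finBasis k (_ ⧸ LinearMap.range μ)
  choose w hw using fun i => (LinearMap.range μ).mkQ_surjective (B i)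
  refine ⟨fun i => w i, fun i => (mem_Wd.1 (w i).2).1, fun u hu => ?_⟩
  let u' : Wd W (j + a.totalDegree + b.totalDegree) := ⟨u, Wd_mono (by omega) hu⟩
  have : u' - ∑ i, B.repr ((LinearMap.range μ).mkQ u') i • w i ∈ LinearMap.range μ := by
    rw [← Submodule.Quotient.mk_eq_zero, ← Submodule.mkQ_apply, map_sub, map_sum]
    simp only [map_smul, hw]
    rw [B.sum_repr, sub_self]
  obtain ⟨⟨u₁, u₂⟩, h⟩ := this
  refine ⟨B.repr ((LinearMap.range μ).mkQ u'), u₁, (mem_Wd.1 u₁.2).1, -u₂,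
    W.neg_mem (mem_Wd.1 u₂.2).1, ?_⟩
  have h4 : a • (u₁ : ι → MvPolynomial σ k) + (-b) • (u₂ : ι → MvPolynomial σ k) =
      u - ∑ i, B.repr ((LinearMap.range μ).mkQ u') i • (w i : ι → MvPolynomial σ k) := by
    have := congrArg Subtype.val h
    simpa [μ, u'] using this
  rw [add_assoc, smul_neg, ← neg_smul, h4]
  abel

lemma count {a b : MvPolynomial σ k} (ha : a ≠ 0)
    (H2 : ∀ w ∈ W, ∀ w' ∈ W, b • w = a • w' → ∃ w'' ∈ W, w = a • w'') (J q : ℕ) (hq : 0 < q) :
    ∃ D : ℕ, D * q ^ 2 ≤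
      Fintype.card ι * (J + q * (a.totalDegree + b.totalDegree) + 1) ^ Fintype.card σ ∧
      ∃ w : Fin D → (ι → MvPolynomial σ k), (∀ i, w i ∈ W) ∧
        ∀ u ∈ Wd W J, ∃ c : Fin D → k, ∃ u₁ ∈ W, ∃ u₂ ∈ W,
          u = ∑ i, c i • w i + a • u₁ + b • u₂ := by
  choose D hD w hw hw' using count_step ha H2
  obtain ⟨s, t, hst⟩ := grid_bound (fun s t => D (J + s * a.totalDegree + t * b.totalDegree))
    (fun s t => finrank k (Wd W (J + s * a.totalDegree + t * b.totalDegree))) q hq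
    (fun s t => by
      have := hD (J + s * a.totalDegree + t * b.totalDegree)
      have e1 : J + (s + 1) * a.totalDegree + t * b.totalDegree =
        J + s * a.totalDegree + t * b.totalDegree + a.totalDegree := by ring
      have e2 : J + s * a.totalDegree + (t + 1) * b.totalDegree =
        J + s * a.totalDegree + t * b.totalDegree + b.totalDegree := by ring
      have e3 : J + (s + 1) * a.totalDegree + (t + 1) * b.totalDegree =
        J + s * a.totalDegree + t * b.totalDegree + a.totalDegree + b.totalDegree := by ring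
      beta_reduce
      rw [e1, e2, e3]
      exact this)
    (Submodule.finrank_mono (Wd_mono (by omega)))
  refine ⟨_, hst.trans ((finrank_Wd_le _).trans (le_of_eq ?_)), w _, hw _, fun u hu =>
    hw' _ u (Wd_mono (by omega) hu)⟩
  congr 2
  ring

end Pool.Agent.Lib.MP_5022ed_ag
end

-- part Pool.Agent.Lib.MP_5022ed_ag.Normal
section

/-!
Strongly F-regular localisations of finite algebras over a factorial ring.
-/

set_option autoImplicit false

namespace Pool.Agent.Lib.MP_5022ed_ag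

open Module IsLocalRing

/-- Strong F-regularity of a domain. -/
def SFR (p : ℕ) (R : Type*) [CommRing R] [ExpChar R p] : Prop :=
  ∀ c : R, c ≠ 0 → ∃ e : ℕ, 1 ≤ e ∧ ∃ φ : Fr p e R →ₗ[R] R, φ (Fr.mk p e c) = 1

/-- The ring is a localisation of a finite algebra `S` over `A`. -/
structure Base {A R : Type*} [CommRing A] [CommRing R] [Algebra A R] (S : Subalgebra A R) :
    Prop where
  inj : Function.Injective (algebraMap A R)
  fin : Module.Finite A S
  loc : ∀ r : R, ∃ t ∈ S, IsUnit t ∧ t * r ∈ S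

/-- Primes lying over a prime of height at most one. -/
def VV (A R : Type*) [CommRing A] [CommRing R] [Algebra A R] : Set (Ideal R) :=
  {P | P.IsPrime ∧ ∃ π : A, (π = 0 ∨ Prime π) ∧ ∀ a, algebraMap A R a ∈ P → π ∣ a}

/-- Images of coprime pairs. -/
def GG (A : Type*) {R : Type*} [CommRing A] [CommRing R] [Algebra A R] (x y : R) : Prop :=
  ∃ a b : A, a ≠ 0 ∧ IsRelPrime a b ∧ x = algebraMap A R a ∧ y = algebraMap A R b

variable {p : ℕ} {A R : Type*} [CommRing A] [CommRing R] [Algebra A R] {S : Subalgebra A R}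

lemma SFR.mem_range [IsDomain R] [ExpChar R p] (h : SFR p R) {K : Type*} [Field K] [Algebra R K]
    [IsFractionRing R K] {u : K} (hu : IsAlmostIntegral R u) : ∃ r, algebraMap R K r = u := by
  obtain ⟨c, hc, hu⟩ := hu
  obtain ⟨e, -, φ, hφ⟩ := h c (nonZeroDivisors.ne_zero hc)
  obtain ⟨r, hr⟩ := hu (p ^ e)
  obtain ⟨⟨a, b⟩, hab⟩ := IsLocalization.surj (nonZeroDivisors R) u
  simp only at hab
  have h1 : a ^ p ^ e * c = (b : R) ^ p ^ e * r := IsFractionRing.injective R K (by
    rw [map_mul, map_mul, map_pow, map_pow, hr, ← hab, Algebra.smul_def]; ring)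
  have h2 : a = b * φ (Fr.mk p e r) := by
    have := congrArg (fun z => φ (Fr.mk p e z)) h1
    simp only [← smul_eq_mul, ← Fr.smul_mk, map_smul, hφ] at this
    simpa using this
  refine ⟨φ (Fr.mk p e r), mul_left_cancel₀
    (IsFractionRing.to_map_ne_zero_of_mem_nonZeroDivisors b.2) ?_⟩
  rw [← map_mul, ← h2, ← hab, mul_comm]

lemma SFR.isIntegrallyClosed [IsDomain R] [ExpChar R p] (h : SFR p R) : IsIntegrallyClosed R :=
  (isIntegrallyClosed_iff (FractionRing R)).2 fun hx => h.mem_range hx.isAlmostIntegral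

lemma Base.isIntegral (hB : Base S) {z : R} (hz : z ∈ S) : IsIntegral A z := by
  have := hB.fin
  exact (IsIntegral.of_finite A (⟨z, hz⟩ : S)).map S.val

lemma Base.comap_ne_bot [IsDomain R] [Nontrivial A] (hB : Base S) {I : Ideal R} (hI : I ≠ ⊥) :
    I.comap (algebraMap A R) ≠ ⊥ := by
  obtain ⟨r, hr, hr0⟩ := Submodule.exists_mem_ne_zero_of_ne_bot hI
  obtain ⟨t, -, ht, htr⟩ := hB.loc r
  exact Ideal.comap_ne_bot_of_integral_mem (mul_ne_zero ht.ne_zero hr0) (I.mul_mem_left t hr)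
    (hB.isIntegral htr)

lemma Base.eq_of_comap (hB : Base S) {P Q : Ideal R} (hP : P.IsPrime) (hPQ : P ≤ Q)
    (h : Q.comap (algebraMap A R) ≤ P.comap (algebraMap A R)) : P = Q := by
  refine le_antisymm hPQ fun r hr => ?_
  by_contra hrP
  obtain ⟨t, -, ht, htr⟩ := hB.loc r
  have := Ideal.comap_lt_comap_of_integral_mem_sdiff (R := A) hPQ (x := t * r)
    ⟨Q.mul_mem_left t hr, fun hmem => hrP ((Ideal.unit_mul_mem_iff_mem P ht).1 hmem)⟩
    (hB.isIntegral htr)
  exact this.not_ge h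

variable [IsDomain R] [IsDomain A] [UniqueFactorizationMonoid A]

lemma Base.incomp (hB : Base S) {P Q : Ideal R} (hP : P.IsPrime) (hQ : Q ∈ VV A R) (h0 : P ≠ ⊥)
    (hPQ : P ≤ Q) : P = Q := by
  obtain ⟨-, π, hπ, hQ⟩ := hQ
  obtain ⟨π', hπ', hp'⟩ := (Ideal.comap_isPrime (algebraMap A R) P).exists_mem_prime_of_ne_bot
    (hB.comap_ne_bot h0)
  have h1 : π ∣ π' := hQ π' (hPQ hπ')
  have h2 : π' ∣ π := by
    rcases hπ with rfl | hπ
    · exact dvd_zero _
    · exact (hπ.associated_of_dvd hp' h1).symm.dvd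
  refine hB.eq_of_comap hP hPQ fun a ha => ?_
  obtain ⟨c, rfl⟩ := h2.trans (hQ a ha)
  exact Ideal.mul_mem_right _ _ hπ'

lemma Base.h2 [ExpChar R p] (hB : Base S) (h : SFR p R) {x y : R} (hxy : GG A x y) (a b : R)
    (hab : y * a = x * b) : x ∣ a := by
  obtain ⟨α, β, hα, hαβ, rfl, rfl⟩ := hxy
  have := hB.fin
  obtain ⟨n, s, g, θ, -, hg, hθ⟩ := exists_sandwich A S
  obtain ⟨t, ht, htu, hta⟩ := hB.loc a
  obtain ⟨t', ht', htu', htb⟩ := hB.loc b
  let a' : S := ⟨t' * (t * a), S.mul_mem ht' hta⟩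
  let b' : S := ⟨t * (t' * b), S.mul_mem ht htb⟩
  have h1 : β • a' = α • b' := by
    ext
    simp only [SetLike.val_smul, Algebra.smul_def (R := A) (A := R), a', b']
    linear_combination t * t' * hab
  let K := FractionRing R
  have hinj : Function.Injective (algebraMap R K) := IsFractionRing.injective R K
  have hx : algebraMap R K (algebraMap A R α) ≠ 0 :=
    (map_ne_zero_iff _ hinj).2 ((map_ne_zero_iff _ hB.inj).2 hα)
  obtain ⟨c, hc⟩ := h.mem_range (K := K)
      (u := algebraMap R K a' * (algebraMap R K (algebraMap A R α))⁻¹) <| by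
    refine ⟨algebraMap A R g, mem_nonZeroDivisors_of_ne_zero ((map_ne_zero_iff _ hB.inj).2 hg),
      fun m => ?_⟩
    have h2 : β ^ m • a' ^ m = α ^ m • b' ^ m := by rw [← smul_pow, ← smul_pow, h1]
    have h3 : ∀ i, α ^ m ∣ θ (a' ^ m) i := fun i => by
      have := congrFun (congrArg θ h2) i
      simp only [map_smul, Pi.smul_apply, smul_eq_mul] at this
      exact (hαβ.pow (m := m) (n := m)).dvd_of_dvd_mul_left ⟨_, this⟩
    choose w hw using h3
    refine ⟨((∑ i, w i • s i : S) : R), ?_⟩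
    have h4 : g • a' ^ m = α ^ m • ∑ i, w i • s i := by
      rw [hθ, Finset.smul_sum]
      simp [hw, mul_smul]
    have h5 := congrArg (fun z : S => algebraMap R K z) h4
    simp only [SetLike.val_smul, Algebra.smul_def (R := A) (A := R), map_mul, map_pow,
      SubmonoidClass.coe_pow] at h5
    rw [Algebra.smul_def, mul_pow, ← mul_assoc, h5, inv_pow, mul_comm (_ ^ m),
      mul_inv_cancel_right₀ (pow_ne_zero _ hx)]
  have h6 : (a' : R) = algebraMap A R α * c := hinj (by
    rw [map_mul _ _ c, hc, mul_left_comm, mul_inv_cancel₀ hx, mul_one])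
  refine ((htu'.mul htu).dvd_mul_left).1 ⟨c, ?_⟩
  rw [← h6, mul_assoc]

omit [IsDomain R] in
lemma VV_big (I : Ideal R) (hI : ∀ P ∈ VV A R, ¬ I ≤ P) :
    ∃ x ∈ I, ∃ y ∈ I, GG A x y := by
  classical
  have h1 : ∀ π : A, (π = 0 ∨ Prime π) → ¬ I.comap (algebraMap A R) ≤ Ideal.span {π} := by
    intro π hπ hle
    have hpr : (Ideal.span {π}).IsPrime := by
      rcases hπ with rfl | hπ
      · simpa using Ideal.isPrime_bot
      · exact (Ideal.span_singleton_prime hπ.ne_zero).2 hπ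
    obtain ⟨P, hP, hIP, hd⟩ := I.exists_le_prime_disjoint
      ((Ideal.span {π}).primeCompl.map (algebraMap A R)) (by
        rw [Set.disjoint_left]
        rintro _ hr ⟨a, ha, rfl⟩
        exact ha (hle hr))
    refine hI P ⟨hP, π, hπ, fun a ha => ?_⟩ hIP
    by_contra hna
    exact Set.disjoint_left.1 hd ha ⟨a, fun hmem => hna (Ideal.mem_span_singleton.1 hmem), rfl⟩
  obtain ⟨α, hα, hα0⟩ := SetLike.not_le_iff_exists.1 (h1 0 (Or.inl rfl))
  replace hα0 : α ≠ 0 := by simpa using hα0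
  let T := (UniqueFactorizationMonoid.factors α).toFinset
  by_cases hT : T = ∅
  · refine ⟨_, hα, _, hα, α, α, hα0, ?_, rfl, rfl⟩
    rw [Multiset.toFinset_eq_empty] at hT
    have := UniqueFactorizationMonoid.factors_prod hα0
    rw [hT, Multiset.prod_zero] at this
    exact (associated_one_iff_isUnit.1 this.symm).isRelPrime_left
  have hprime : ∀ π ∈ T, Prime π := fun π hπ =>
    UniqueFactorizationMonoid.prime_of_factor π (Multiset.mem_toFinset.1 hπ)
  have h2 : ¬ ((I.comap (algebraMap A R) : Ideal A) : Set A) ⊆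
      ⋃ π ∈ (T : Set A), ((Ideal.span {π} : Ideal A) : Set A) := by
    intro hsub
    obtain ⟨π, hπ, hle⟩ := (Ideal.subset_union_prime (s := T) (f := fun π => Ideal.span {π}) 0 0
      (fun π hπ _ _ => (Ideal.span_singleton_prime (hprime π hπ).ne_zero).2 (hprime π hπ))).1 hsub
    exact h1 π (Or.inr (hprime π hπ)) hle
  obtain ⟨β, hβ, hβ'⟩ := Set.not_subset.1 h2
  refine ⟨_, hα, _, hβ, α, β, hα0, ?_, rfl, rfl⟩
  refine (UniqueFactorizationMonoid.isRelPrime_iff_no_prime_factors hα0).2 fun d hd hd' hp => ?_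
  obtain ⟨π, hπ, hass⟩ := UniqueFactorizationMonoid.exists_mem_factors_of_dvd hα0
    hp.irreducible hd
  exact hβ' (Set.mem_biUnion (Finset.mem_coe.2 (Multiset.mem_toFinset.2 hπ))
    (Ideal.mem_span_singleton.2 (hass.symm.dvd.trans hd')))

lemma Base.val [IsNoetherianRing R] [IsIntegrallyClosed R] (hB : Base S) {P : Ideal R}
    (hP : P ∈ VV A R) (a b : R) : (∃ t ∉ P, a ∣ t * b) ∨ (∃ t ∉ P, b ∣ t * a) := by
  have hp := hP.1
  let L := Localization.AtPrime P
  have hle : P.primeCompl ≤ nonZeroDivisors R := P.primeCompl_le_nonZeroDivisors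
  have : IsIntegrallyClosed L := isIntegrallyClosed_of_isLocalization L P.primeCompl hle
  have hval : ValuationRing L := by
    suffices IsIntegrallyClosed L ∧ ∀ Q : Ideal L, Q ≠ ⊥ → Q.IsPrime → Q = maximalIdeal L from
      ((tfae_of_isNoetherianRing_of_isLocalRing_of_isDomain L).out 3 1).1 this
    refine ⟨this, fun Q hQ0 hQ => ?_⟩
    have h1 : Q.comap (algebraMap R L) ≤ P := by
      exact (Ideal.comap_mono (le_maximalIdeal hQ.ne_top)).trans
        (Localization.AtPrime.under_maximalIdeal (I := P)).le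
    have h2 : Q.comap (algebraMap R L) ≠ ⊥ := by
      intro h
      apply hQ0
      rw [← IsLocalization.map_under P.primeCompl L Q, Ideal.under_def, h, Ideal.map_bot]
    have h3 := hB.incomp (Ideal.comap_isPrime _ Q) hP h2 h1
    rw [← IsLocalization.map_under P.primeCompl L Q, Ideal.under_def, h3,
      Localization.AtPrime.map_eq_maximalIdeal]
  have key : ∀ a b : R, algebraMap R L a ∣ algebraMap R L b → ∃ t ∉ P, a ∣ t * b := by
    rintro a b ⟨c, hc⟩
    obtain ⟨⟨r, t⟩, hrt⟩ := IsLocalization.surj P.primeCompl c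
    refine ⟨t, t.2, r, IsLocalization.injective L hle ?_⟩
    simp only at hrt
    rw [map_mul, map_mul, hc, ← hrt]
    ring
  exact (ValuationRing.dvd_total (algebraMap R L a) (algebraMap R L b)).imp (key a b) (key b a)

lemma Base.ctx [IsNoetherianRing R] [ExpChar R p] (hB : Base S) (h : SFR p R) :
    Ctx R (VV A R) (GG A) where
  prime P hP := hP.1
  bot_mem := ⟨Ideal.isPrime_bot, 0, Or.inl rfl, fun a ha => by
    rw [Ideal.mem_bot, map_eq_zero_iff _ hB.inj] at ha
    rw [ha]⟩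
  val P hP := have := h.isIntegrallyClosed; hB.val hP
  fin r hr := by
    refine (Ideal.finite_minimalPrimes_of_isNoetherianRing R (Ideal.span {r})).subset ?_
    rintro P ⟨hP, hrP⟩
    refine ⟨⟨hP.1, (Ideal.span_singleton_le_iff_mem _).2 hrP⟩, fun Q hQ hQP => ?_⟩
    refine (hB.incomp hQ.1 hP ?_ hQP).ge
    rintro rfl
    exact hr (by simpa using hQ.2)
  incomp P hP Q hQ h0 hPQ := hB.incomp hP.1 hQ h0 hPQ
  big := VV_big
  ne := by
    rintro _ _ ⟨a, b, ha, -, rfl, rfl⟩
    exact (map_ne_zero_iff _ hB.inj).2 ha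
  h2 x y hxy := hB.h2 h hxy
  pow := by
    rintro _ _ n ⟨a, b, ha, hab, rfl, rfl⟩
    exact ⟨a ^ n, b ^ n, pow_ne_zero _ ha, hab.pow, by simp, by simp⟩
  notMem := by
    rintro _ _ ⟨a, b, ha, hab, rfl, rfl⟩ P ⟨-, π, hπ, hP⟩
    by_contra! hc
    have hu := hab (hP a hc.1) (hP b hc.2)
    rcases hπ with rfl | hπ
    · exact not_isUnit_zero hu
    · exact hπ.not_isUnit hu

end Pool.Agent.Lib.MP_5022ed_ag
end

-- part Pool.Agent.Lib.MP_5022ed_ag.Hom
section

/-!
The maps from the Frobenius pushforwards to the ring are described by symbolic powers.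
-/

set_option autoImplicit false

namespace Pool.Agent.Lib.MP_5022ed_ag

open Module IsLocalRing

section field

variable {K : Type*} [Field K] {p : ℕ}

/-- Iterates of an additive map. -/
def TI (T : K →+ K) : ℕ → (K →+ K)
  | 0 => AddMonoidHom.id K
  | e + 1 => T.comp (TI T e)

lemma TI_succ (T : K →+ K) (e : ℕ) (u : K) : TI T (e + 1) u = T (TI T e u) := rfl

variable {T : K →+ K}

lemma TI_mul (hT : ∀ c u, T (c ^ p * u) = c * T u) (e : ℕ) :
    ∀ c u, TI T e (c ^ p ^ e * u) = c * TI T e u := by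
  induction e with
  | zero => intro c u; simp [TI]
  | succ e ih =>
    intro c u
    rw [TI_succ, TI_succ, pow_succ', pow_mul, ih, hT]

lemma TI_surj (hT : ∀ c u, T (c ^ p * u) = c * T u) (h0 : ∃ u, T u ≠ 0) (e : ℕ) :
    Function.Surjective (TI T e) := by
  induction e with
  | zero => exact Function.surjective_id
  | succ e ih =>
    obtain ⟨u, hu⟩ := h0
    have : Function.Surjective T := fun c => ⟨(c * (T u)⁻¹) ^ p * u, by rw [hT]; field_simp⟩
    exact this.comp ih

variable [ExpChar K p]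

lemma TI_rep (hT : ∀ c u, T (c ^ p * u) = c * T u) (h0 : ∃ u, T u ≠ 0) (e : ℕ)
    [Module.Finite K (Fr p e K)] (φ : Fr p e K →ₗ[K] K) :
    ∃ w : K, ∀ u, φ (Fr.mk p e u) = TI T e (w * u) := by
  let G : Fr p e K →ₗ[K] Module.Dual K (Fr p e K) :=
    LinearMap.mk₂ K (fun w u => TI T e ((Fr.mk p e).symm w * (Fr.mk p e).symm u))
      (fun a b c => by rw [map_add, add_mul, map_add])
      (fun c a b => by rw [Fr.symm_smul, smul_eq_mul, mul_assoc, TI_mul hT, smul_eq_mul])
      (fun a b c => by rw [map_add, mul_add, map_add])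
      (fun c a b => by rw [Fr.symm_smul, smul_eq_mul, mul_left_comm, TI_mul hT, smul_eq_mul])
  have hG : Function.Injective G := by
    rw [injective_iff_map_eq_zero]
    intro w hw
    obtain ⟨w, rfl⟩ := (Fr.mk p e).surjective w
    by_contra hne
    have hw0 : w ≠ 0 := fun h => hne (by rw [h, map_zero])
    obtain ⟨u, hu⟩ := TI_surj hT h0 e 1
    have : TI T e (w * (w⁻¹ * u)) = 0 := LinearMap.congr_fun hw (Fr.mk p e (w⁻¹ * u))
    rw [mul_inv_cancel_left₀ hw0, hu] at this
    exact one_ne_zero this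
  obtain ⟨w, hw⟩ := (LinearMap.injective_iff_surjective_of_finrank_eq_finrank
    Subspace.dual_finrank_eq.symm).1 hG φ
  exact ⟨(Fr.mk p e).symm w, fun u => by rw [← hw]; rfl⟩

lemma exists_T : ∃ T : K →+ K, (∀ c u, T (c ^ p * u) = c * T u) ∧ ∃ u, T u ≠ 0 := by
  obtain ⟨φ, hφ⟩ := Module.Projective.exists_dual_eq_one K (x := Fr.mk p 1 (1 : K))
    (by simp)
  refine ⟨φ.toAddMonoidHom.comp (Fr.mk p 1).toAddMonoidHom, fun c u => ?_, 1, ?_⟩
  · change φ (Fr.mk p 1 _) = c * φ (Fr.mk p 1 u)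
    rw [← smul_eq_mul c, ← map_smul, Fr.smul_mk, pow_one, smul_eq_mul]
  · change φ (Fr.mk p 1 1) ≠ 0
    rw [hφ]
    exact one_ne_zero

end field

variable {R : Type*} [CommRing R] {V : Set (Ideal R)} {Good : R → R → Prop}
variable (K : Type*) [Field K] [Algebra R K]

/-- The localisation at `P` inside the fraction field. -/
def Loc {P : Ideal R} (hP : P.IsPrime) : Subalgebra R K where
  carrier := {u | ∃ t ∉ P, ∃ r : R, algebraMap R K t * u = algebraMap R K r}
  mul_mem' := by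
    rintro a b ⟨t, ht, r, hr⟩ ⟨t', ht', r', hr'⟩
    refine ⟨t * t', mul_notMem hP ht ht', r * r', ?_⟩
    rw [map_mul, map_mul, ← hr, ← hr']; ring
  add_mem' := by
    rintro a b ⟨t, ht, r, hr⟩ ⟨t', ht', r', hr'⟩
    refine ⟨t * t', mul_notMem hP ht ht', t' * r + t * r', ?_⟩
    rw [map_add, map_mul, map_mul, map_mul, ← hr, ← hr']; ring
  algebraMap_mem' r := ⟨1, one_notMem hP, r, by simp⟩

variable {K}

lemma Loc.of_mul {P : Ideal R} (hP : P.IsPrime) {t : R} (ht : t ∉ P) {u : K}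
    (h : algebraMap R K t * u ∈ Loc K hP) : u ∈ Loc K hP := by
  obtain ⟨t', ht', r, hr⟩ := h
  exact ⟨t' * t, mul_notMem hP ht' ht, r, by rw [← hr, map_mul, mul_assoc]⟩

/-- The symbolic powers attached to local generators. -/
def aa (hV : ∀ P ∈ V, P.IsPrime) (γ : Ideal R → R) (n : ℕ) : Ideal R where
  carrier := {s | ∀ P ∈ V, ∃ t ∉ P, γ P ^ n ∣ t * s}
  add_mem' := by
    intro a b ha hb P hP
    obtain ⟨t, ht, h⟩ := ha P hP
    obtain ⟨t', ht', h'⟩ := hb P hP
    refine ⟨t * t', mul_notMem (hV P hP) ht ht', ?_⟩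
    have : t * t' * (a + b) = t' * (t * a) + t * (t' * b) := by ring
    rw [this]
    exact dvd_add (h.mul_left _) (h'.mul_left _)
  zero_mem' P hP := ⟨1, one_notMem (hV P hP), by simp⟩
  smul_mem' := by
    intro c a ha P hP
    obtain ⟨t, ht, h⟩ := ha P hP
    refine ⟨t, ht, ?_⟩
    rw [smul_eq_mul, mul_left_comm]
    exact h.mul_left _

lemma mem_aa {hV : ∀ P ∈ V, P.IsPrime} {γ : Ideal R → R} {n : ℕ} {s : R} :
    s ∈ aa hV γ n ↔ ∀ P ∈ V, ∃ t ∉ P, γ P ^ n ∣ t * s := Iff.rfl

lemma aa_mul {hV : ∀ P ∈ V, P.IsPrime} {γ : Ideal R → R} {m n : ℕ} {a b : R}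
    (ha : a ∈ aa hV γ m) (hb : b ∈ aa hV γ n) : a * b ∈ aa hV γ (m + n) := by
  intro P hP
  obtain ⟨t, ht, h⟩ := ha P hP
  obtain ⟨t', ht', h'⟩ := hb P hP
  refine ⟨t * t', mul_notMem (hV P hP) ht ht', ?_⟩
  rw [pow_add, mul_mul_mul_comm]
  exact mul_dvd_mul h h'

lemma aa_zero {hV : ∀ P ∈ V, P.IsPrime} {γ : Ideal R → R} (a : R) : a ∈ aa hV γ 0 :=
  fun P hP => ⟨1, one_notMem (hV P hP), by simp⟩

lemma aa_pow {hV : ∀ P ∈ V, P.IsPrime} {γ : Ideal R → R} {m : ℕ} {a : R}
    (ha : a ∈ aa hV γ m) (n : ℕ) : a ^ n ∈ aa hV γ (m * n) := by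
  induction n with
  | zero => exact aa_zero _
  | succ n ih => rw [pow_succ, mul_add, mul_one]; exact aa_mul ih ha

variable {p : ℕ} [ExpChar R p]

lemma Fr.apply_pow_mul {e : ℕ} (ψ : Fr p e R →ₗ[R] R) (c a : R) :
    ψ (Fr.mk p e (c ^ p ^ e * a)) = c * ψ (Fr.mk p e a) :=
  ψ.map_smul c (Fr.mk p e a)

lemma aa_map {hV : ∀ P ∈ V, P.IsPrime} {γ : Ideal R → R} {n e : ℕ} (ψ : Fr p e R →ₗ[R] R) {a : R}
    (ha : a ∈ aa hV γ (n * p ^ e)) : ψ (Fr.mk p e a) ∈ aa hV γ n := by
  intro P hP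
  obtain ⟨t, ht, r, hr⟩ := ha P hP
  refine ⟨t, ht, ψ (Fr.mk p e (t ^ (p ^ e - 1) * r)), ?_⟩
  have h1 : p ^ e - 1 + 1 = p ^ e := Nat.sub_add_cancel (expChar_pow_pos R p e)
  rw [← Fr.apply_pow_mul, ← Fr.apply_pow_mul, ← pow_mul, mul_left_comm, ← hr, ← mul_assoc,
    ← pow_succ, h1]

variable [IsDomain R]

omit [ExpChar R p] in
lemma Ctx.aa_h2 (h : Ctx R V Good) {γ : Ideal R → R} {n : ℕ} {x y a b : R} (hxy : Good x y)
    (ha : a ∈ aa h.prime γ n) (hb : b ∈ aa h.prime γ n) (hab : y * a = x * b) :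
    ∃ c ∈ aa h.prime γ n, a = x * c := by
  obtain ⟨c, rfl⟩ := h.h2 x y hxy a b hab
  obtain rfl : y * c = b := mul_left_cancel₀ (h.ne x y hxy) (by rw [← hab]; ring)
  refine ⟨c, fun P hP => ?_, rfl⟩
  rcases h.notMem x y hxy P hP with h1 | h1
  · obtain ⟨t, ht, hd⟩ := ha P hP
    exact ⟨t * x, mul_notMem (h.prime P hP) ht h1, by rwa [mul_assoc]⟩
  · obtain ⟨t, ht, hd⟩ := hb P hP
    exact ⟨t * y, mul_notMem (h.prime P hP) ht h1, by rwa [mul_assoc]⟩

variable [IsFractionRing R K] [ExpChar K p] {T : K →+ K}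

lemma TI_rep' (hT : ∀ c u, T (c ^ p * u) = c * T u) (h0 : ∃ u, T u ≠ 0) (e : ℕ)
    [Module.Finite R (Fr p e R)] (φ : Fr p e R →ₗ[R] R) :
    ∃ w : K, ∀ r, algebraMap R K (φ (Fr.mk p e r)) = TI T e (w * algebraMap R K r) := by
  have := Fr.isLocalizedModule p e R K
  have : Module.Finite K (Fr p e K) := Module.Finite.of_isLocalizedModule (nonZeroDivisors R)
    (Rₚ := K) (Fr.map p e (Algebra.linearMap R K))
  obtain ⟨w, hw⟩ := TI_rep hT h0 e (IsLocalizedModule.mapExtendScalars (nonZeroDivisors R)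
    (Fr.map p e (Algebra.linearMap R K)) (Algebra.linearMap R K) K φ)
  refine ⟨w, fun r => ?_⟩
  rw [← hw, IsLocalizedModule.mapExtendScalars_apply_apply]
  exact (IsLocalizedModule.map_apply (nonZeroDivisors R)
    (Fr.map p e (Algebra.linearMap R K)) (Algebra.linearMap R K) φ (Fr.mk p e r)).symm

omit [IsDomain R] [ExpChar K p] in
lemma TI_hom (hT : ∀ c u, T (c ^ p * u) = c * T u) (e : ℕ) (w : K)
    (hw : ∀ r, ∃ s, algebraMap R K s = TI T e (w * algebraMap R K r)) :
    ∃ φ : Fr p e R →ₗ[R] R,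
      ∀ r, algebraMap R K (φ (Fr.mk p e r)) = TI T e (w * algebraMap R K r) := by
  choose f hf using hw
  refine ⟨{ toFun := fun r => f ((Fr.mk p e).symm r), map_add' := fun a b => ?_,
            map_smul' := fun c a => ?_ }, fun r => hf r⟩
  · apply IsFractionRing.injective R K
    rw [map_add, map_add, hf, hf, hf, map_add, mul_add, map_add]
  · apply IsFractionRing.injective R K
    rw [Fr.symm_smul, hf, RingHom.id_apply, smul_eq_mul, smul_eq_mul, map_mul (algebraMap R K),
      map_mul (algebraMap R K), hf, map_pow, mul_left_comm, TI_mul hT]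

omit [ExpChar R p] in
lemma T_nondeg (hT : ∀ c u, T (c ^ p * u) = c * T u) (h0 : ∃ u, T u ≠ 0) {w : K}
    (hw : ∀ r, T (w * algebraMap R K r) = 0) : w = 0 := by
  by_contra hne
  obtain ⟨u, hu⟩ := h0
  obtain ⟨⟨a, b⟩, hab⟩ := IsLocalization.surj (nonZeroDivisors R) (w⁻¹ * u)
  have hb : algebraMap R K b ≠ 0 := IsFractionRing.to_map_ne_zero_of_mem_nonZeroDivisors b.2
  have h1 : p - 1 + 1 = p := Nat.sub_add_cancel (expChar_pos K p)
  have h2 := hw (a * b ^ (p - 1))
  simp only at hab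
  have h3 : w * algebraMap R K (a * b ^ (p - 1)) = algebraMap R K b ^ p * u := by
    rw [map_mul, map_pow, ← hab]
    conv_rhs => rw [← h1, pow_succ]
    field_simp
  rw [h3, hT] at h2
  exact mul_ne_zero hb hu h2

variable (K) in
lemma exists_normalized [IsNoetherianRing R] [Module.Finite R (Fr p 1 R)] :
    ∃ T : K →+ K, (∀ c u, T (c ^ p * u) = c * T u) ∧ (∃ u, T u ≠ 0) ∧ ∃ (n : ℕ) (w : Fin n → R),
      (∀ i r, ∃ s, algebraMap R K s = T (algebraMap R K (w i) * algebraMap R K r)) ∧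
      ∀ u : K, (∀ r, ∃ s, algebraMap R K s = T (u * algebraMap R K r)) →
        ∃ c : Fin n → R, u = algebraMap R K (∑ i, c i * w i) := by
  obtain ⟨T, hT, h0⟩ := exists_T (K := K) (p := p)
  obtain ⟨n, f, hf⟩ := Module.Finite.exists_fin (R := R) (M := Fr p 1 R →ₗ[R] R)
  choose w hw using fun i => TI_rep' hT h0 1 (f i)
  obtain ⟨b, hb⟩ := IsLocalization.exist_integer_multiples_of_finite (nonZeroDivisors R) w
  choose w' hw' using hb
  have hb0 : algebraMap R K b ≠ 0 := IsFractionRing.to_map_ne_zero_of_mem_nonZeroDivisors b.2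
  refine ⟨T.comp (AddMonoidHom.mulLeft (algebraMap R K b)⁻¹), fun c u => ?_, ?_, n, w',
    fun i r => ⟨f i (Fr.mk p 1 r), ?_⟩, fun u hu => ?_⟩
  · simp only [AddMonoidHom.comp_apply, AddMonoidHom.coe_mulLeft]
    rw [mul_left_comm, hT]
  · obtain ⟨u, hu⟩ := h0
    exact ⟨algebraMap R K b * u, by simpa [hb0] using hu⟩
  · simp only [AddMonoidHom.comp_apply, AddMonoidHom.coe_mulLeft]
    rw [hw, hw', Algebra.smul_def, mul_assoc, inv_mul_cancel_left₀ hb0]
    rfl
  · simp only [AddMonoidHom.comp_apply, AddMonoidHom.coe_mulLeft, ← mul_assoc] at hu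
    obtain ⟨φ, hφ⟩ := TI_hom hT 1 _ hu
    obtain ⟨c, hc⟩ := (Submodule.mem_span_range_iff_exists_fun R).1
      (hf ▸ Submodule.mem_top : φ ∈ _)
    refine ⟨fun i => c i ^ p, ?_⟩
    have h1 : (algebraMap R K b)⁻¹ * u - ∑ i, algebraMap R K (c i) ^ p * w i = 0 := by
      refine T_nondeg (R := R) hT h0 fun r => ?_
      rw [sub_mul, map_sub, Finset.sum_mul, map_sum, sub_eq_zero]
      refine (hφ r).symm.trans ?_
      rw [← hc, LinearMap.sum_apply, map_sum]
      refine Finset.sum_congr rfl fun i _ => ?_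
      rw [LinearMap.smul_apply, smul_eq_mul, map_mul, hw, mul_assoc, hT]
      rfl
    rw [sub_eq_zero, inv_mul_eq_iff_eq_mul₀ hb0] at h1
    rw [h1, map_sum, Finset.mul_sum]
    refine Finset.sum_congr rfl fun i _ => ?_
    rw [map_mul, map_pow, hw', Algebra.smul_def, mul_left_comm]

/-- The exponents `1 + p + ... + p ^ (e - 1)`. -/
def nn (p : ℕ) : ℕ → ℕ
  | 0 => 0
  | e + 1 => nn p e + p ^ e

lemma nn_le (hp : 2 ≤ p) (e : ℕ) : nn p e ≤ p ^ e := by
  induction e with
  | zero => simp [nn]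
  | succ e ih =>
    rw [nn, pow_succ]
    nlinarith [Nat.zero_le (p ^ e)]

omit [ExpChar R p] [IsDomain R] [IsFractionRing R K] [ExpChar K p] in
lemma loc_iter (hT : ∀ c u, T (c ^ p * u) = c * T u) {P : Ideal R} (hP : P.IsPrime) {g : K}
    (h1 : ∀ u : K, (∀ r, T (u * algebraMap R K r) ∈ Loc K hP) ↔ u * g ∈ Loc K hP) (e : ℕ) :
    ∀ u : K, (∀ r, TI T e (u * algebraMap R K r) ∈ Loc K hP) ↔ u * g ^ nn p e ∈ Loc K hP := by
  induction e with
  | zero =>
    intro u
    simp only [TI, nn, AddMonoidHom.id_apply, pow_zero, mul_one]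
    exact ⟨fun h => by simpa using h 1, fun h r => mul_mem h (Subalgebra.algebraMap_mem _ r)⟩
  | succ e ih =>
    intro u
    have e1 : u * g ^ nn p (e + 1) = (g ^ p ^ e * u) * g ^ nn p e := by rw [nn]; ring
    rw [e1, ← ih]
    constructor
    · intro h r
      rw [mul_assoc, TI_mul hT, mul_comm, ← h1]
      intro s
      rw [mul_comm, ← TI_mul hT, ← TI_succ, mul_left_comm, ← map_pow, ← map_mul]
      exact h _
    · intro h r
      have := h r
      rw [mul_assoc, TI_mul hT, mul_comm, ← h1] at this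
      simpa [TI_succ] using this 1

lemma Ctx.exists_gamma (h : Ctx R V Good) [Module.Finite R (Fr p 1 R)]
    (hT : ∀ c u, T (c ^ p * u) = c * T u) {n : ℕ} (w : Fin n → R)
    (hw : ∀ i r, ∃ s, algebraMap R K s = T (algebraMap R K (w i) * algebraMap R K r))
    (hw' : ∀ u : K, (∀ r, ∃ s, algebraMap R K s = T (u * algebraMap R K r)) →
        ∃ c : Fin n → R, u = algebraMap R K (∑ i, c i * w i)) :
    ∃ γ : Ideal R → R, (∃ z ∈ aa h.prime γ 1, z ≠ 0) ∧ ∀ P (hP : P ∈ V), γ P ≠ 0 ∧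
      ∀ u : K, (∀ r, T (u * algebraMap R K r) ∈ Loc K (h.prime P hP)) ↔
        u * (algebraMap R K (γ P))⁻¹ ∈ Loc K (h.prime P hP) := by
  classical
  have hp1 : p - 1 + 1 = p := Nat.sub_add_cancel (expChar_pos K p)
  obtain ⟨N, v, hv⟩ := Module.Finite.exists_fin (R := R) (M := Fr p 1 R)
  have hgen : ∀ u : K, (∀ j, ∃ s, algebraMap R K s = T (u * algebraMap R K ((Fr.mk p 1).symm (v j))))
      → ∀ r, ∃ s, algebraMap R K s = T (u * algebraMap R K r) := by
    intro u hu r
    obtain ⟨c, hc⟩ := (Submodule.mem_span_range_iff_exists_fun R).1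
      (hv ▸ Submodule.mem_top : Fr.mk p 1 r ∈ _)
    choose s hs using hu
    have h1 : r = ∑ j, c j ^ p * (Fr.mk p 1).symm (v j) := by
      apply (Fr.mk p 1).injective
      rw [← hc, map_sum]
      refine Finset.sum_congr rfl fun j _ => ?_
      conv_rhs => rw [← pow_one p]
      rfl
    refine ⟨∑ j, c j * s j, ?_⟩
    rw [h1, map_sum, map_sum, Finset.mul_sum, map_sum]
    refine Finset.sum_congr rfl fun j _ => ?_
    rw [map_mul (algebraMap R K), map_mul (algebraMap R K), map_pow, mul_left_comm, hT, hs]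
  have hex : ∃ i, w i ≠ 0 := by
    obtain ⟨b, hb⟩ := IsLocalization.exist_integer_multiples_of_finite (nonZeroDivisors R)
      fun j => T (algebraMap R K ((Fr.mk p 1).symm (v j)))
    have hb0 : algebraMap R K b ≠ 0 := IsFractionRing.to_map_ne_zero_of_mem_nonZeroDivisors b.2
    obtain ⟨c, hc⟩ := hw' (algebraMap R K b ^ p) (hgen _ fun j => by
      obtain ⟨s, hs⟩ := hb j
      exact ⟨s, by rw [hT, hs, Algebra.smul_def]⟩)
    by_contra! h0
    simp [h0, hb0] at hc
  obtain ⟨i₀, hi₀⟩ := hex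
  have : Nonempty (Fin n) := ⟨i₀⟩
  choose a ha using fun P (hP : P ∈ V) => h.exists_min hP fun i => algebraMap R K (w i)
  have hinj := IsFractionRing.injective R K
  refine ⟨fun P => if hP : P ∈ V then w (a P hP) else 0, ⟨w i₀, fun P hP => ?_, hi₀⟩,
    fun P hP => ?_⟩
  · obtain ⟨t, ht, r, hr⟩ := ha P hP i₀
    refine ⟨t, ht, r, hinj ?_⟩
    simp only [dif_pos hP]
    rw [pow_one, map_mul, map_mul, hr, mul_comm]
  simp only [dif_pos hP]
  have hg : w (a P hP) ≠ 0 := by
    intro h0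
    obtain ⟨t, ht, r, hr⟩ := ha P hP i₀
    rw [h0, map_zero, mul_zero, ← map_mul, map_eq_zero_iff _ hinj, mul_eq_zero] at hr
    exact hr.elim (fun h1 => ht (h1 ▸ P.zero_mem)) hi₀
  have hg' : algebraMap R K (w (a P hP)) ≠ 0 := (map_ne_zero_iff _ hinj).2 hg
  refine ⟨hg, fun u => ⟨fun hu => ?_, fun hu r => ?_⟩⟩
  · choose t ht s hs using fun j => hu ((Fr.mk p 1).symm (v j))
    obtain ⟨c, hc⟩ := hw' (algebraMap R K (∏ j, t j) ^ p * u) (hgen _ fun j =>
      ⟨(∏ l ∈ Finset.univ.erase j, t l) * s j, by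
        rw [mul_assoc, hT, map_mul, ← hs, ← Finset.mul_prod_erase _ _ (Finset.mem_univ j),
          map_mul (algebraMap R K)]
        ring⟩)
    refine Loc.of_mul _ (pow_notMem (h.prime P hP) (prod_notMem (h.prime P hP) ht) p) ?_
    rw [← mul_assoc, map_pow, hc, map_sum, Finset.sum_mul]
    refine sum_mem fun i _ => ?_
    rw [map_mul, mul_assoc]
    refine mul_mem (Subalgebra.algebraMap_mem _ _) ?_
    obtain ⟨t', ht', r, hr⟩ := ha P hP i
    exact ⟨t', ht', r, by rw [← mul_assoc, hr, mul_inv_cancel_right₀ hg']⟩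
  · obtain ⟨t, ht, s, hs⟩ := hu
    obtain ⟨s', hs'⟩ := hw (a P hP) (s * t ^ (p - 1) * r)
    refine ⟨t, ht, s', ?_⟩
    rw [hs', ← hT, map_mul (algebraMap R K), map_mul (algebraMap R K), ← hs, map_pow]
    congr 1
    conv_lhs => rw [← hp1, pow_succ]
    field_simp

variable (K) in
include K in
theorem Ctx.hom_data [IsLocalRing R] [IsNoetherianRing R] (h : Ctx R V Good) (hp : 2 ≤ p)
    (hfin : ∀ e, Module.Finite R (Fr p e R)) :
    ∃ γ : Ideal R → R, (∃ z ∈ aa h.prime γ 1, z ≠ 0) ∧ ∀ e, ∃ n ≤ p ^ e,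
      ∀ (D : ℕ) (z : Fin D → R), (∀ i, z i ∈ aa h.prime γ n) → ∀ x y : R,
        (∀ w ∈ aa h.prime γ n, ∃ c : Fin D → R, ∃ w₁ ∈ aa h.prime γ n, ∃ w₂ ∈ aa h.prime γ n,
          w = ∑ i, c i ^ p ^ e * z i + x * w₁ + y * w₂) → fb p e R x y ≤ D := by
  have := hfin 1
  obtain ⟨T, hT, h0, n, w, hw, hw'⟩ := exists_normalized K (R := R) (p := p)
  obtain ⟨γ, hz, hγ⟩ := h.exists_gamma hT w hw hw'
  have hinj := IsFractionRing.injective R K
  refine ⟨γ, hz, fun e => ⟨nn p e, nn_le hp e, fun D z hz x y hxy => ?_⟩⟩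
  have := hfin e
  have hR1 : ∀ φ : Fr p e R →ₗ[R] R, ∃ w ∈ aa h.prime γ (nn p e),
      ∀ r, algebraMap R K (φ (Fr.mk p e r)) = TI T e (algebraMap R K w * algebraMap R K r) := by
    intro φ
    obtain ⟨u, hu⟩ := TI_rep' hT h0 e φ
    have h1 : ∀ P (hP : P ∈ V), u * (algebraMap R K (γ P))⁻¹ ^ nn p e ∈ Loc K (h.prime P hP) :=
      fun P hP => (loc_iter hT _ (hγ P hP).2 e u).1 fun r => by
        rw [← hu]
        exact Subalgebra.algebraMap_mem _ _
    have h2 : ∀ P (hP : P ∈ V), algebraMap R K (γ P) ^ nn p e ≠ 0 := fun P hP =>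
      pow_ne_zero _ ((map_ne_zero_iff _ hinj).2 (hγ P hP).1)
    obtain ⟨w, rfl⟩ := h.mem_range u fun P hP => by
      have := mul_mem (h1 P hP) (pow_mem (Subalgebra.algebraMap_mem (Loc K (h.prime P hP)) (γ P))
        (nn p e))
      rwa [inv_pow, inv_mul_cancel_right₀ (h2 P hP)] at this
    refine ⟨w, fun P hP => ?_, hu⟩
    obtain ⟨t, ht, r, hr⟩ := h1 P hP
    refine ⟨t, ht, r, hinj ?_⟩
    rw [map_mul, map_mul, ← hr, map_pow, inv_pow]
    have := h2 P hP
    field_simp
  have hR2 : ∀ w ∈ aa h.prime γ (nn p e), ∃ φ : Fr p e R →ₗ[R] R,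
      ∀ r, algebraMap R K (φ (Fr.mk p e r)) = TI T e (algebraMap R K w * algebraMap R K r) := by
    intro w hw
    refine TI_hom hT e _ fun r => h.mem_range _ fun P hP => ?_
    refine (loc_iter hT _ (hγ P hP).2 e _).2 ?_ r
    obtain ⟨t, ht, s, hs⟩ := hw P hP
    refine ⟨t, ht, s, ?_⟩
    have : algebraMap R K (γ P) ≠ 0 := (map_ne_zero_iff _ hinj).2 (hγ P hP).1
    rw [← mul_assoc, ← map_mul, hs, map_mul, map_pow, inv_pow]
    field_simp
  choose φ hφ using fun i => hR2 (z i) (hz i)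
  rw [← length_pi_residue (R := R) D]
  refine rlen_le_of_map _ _
    ((LinearMap.pi fun i => (maximalIdeal R).mkQ ∘ₗ φ i) ∘ₗ Submodule.subtype _) ?_
  rintro ⟨r, hr₁, hr₂⟩ hr ψ
  obtain ⟨r, rfl⟩ := (Fr.mk p e).surjective r
  obtain ⟨w, hw, hψ⟩ := hR1 ψ
  obtain ⟨c, w₁, hw₁, w₂, hw₂, rfl⟩ := hxy w hw
  obtain ⟨φ₁, hφ₁⟩ := hR2 w₁ hw₁
  obtain ⟨φ₂, hφ₂⟩ := hR2 w₂ hw₂
  have h1 : ψ (Fr.mk p e r) = ∑ i, c i * φ i (Fr.mk p e r) + φ₁ (Fr.mk p e (x * r)) +
      φ₂ (Fr.mk p e (y * r)) := by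
    apply hinj
    rw [hψ]
    simp only [map_add, map_sum, map_mul, map_pow, hφ, hφ₁, hφ₂, add_mul, Finset.sum_mul,
      mul_assoc, TI_mul hT, mul_left_comm (algebraMap R K w₁), mul_left_comm (algebraMap R K w₂)]
  change ψ (Fr.mk p e r) ∈ _
  rw [h1]
  refine add_mem (add_mem (sum_mem fun i _ => Ideal.mul_mem_left _ _ ?_) (hr₁ φ₁)) (hr₂ φ₂)
  exact (Submodule.Quotient.mk_eq_zero _).1 (congrFun hr i)

end Pool.Agent.Lib.MP_5022ed_ag
end
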