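import Mathlib

-- part Pool.Agent.Lib.MP_5022ed_ag.Frk
section

/-!
Free rank of a module over a local ring, measured as a length, and its basic inequalities.
-/

set_option autoImplicit false

namespace Pool.Agent.Lib.MP_5022ed_ag

open IsLocalRing Module

section rlen

variable {R : Type*} [CommRing R] {N : Type*} [AddCommGroup N] [Module R N]

/-- Length of the image of `T` in `N ⧸ S`. -/
noncomputable def rlen (S T : Submodule R N) : ℕ∞ := Module.length R (T.map S.mkQ)

lemma length_quot_le_of_le {S T : Submodule R N} (h : S ≤ T) :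
    Module.length R (N ⧸ T) ≤ Module.length R (N ⧸ S) :=
  Module.length_le_of_surjective (Submodule.factor h) (Submodule.factor_surjective h)

lemma length_quot_eq (S T : Submodule R N) :
    Module.length R (N ⧸ S) = rlen S T + Module.length R (N ⧸ (S ⊔ T)) := by
  refine Module.length_eq_add_of_exact (T.map S.mkQ).subtype (Submodule.factor le_sup_left)
    (Submodule.injective_subtype _) (Submodule.factor_surjective _) ?_
  intro y
  obtain ⟨y, rfl⟩ := S.mkQ_surjective y
  constructor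
  · intro hy
    have hy' : y ∈ S ⊔ T := by
      simpa [Submodule.Quotient.mk_eq_zero] using hy
    obtain ⟨s, hs, t, ht, rfl⟩ := Submodule.mem_sup.1 hy'
    refine ⟨⟨S.mkQ t, Submodule.mem_map_of_mem ht⟩, ?_⟩
    simp [(Submodule.Quotient.mk_eq_zero S).2 hs]
  · rintro ⟨⟨z, t, ht, rfl⟩, hz⟩
    rw [← hz]
    simp only [Submodule.subtype_apply, Submodule.mkQ_apply,
      Submodule.mapQ_apply, LinearMap.id_coe, id_eq, Submodule.Quotient.mk_eq_zero]
    exact Submodule.mem_sup_right ht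

lemma rlen_le_of_map {X : Type*} [AddCommGroup X] [Module R X] (S T : Submodule R N)
    (F : T →ₗ[R] X) (hF : ∀ t : T, F t = 0 → (t : N) ∈ S) : rlen S T ≤ Module.length R X := by
  let G : T →ₗ[R] T.map S.mkQ :=
    LinearMap.codRestrict _ (S.mkQ ∘ₗ T.subtype) fun t => Submodule.mem_map_of_mem t.2
  have hG : Function.Surjective G := by
    rintro ⟨z, t, ht, rfl⟩
    exact ⟨⟨t, ht⟩, rfl⟩
  have hker : LinearMap.ker F ≤ LinearMap.ker G := by
    intro t ht
    apply Subtype.ext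
    simpa [G, Submodule.Quotient.mk_eq_zero] using hF t ht
  have h1 : rlen S T ≤ Module.length R (T ⧸ LinearMap.ker F) := by
    refine Module.length_le_of_surjective ((LinearMap.ker F).liftQ G hker) ?_
    intro z
    obtain ⟨t, rfl⟩ := hG z
    exact ⟨Submodule.Quotient.mk t, rfl⟩
  refine h1.trans ?_
  refine Module.length_le_of_injective ((LinearMap.ker F).liftQ F le_rfl) ?_
  rw [← LinearMap.ker_eq_bot, Submodule.ker_liftQ_eq_bot _ _ _ le_rfl]

lemma rlen_le_of_surj {X : Type*} [AddCommGroup X] [Module R X] (S T : Submodule R N)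
    (j : X →ₗ[R] N) (U : Submodule R X) (hU : ∀ x ∈ U, j x ∈ S)
    (hT : T ≤ LinearMap.range j) : rlen S T ≤ Module.length R (X ⧸ U) := by
  have h1 : rlen S T ≤ rlen S (LinearMap.range j) :=
    Module.length_le_of_injective (Submodule.inclusion (Submodule.map_mono hT))
      (Submodule.inclusion_injective _)
  refine h1.trans ?_
  let G : X →ₗ[R] (LinearMap.range j).map S.mkQ :=
    LinearMap.codRestrict _ (S.mkQ ∘ₗ j) fun t => Submodule.mem_map_of_mem ⟨t, rfl⟩
  have hker : U ≤ LinearMap.ker G := by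
    intro t ht
    apply Subtype.ext
    simpa [G, Submodule.Quotient.mk_eq_zero] using hU t ht
  refine Module.length_le_of_surjective (U.liftQ G hker) ?_
  rintro ⟨z, _, ⟨t, rfl⟩, rfl⟩
  exact ⟨Submodule.Quotient.mk t, rfl⟩

end rlen

variable (R : Type*) [CommRing R] [IsLocalRing R]

/-- Elements sent into the maximal ideal by every linear form. -/
def Z (N : Type*) [AddCommGroup N] [Module R N] : Submodule R N where
  carrier := {n | ∀ φ : N →ₗ[R] R, φ n ∈ maximalIdeal R}
  add_mem' := fun ha hb φ => by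
    rw [map_add]; exact Ideal.add_mem _ (ha φ) (hb φ)
  zero_mem' := fun φ => by simp
  smul_mem' := fun c x hx φ => by
    rw [map_smul]; exact Ideal.mul_mem_left _ _ (hx φ)

/-- The free rank, as a length. -/
noncomputable def frk (N : Type*) [AddCommGroup N] [Module R N] : ℕ∞ :=
  Module.length R (N ⧸ Z R N)

variable {R}
variable {A B C : Type*} [AddCommGroup A] [Module R A] [AddCommGroup B] [Module R B]
  [AddCommGroup C] [Module R C]

lemma mem_Z {a : A} : a ∈ Z R A ↔ ∀ φ : A →ₗ[R] R, φ a ∈ maximalIdeal R := Iff.rfl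

lemma map_mem_Z (f : A →ₗ[R] B) {a : A} (ha : a ∈ Z R A) : f a ∈ Z R B :=
  fun φ => ha (φ ∘ₗ f)

lemma smul_mem_Z {μ : R} (hμ : μ ∈ maximalIdeal R) (a : A) : μ • a ∈ Z R A :=
  fun φ => by rw [map_smul]; exact Ideal.mul_mem_right _ _ hμ

lemma frk_le_of_surjective (f : A →ₗ[R] B) (hf : Function.Surjective f) :
    frk R B ≤ frk R A := by
  refine Module.length_le_of_surjective
    (Submodule.mapQ (Z R A) (Z R B) f fun a ha => map_mem_Z f ha) ?_
  intro y
  obtain ⟨y, rfl⟩ := (Z R B).mkQ_surjective y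
  obtain ⟨x, rfl⟩ := hf y
  exact ⟨Submodule.Quotient.mk x, rfl⟩

lemma frk_equiv (f : A ≃ₗ[R] B) : frk R A = frk R B :=
  le_antisymm (frk_le_of_surjective f.symm.toLinearMap f.symm.surjective)
    (frk_le_of_surjective f.toLinearMap f.surjective)

lemma Z_prod : Z R (A × B) = (Z R A).prod (Z R B) := by
  ext ⟨a, b⟩
  constructor
  · intro h
    exact ⟨map_mem_Z (LinearMap.fst R A B) h, map_mem_Z (LinearMap.snd R A B) h⟩
  · rintro ⟨ha, hb⟩
    have : (a, b) = LinearMap.inl R A B a + LinearMap.inr R A B b := by simp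
    rw [this]
    exact Submodule.add_mem _ (map_mem_Z _ ha) (map_mem_Z _ hb)

lemma frk_prod : frk R (A × B) = frk R A + frk R B := by
  unfold frk
  rw [← Module.length_prod]
  let F : (A × B) →ₗ[R] (A ⧸ Z R A) × (B ⧸ Z R B) := LinearMap.prodMap (Z R A).mkQ (Z R B).mkQ
  have hF : Function.Surjective F :=
    Function.Surjective.prodMap (Z R A).mkQ_surjective (Z R B).mkQ_surjective
  have hk : Z R (A × B) = LinearMap.ker F := by
    rw [Z_prod, LinearMap.ker_prodMap, Submodule.ker_mkQ, Submodule.ker_mkQ]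
  rw [hk]
  exact (F.quotKerEquivOfSurjective hF).length_eq

lemma mem_Z_pi {ι : Type*} [Fintype ι] {a : ι → A} :
    a ∈ Z R (ι → A) ↔ ∀ i, a i ∈ Z R A := by
  classical
  constructor
  · intro h i
    exact map_mem_Z (LinearMap.proj i : (ι → A) →ₗ[R] A) h
  · intro h
    rw [← Finset.univ_sum_single a]
    exact Submodule.sum_mem _ fun i _ =>
      map_mem_Z (LinearMap.single R (fun _ : ι => A) i) (h i)

lemma frk_pi {ι : Type*} [Fintype ι] : frk R (ι → A) = Fintype.card ι * frk R A := by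
  unfold frk
  let F : (ι → A) →ₗ[R] (ι → A ⧸ Z R A) := LinearMap.compLeft (Z R A).mkQ ι
  have hF : Function.Surjective F := by
    intro y
    choose x hx using fun i => (Z R A).mkQ_surjective (y i)
    exact ⟨x, funext hx⟩
  have hk : Z R (ι → A) = LinearMap.ker F := by
    ext a
    rw [mem_Z_pi, LinearMap.mem_ker, funext_iff]
    simp [F, Submodule.Quotient.mk_eq_zero]
  rw [hk, (F.quotKerEquivOfSurjective hF).length_eq, Module.length_pi_of_fintype]
  simp

/-- Elements sent into `Z` by two endomorphisms. -/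
def col (f g : A →ₗ[R] A) : Submodule R A := (Z R A).comap f ⊓ (Z R A).comap g

/-- The defect attached to two endomorphisms. -/
noncomputable def bet (f g : A →ₗ[R] A) : ℕ∞ := rlen (Z R A) (col f g)

/-- The colength attached to two endomorphisms. -/
noncomputable def gam (f g : A →ₗ[R] A) : ℕ∞ :=
  Module.length R (A ⧸ (Z R A ⊔ (LinearMap.range f ⊔ LinearMap.range g)))

lemma superadd (ι : A →ₗ[R] B) (π : B →ₗ[R] C) (hπ : Function.Surjective π)
    (hex : Function.Exact ι π) (f g : A →ₗ[R] A) (σ τ : B →ₗ[R] A)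
    (hσ : σ ∘ₗ ι = f) (hτ : τ ∘ₗ ι = g) :
    frk R A + frk R C ≤ frk R B + bet f g := by
  have h1 : frk R B = rlen (Z R B) (LinearMap.range ι) +
      Module.length R (B ⧸ (Z R B ⊔ LinearMap.range ι)) := length_quot_eq _ _
  have h2 : frk R C ≤ Module.length R (B ⧸ (Z R B ⊔ LinearMap.range ι)) := by
    have hle : Z R B ⊔ LinearMap.range ι ≤ (Z R C).comap π := by
      refine sup_le (fun b hb => map_mem_Z π hb) ?_
      rintro _ ⟨a, rfl⟩
      simp [hex.apply_apply_eq_zero]
    refine Module.length_le_of_surjective (Submodule.mapQ _ _ π hle) ?_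
    intro y
    obtain ⟨y, rfl⟩ := (Z R C).mkQ_surjective y
    obtain ⟨x, rfl⟩ := hπ y
    exact ⟨Submodule.Quotient.mk x, rfl⟩
  have h3 : frk R A = bet f g + Module.length R (A ⧸ (Z R A ⊔ col f g)) := length_quot_eq _ _
  have h4 : Module.length R (A ⧸ (Z R A ⊔ col f g)) ≤ rlen (Z R B) (LinearMap.range ι) := by
    have hle : (Z R B).comap ι ≤ Z R A ⊔ col f g := by
      intro a ha
      refine Submodule.mem_sup_right ⟨?_, ?_⟩
      · rw [← hσ]; exact map_mem_Z σ ha
      · rw [← hτ]; exact map_mem_Z τ ha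
    refine (length_quot_le_of_le hle).trans ?_
    let G : A →ₗ[R] (LinearMap.range ι).map (Z R B).mkQ :=
      LinearMap.codRestrict _ ((Z R B).mkQ ∘ₗ ι) fun t => Submodule.mem_map_of_mem ⟨t, rfl⟩
    have hker : (Z R B).comap ι = LinearMap.ker G := by
      ext t
      simp [G, Submodule.Quotient.mk_eq_zero]
    rw [hker]
    refine Module.length_le_of_injective ((LinearMap.ker G).liftQ G le_rfl) ?_
    rw [← LinearMap.ker_eq_bot, Submodule.ker_liftQ_eq_bot _ _ _ le_rfl]
  rw [h1, h3]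
  calc bet f g + Module.length R (A ⧸ (Z R A ⊔ col f g)) + frk R C
      ≤ bet f g + rlen (Z R B) (LinearMap.range ι) +
        Module.length R (B ⧸ (Z R B ⊔ LinearMap.range ι)) := by gcongr
    _ = _ := by ring

lemma frk_le_add_gam (j : A →ₗ[R] B) (f g : B →ₗ[R] B)
    (hf : LinearMap.range f ≤ LinearMap.range j) (hg : LinearMap.range g ≤ LinearMap.range j) :
    frk R B ≤ frk R A + gam f g := by
  have h1 : frk R B = rlen (Z R B) (LinearMap.range j) +
      Module.length R (B ⧸ (Z R B ⊔ LinearMap.range j)) := length_quot_eq _ _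
  rw [h1]
  gcongr
  · exact rlen_le_of_surj _ _ j _ (fun a ha => map_mem_Z j ha) le_rfl
  · exact length_quot_le_of_le (sup_le_sup_left (sup_le hf hg) _)

lemma bet_le_of_equiv (E : A ≃ₗ[R] B) (f g : A →ₗ[R] A) (f' g' : B →ₗ[R] B)
    (hf : ∀ a, E (f a) = f' (E a)) (hg : ∀ a, E (g a) = g' (E a)) : bet f g ≤ bet f' g' := by
  let G : col f g →ₗ[R] (col f' g').map (Z R B).mkQ :=
    LinearMap.codRestrict _ ((Z R B).mkQ ∘ₗ E.toLinearMap ∘ₗ (col f g).subtype) fun t =>
      Submodule.mem_map_of_mem ⟨by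
        have := map_mem_Z E.toLinearMap t.2.1
        simpa [hf] using this, by
        have := map_mem_Z E.toLinearMap t.2.2
        simpa [hg] using this⟩
  refine rlen_le_of_map _ _ G fun t ht => ?_
  have h1 : E t ∈ Z R B := by
    simpa [G, Subtype.ext_iff, Submodule.Quotient.mk_eq_zero] using ht
  simpa using map_mem_Z E.symm.toLinearMap h1

lemma bet_prod (f g : A →ₗ[R] A) (f' g' : B →ₗ[R] B) :
    bet (f.prodMap f') (g.prodMap g') ≤ bet f g + bet f' g' := by
  unfold bet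
  rw [rlen.eq_1 (Z R A), rlen.eq_1 (Z R B), ← Module.length_prod]
  let G₁ : col (f.prodMap f') (g.prodMap g') →ₗ[R] (col f g).map (Z R A).mkQ :=
    LinearMap.codRestrict _ ((Z R A).mkQ ∘ₗ LinearMap.fst R A B ∘ₗ Submodule.subtype _) fun t =>
      Submodule.mem_map_of_mem ⟨map_mem_Z (LinearMap.fst R A B) t.2.1,
        map_mem_Z (LinearMap.fst R A B) t.2.2⟩
  let G₂ : col (f.prodMap f') (g.prodMap g') →ₗ[R] (col f' g').map (Z R B).mkQ :=
    LinearMap.codRestrict _ ((Z R B).mkQ ∘ₗ LinearMap.snd R A B ∘ₗ Submodule.subtype _) fun t =>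
      Submodule.mem_map_of_mem ⟨map_mem_Z (LinearMap.snd R A B) t.2.1,
        map_mem_Z (LinearMap.snd R A B) t.2.2⟩
  refine rlen_le_of_map _ _ (G₁.prod G₂) fun t ht => ?_
  rw [Z_prod]
  simpa [G₁, G₂, Subtype.ext_iff, Submodule.Quotient.mk_eq_zero, Prod.ext_iff] using ht

lemma bet_pi {ι : Type*} [Fintype ι] (f g : A →ₗ[R] A) :
    bet (f.compLeft ι) (g.compLeft ι) ≤ Fintype.card ι * bet f g := by
  have h : Module.length R (ι → (col f g).map (Z R A).mkQ) = Fintype.card ι * bet f g := by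
    rw [Module.length_pi_of_fintype]; simp [bet, rlen]
  rw [← h]
  let G : ∀ i : ι, col (f.compLeft ι) (g.compLeft ι) →ₗ[R] (col f g).map (Z R A).mkQ := fun i =>
    LinearMap.codRestrict _ ((Z R A).mkQ ∘ₗ (LinearMap.proj i : (ι → A) →ₗ[R] A) ∘ₗ
      Submodule.subtype _) fun t =>
      Submodule.mem_map_of_mem ⟨mem_Z_pi.1 t.2.1 i, mem_Z_pi.1 t.2.2 i⟩
  refine rlen_le_of_map _ _ (LinearMap.pi G) fun t ht => ?_
  rw [mem_Z_pi]
  intro i
  have := congrFun ht i
  simpa [G, Subtype.ext_iff, Submodule.Quotient.mk_eq_zero] using this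

lemma length_residue : Module.length R (R ⧸ maximalIdeal R) = 1 := by
  have : IsSimpleModule R (R ⧸ maximalIdeal R) := by
    rw [isSimpleModule_iff_isCoatom, ← Ideal.isMaximal_def]
    infer_instance
  exact Module.length_eq_one R _

lemma length_pi_residue (D : ℕ) : Module.length R (Fin D → R ⧸ maximalIdeal R) = D := by
  rw [Module.length_pi_of_fintype]; simp [length_residue]

/-- A quotient killed by the maximal ideal and generated by `D` elements has length at most `D`. -/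
lemma length_quot_le_of_span (T : Submodule R A) (hT : Z R A ≤ T) {D : ℕ} (w : Fin D → A)
    (hw : ∀ a : A, ∃ c : Fin D → R, a - ∑ i, c i • w i ∈ T) :
    Module.length R (A ⧸ T) ≤ D := by
  rw [← length_pi_residue (R := R) D]
  let L : ∀ i : Fin D, (R ⧸ maximalIdeal R) →ₗ[R] A ⧸ T := fun i =>
    Submodule.liftQ (maximalIdeal R) (T.mkQ ∘ₗ LinearMap.toSpanSingleton R A (w i)) fun μ hμ => by
      simpa [Submodule.Quotient.mk_eq_zero, ← Submodule.Quotient.mk_smul] using
        hT (smul_mem_Z hμ (w i))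
  refine Module.length_le_of_surjective
    (∑ i, L i ∘ₗ (LinearMap.proj i : (Fin D → R ⧸ maximalIdeal R) →ₗ[R] _)) ?_
  intro y
  obtain ⟨y, rfl⟩ := T.mkQ_surjective y
  obtain ⟨c, hc⟩ := hw y
  refine ⟨fun i => Submodule.Quotient.mk (c i), ?_⟩
  have : T.mkQ y = T.mkQ (∑ i, c i • w i) := (Submodule.Quotient.eq T).2 hc
  rw [this, map_sum, LinearMap.sum_apply]
  refine Finset.sum_congr rfl fun i _ => ?_
  rfl

/-- Systems of linear forms and elements in duality. -/
def Dual (R : Type*) [CommRing R] (A : Type*) [AddCommGroup A] [Module R A] (n : ℕ) : Prop :=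
  ∃ φ : Fin n → (A →ₗ[R] R), ∃ x : Fin n → A, ∀ i j, φ i (x j) = if i = j then 1 else 0

lemma Dual.le_frk {n : ℕ} (h : Dual R A n) : (n : ℕ∞) ≤ frk R A := by
  obtain ⟨φ, x, h⟩ := h
  rw [← length_pi_residue (R := R) n]
  let G : A →ₗ[R] (Fin n → R ⧸ maximalIdeal R) :=
    LinearMap.pi fun i => (maximalIdeal R).mkQ ∘ₗ φ i
  have hker : Z R A ≤ LinearMap.ker G := by
    intro a ha
    ext i
    simpa [G, Submodule.Quotient.mk_eq_zero, Ideal.Quotient.eq_zero_iff_mem] using ha (φ i)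
  refine Module.length_le_of_surjective ((Z R A).liftQ G hker) ?_
  intro y
  choose c hc using fun i => (maximalIdeal R).mkQ_surjective (y i)
  refine ⟨Submodule.Quotient.mk (∑ j, c j • x j), ?_⟩
  ext i
  rw [← hc i]
  change (maximalIdeal R).mkQ (φ i (∑ j, c j • x j)) = _
  congr 1
  simp [h]

lemma isGreatest_dual (h : frk R A ≠ ⊤) :
    IsGreatest {n : ℕ | Dual R A n} (frk R A).toNat := by
  classical
  have hb : ∀ n, Dual R A n → n ≤ (frk R A).toNat := fun n hn => by
    have := hn.le_frk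
    rw [← ENat.natCast_toNat h] at this
    exact_mod_cast this
  have h0 : Dual R A 0 := ⟨Fin.elim0, Fin.elim0, fun i => i.elim0⟩
  set n := Nat.findGreatest (Dual R A) (frk R A).toNat with hn
  have hD : Dual R A n := Nat.findGreatest_spec (Nat.zero_le _) h0
  have hmax : ¬ Dual R A (n + 1) := fun h' =>
    Nat.findGreatest_is_greatest (Nat.lt_succ_self n) (hb _ h') h'
  have hle : frk R A ≤ n := by
    obtain ⟨φ, x, hφ⟩ := hD
    refine length_quot_le_of_span _ le_rfl x fun a => ⟨fun i => φ i a, ?_⟩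
    by_contra hne
    apply hmax
    set a' := a - ∑ i, φ i a • x i with ha'
    obtain ⟨ψ, hψ⟩ : ∃ ψ : A →ₗ[R] R, ψ a' ∉ maximalIdeal R := by
      simpa [mem_Z] using hne
    have hu : IsUnit (ψ a') := by simpa using hψ
    obtain ⟨u, hu⟩ := hu
    have hφa : ∀ i, φ i a' = 0 := fun i => by simp [ha', hφ]
    let ψ' : A →ₗ[R] R := (↑u⁻¹ : R) • (ψ - ∑ i, ψ (x i) • φ i)
    refine ⟨Fin.cons ψ' φ, Fin.cons a' x, fun i j => ?_⟩
    refine Fin.cases ?_ (fun i => ?_) i <;> refine Fin.cases ?_ (fun j => ?_) j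
    · simp [ψ', hφa, ← hu]
    · simp [ψ', hφ, (Fin.succ_ne_zero j).symm]
    · simp [hφa]
    · simp [hφ]
  have hn' : (frk R A).toNat = n := by
    refine le_antisymm ?_ (hb _ hD)
    rw [← ENat.natCast_toNat h] at hle
    exact_mod_cast hle
  exact ⟨hn' ▸ hD, fun m hm => hb m hm⟩

end Pool.Agent.Lib.MP_5022ed_ag
end

-- part Pool.Agent.Lib.MP_5022ed_ag.Fr
section

/-!
Restriction of scalars along the iterated Frobenius.
-/

set_option autoImplicit false

namespace Pool.Agent.Lib.MP_5022ed_ag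

open IsLocalRing Module

/-- A copy of `M` on which `r` acts as `r ^ p ^ e`. -/
def Fr (_p _e : ℕ) (M : Type*) : Type _ := M

namespace Fr

variable {p e : ℕ}

instance {M : Type*} [h : AddCommGroup M] : AddCommGroup (Fr p e M) := h

instance {R M : Type*} [CommRing R] [ExpChar R p] [AddCommGroup M] [Module R M] :
    Module R (Fr p e M) := Module.compHom M (iterateFrobenius R p e)

/-- The identity map to the copy. -/
def mk (p e : ℕ) {M : Type*} [AddCommGroup M] : M ≃+ Fr p e M := AddEquiv.refl M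

variable {R : Type*} [CommRing R] [ExpChar R p]
variable {M N L : Type*} [AddCommGroup M] [Module R M] [AddCommGroup N] [Module R N]
  [AddCommGroup L] [Module R L]

lemma smul_mk (r : R) (m : M) : r • mk p e m = mk p e (r ^ p ^ e • m) := rfl

lemma symm_smul (r : R) (m : Fr p e M) :
    (mk p e).symm (r • m) = r ^ p ^ e • (mk p e).symm m := rfl

variable (p e) in
/-- Functoriality. -/
def map (f : M →ₗ[R] N) : Fr p e M →ₗ[R] Fr p e N where
  toFun m := mk p e (f ((mk p e).symm m))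
  map_add' a b := by simp
  map_smul' r a := by
    rw [symm_smul, map_smul, RingHom.id_apply, smul_mk]

@[simp] lemma map_mk (f : M →ₗ[R] N) (m : M) : map p e f (mk p e m) = mk p e (f m) := rfl

lemma map_comp (f : M →ₗ[R] N) (g : N →ₗ[R] L) :
    map p e g ∘ₗ map p e f = map p e (g ∘ₗ f) := rfl

lemma map_surjective {f : M →ₗ[R] N} (hf : Function.Surjective f) :
    Function.Surjective (map p e f) := hf

lemma map_exact {f : M →ₗ[R] N} {g : N →ₗ[R] L} (h : Function.Exact f g) :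
    Function.Exact (map p e f) (map p e g) := h

variable (p e) in
/-- Functoriality for isomorphisms. -/
def congr (f : M ≃ₗ[R] N) : Fr p e M ≃ₗ[R] Fr p e N :=
  { map p e f.toLinearMap with
    invFun := map p e f.symm.toLinearMap
    left_inv := fun m => f.left_inv m
    right_inv := fun m => f.right_inv m }

variable (p e R M N) in
/-- Compatibility with products. -/
def prodEquiv : Fr p e (M × N) ≃ₗ[R] Fr p e M × Fr p e N where
  toFun m := (mk p e ((mk p e).symm m).1, mk p e ((mk p e).symm m).2)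
  invFun m := mk p e ((mk p e).symm m.1, (mk p e).symm m.2)
  map_add' _ _ := rfl
  map_smul' _ _ := rfl
  left_inv _ := rfl
  right_inv _ := rfl

variable (p e R M) in
/-- Compatibility with powers. -/
def piEquiv (ι : Type*) : Fr p e (ι → M) ≃ₗ[R] (ι → Fr p e M) where
  toFun m i := mk p e ((mk p e).symm m i)
  invFun m := mk p e fun i => (mk p e).symm (m i)
  map_add' _ _ := rfl
  map_smul' _ _ := rfl
  left_inv _ := rfl
  right_inv _ := rfl

variable (p e R M) in
/-- Iteration. -/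
def succEquiv : Fr p e (Fr p 1 M) ≃ₗ[R] Fr p (e + 1) M where
  toFun m := mk p (e + 1) ((mk p 1).symm ((mk p e).symm m))
  invFun m := mk p e (mk p 1 ((mk p (e + 1)).symm m))
  map_add' _ _ := rfl
  map_smul' r m := by
    rw [symm_smul, symm_smul, RingHom.id_apply, smul_mk, ← pow_mul, ← pow_add]
  left_inv _ := rfl
  right_inv _ := rfl

end Fr

variable {p : ℕ} (R : Type*) [CommRing R] [IsLocalRing R] [ExpChar R p]

variable (p) in
/-- The free rank of the `e`-th Frobenius pushforward. -/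
noncomputable def fa (e : ℕ) (M : Type*) [AddCommGroup M] [Module R M] : ℕ∞ :=
  frk R (Fr p e M)

variable {R}

variable (p) in
/-- The defect of the `e`-th Frobenius pushforward with respect to two ring elements. -/
noncomputable def fb (e : ℕ) (M : Type*) [AddCommGroup M] [Module R M] (x y : R) : ℕ∞ :=
  bet (Fr.map p e (LinearMap.lsmul R M x)) (Fr.map p e (LinearMap.lsmul R M y))

variable (p) in
/-- The colength attached to two ring elements. -/
noncomputable def fc (e : ℕ) (x y : R) : ℕ∞ :=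
  gam (Fr.map p e (LinearMap.lsmul R R x)) (Fr.map p e (LinearMap.lsmul R R y))

variable {M N : Type*} [AddCommGroup M] [Module R M] [AddCommGroup N] [Module R N] {e : ℕ}

lemma fa_prod : fa p R e (M × N) = fa p R e M + fa p R e N := by
  unfold fa
  rw [frk_equiv (Fr.prodEquiv p e R M N), frk_prod]

lemma fa_pi {ι : Type*} [Fintype ι] : fa p R e (ι → M) = Fintype.card ι * fa p R e M := by
  unfold fa
  rw [frk_equiv (Fr.piEquiv p e R M ι), frk_pi]

lemma fa_succ : fa p R e (Fr p 1 M) = fa p R (e + 1) M :=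
  frk_equiv (Fr.succEquiv p e R M)

lemma fa_le_of_surjective (f : M →ₗ[R] N) (hf : Function.Surjective f) :
    fa p R e N ≤ fa p R e M :=
  frk_le_of_surjective _ (Fr.map_surjective hf)

lemma fb_prod (x y : R) : fb p e (M × N) x y ≤ fb p e M x y + fb p e N x y :=
  (bet_le_of_equiv (Fr.prodEquiv p e R M N) _ _
    ((Fr.map p e (LinearMap.lsmul R M x)).prodMap (Fr.map p e (LinearMap.lsmul R N x)))
    ((Fr.map p e (LinearMap.lsmul R M y)).prodMap (Fr.map p e (LinearMap.lsmul R N y)))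
    (fun _ => rfl) (fun _ => rfl)).trans (bet_prod _ _ _ _)

lemma fb_pi {ι : Type*} [Fintype ι] (x y : R) :
    fb p e (ι → M) x y ≤ Fintype.card ι * fb p e M x y :=
  (bet_le_of_equiv (Fr.piEquiv p e R M ι) _ _
    ((Fr.map p e (LinearMap.lsmul R M x)).compLeft ι)
    ((Fr.map p e (LinearMap.lsmul R M y)).compLeft ι)
    (fun _ => rfl) (fun _ => rfl)).trans (bet_pi _ _)

lemma fb_succ (x y : R) : fb p e (Fr p 1 M) x y ≤ fb p (e + 1) M (x ^ p) (y ^ p) := by
  refine bet_le_of_equiv (Fr.succEquiv p e R M) _ _ _ _ (fun m => ?_) (fun m => ?_)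
  · change x ^ p ^ 1 • (show M from m) = x ^ p • (show M from m)
    rw [pow_one]
  · change y ^ p ^ 1 • (show M from m) = y ^ p • (show M from m)
    rw [pow_one]

lemma fa_superadd {L : Type*} [AddCommGroup L] [Module R L] (ι : M →ₗ[R] N) (π : N →ₗ[R] L)
    (hπ : Function.Surjective π) (hex : Function.Exact ι π) (x y : R) (σ τ : N →ₗ[R] M)
    (hσ : ∀ m, σ (ι m) = x • m) (hτ : ∀ m, τ (ι m) = y • m) :
    fa p R e M + fa p R e L ≤ fa p R e N + fb p e M x y := by
  refine superadd (Fr.map p e ι) (Fr.map p e π) (Fr.map_surjective hπ) (Fr.map_exact hex) _ _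
    (Fr.map p e σ) (Fr.map p e τ) ?_ ?_
  · rw [Fr.map_comp]; congr 1; ext m; simp [hσ]
  · rw [Fr.map_comp]; congr 1; ext m; simp [hτ]

lemma fa_le_add_fc (I : Ideal R) {x y : R} (hx : x ∈ I) (hy : y ∈ I) :
    fa p R e R ≤ fa p R e I + fc p e x y := by
  refine frk_le_add_gam (Fr.map p e I.subtype) _ _ ?_ ?_
  · rintro _ ⟨r, rfl⟩
    exact ⟨Fr.mk p e ⟨x * (Fr.mk p e).symm r, I.mul_mem_right _ hx⟩, rfl⟩
  · rintro _ ⟨r, rfl⟩
    exact ⟨Fr.mk p e ⟨y * (Fr.mk p e).symm r, I.mul_mem_right _ hy⟩, rfl⟩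

end Pool.Agent.Lib.MP_5022ed_ag
end

-- part Pool.Agent.Lib.MP_5022ed_ag.Bourbaki
section

/-!
An abstract family of height at most one primes and Bourbaki sequences.
-/

set_option autoImplicit false

namespace Pool.Agent.Lib.MP_5022ed_ag

open IsLocalRing Module

/-- The facts about the primes of height at most one that are used. -/
structure Ctx (R : Type*) [CommRing R] (V : Set (Ideal R)) (Good : R → R → Prop) : Prop where
  prime : ∀ P ∈ V, P.IsPrime
  bot_mem : ⊥ ∈ V
  val : ∀ P ∈ V, ∀ a b : R, (∃ t ∉ P, a ∣ t * b) ∨ (∃ t ∉ P, b ∣ t * a)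
  fin : ∀ r : R, r ≠ 0 → {P ∈ V | r ∈ P}.Finite
  incomp : ∀ P ∈ V, ∀ Q ∈ V, P ≠ ⊥ → P ≤ Q → P = Q
  big : ∀ I : Ideal R, (∀ P ∈ V, ¬ I ≤ P) → ∃ x ∈ I, ∃ y ∈ I, Good x y
  ne : ∀ x y, Good x y → x ≠ 0
  h2 : ∀ x y, Good x y → ∀ a b, y * a = x * b → x ∣ a
  pow : ∀ x y n, Good x y → Good (x ^ n) (y ^ n)
  notMem : ∀ x y, Good x y → ∀ P ∈ V, x ∉ P ∨ y ∉ P

variable {R : Type*} [CommRing R] {V : Set (Ideal R)} {Good : R → R → Prop}

lemma Ctx.crt (h : Ctx R V Good) {S T : Set (Ideal R)} (hS : S.Finite) (hT : T.Finite)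
    (hSV : S ⊆ V) (hTV : T ⊆ V) (hS0 : ⊥ ∉ S) (hd : ∀ P ∈ S, P ∉ T) :
    ∃ t : R, (∀ P ∈ S, t ∈ P) ∧ ∀ Q ∈ T, t ∉ Q := by
  classical
  have h1 : ∀ Q ∈ T, ¬ hS.toFinset.inf id ≤ Q := by
    intro Q hQ hle
    obtain ⟨P, hP, hPQ⟩ := (h.prime Q (hTV hQ)).inf_le'.1 hle
    have hP' : P ∈ S := hS.mem_toFinset.1 hP
    have := h.incomp P (hSV hP') Q (hTV hQ) (fun h0 => hS0 (h0 ▸ hP')) hPQ
    exact hd P hP' (this ▸ hQ)
  by_contra hne
  have h2 : ((hS.toFinset.inf id : Ideal R) : Set R) ⊆ ⋃ Q ∈ (hT.toFinset : Set (Ideal R)), Q := by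
    intro t ht
    by_contra ht'
    refine hne ⟨t, fun P hP => ?_, fun Q hQ hmem => ht' ?_⟩
    · exact (Finset.inf_le (f := id) (hS.mem_toFinset.2 hP) : _ ≤ P) ht
    · exact Set.mem_biUnion (by simpa using hQ) hmem
  rcases T.eq_empty_or_nonempty with rfl | ⟨Q₀, hQ₀⟩
  · simpa using h2 (Ideal.zero_mem _)
  obtain ⟨Q, hQ, hle⟩ := (Ideal.subset_union_prime (s := hT.toFinset) (f := id) Q₀ Q₀
    (fun Q hQ _ _ => h.prime Q (hTV (hT.mem_toFinset.1 hQ)))).1 h2
  exact h1 Q (hT.mem_toFinset.1 hQ) hle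

variable {B : Type*} [AddCommGroup B] [Module R B]

lemma Ctx.basic (h : Ctx R V Good) {n : ℕ} (ω : B [⋀^Fin (n + 2)]→ₗ[R] R)
    (hω : ∀ P ∈ V, ∃ m, ω m ∉ P) : ∃ x : B, ∀ P ∈ V, ∃ m, ω.curryLeft x m ∉ P := by
  classical
  obtain ⟨m₀, hm₀⟩ := hω ⊥ h.bot_mem
  have hm₀' : ω m₀ ≠ 0 := by simpa using hm₀
  have hdec : ∀ m : Fin (n + 2) → B, ω m = ω.curryLeft (m 0) (Fin.tail m) := fun m => by
    simp [Matrix.vecCons]
  have hdec2 : ∀ (x : B) (m : Fin (n + 1) → B),
      ω.curryLeft x m = (ω.curryLeft x).curryLeft (m 0) (Fin.tail m) := fun x m => by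
    simp [Matrix.vecCons]
  set x₀ := m₀ 0 with hx₀
  let G : Ideal R → B → Prop := fun P x => ∃ m, ω.curryLeft x m ∉ P
  let G2 : Ideal R → B → Prop := fun P y => ∃ m, (ω.curryLeft x₀).curryLeft y m ∉ P
  have hS₀ : {P ∈ V | ¬ G P x₀}.Finite := by
    refine (h.fin _ hm₀').subset fun P hP => ⟨hP.1, ?_⟩
    by_contra hne
    exact hP.2 ⟨Fin.tail m₀, by rwa [← hdec]⟩
  have hbot : G ⊥ x₀ := ⟨Fin.tail m₀, by rwa [← hdec]⟩
  have hadd : ∀ (P : Ideal R) (a b : B) (t : R), t ∈ P → G P a → G P (a + t • b) := by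
    rintro P a b t ht ⟨m, hm⟩
    refine ⟨m, fun hmem => hm ?_⟩
    rw [map_add, map_smul, AlternatingMap.add_apply, AlternatingMap.smul_apply] at hmem
    exact (Ideal.add_mem_iff_left _ (Ideal.mul_mem_right _ _ ht)).1 hmem
  have hadd' : ∀ P ∈ V, ∀ (a b : B) (t : R), t ∉ P → ¬ G P a → G P b → G P (a + t • b) := by
    rintro P hP a b t ht ha ⟨m, hm⟩
    refine ⟨m, fun hmem => ?_⟩
    rw [map_add, map_smul, AlternatingMap.add_apply, AlternatingMap.smul_apply] at hmem
    have ha' : ω.curryLeft a m ∈ P := by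
      by_contra hne; exact ha ⟨m, hne⟩
    exact ((h.prime P hP).mem_or_mem ((Ideal.add_mem_iff_right _ ha').1 hmem)).elim ht hm
  have hy₁ : ∀ S : Set (Ideal R), S.Finite → S ⊆ V → ⊥ ∉ S → ∃ y, ∀ P ∈ S, G P y := by
    intro S hS
    induction S, hS using Set.Finite.induction_on with
    | empty => exact fun _ _ => ⟨0, by simp⟩
    | @insert P₀ S hP₀ hS ih =>
      intro hV h0
      obtain ⟨y, hy⟩ := ih (fun P hP => hV (Set.mem_insert_of_mem _ hP))
        (fun hb => h0 (Set.mem_insert_of_mem _ hb))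
      have hP₀V : P₀ ∈ V := hV (Set.mem_insert _ _)
      by_cases hG : G P₀ y
      · exact ⟨y, by rintro P (rfl | hP); exacts [hG, hy P hP]⟩
      obtain ⟨m, hm⟩ := hω P₀ hP₀V
      obtain ⟨t, ht, ht'⟩ := h.crt hS (Set.finite_singleton P₀)
        (fun P hP => hV (Set.mem_insert_of_mem _ hP)) (by simpa using hP₀V)
        (fun hb => h0 (Set.mem_insert_of_mem _ hb)) (fun P hP hP' => hP₀ (hP' ▸ hP))
      refine ⟨y + t • m 0, ?_⟩
      rintro P (rfl | hP)
      · exact hadd' P hP₀V _ _ _ (ht' P rfl) hG ⟨Fin.tail m, by rwa [← hdec]⟩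
      · exact hadd P _ _ _ (ht P hP) (hy P hP)
  obtain ⟨y, hy, hy2⟩ : ∃ y, (∀ P ∈ {P ∈ V | ¬ G P x₀}, G P y) ∧ G2 ⊥ y := by
    obtain ⟨y₁, hy₁⟩ := hy₁ _ hS₀ (fun P hP => hP.1) (fun hb => hb.2 hbot)
    by_cases hG : G2 ⊥ y₁
    · exact ⟨y₁, hy₁, hG⟩
    obtain ⟨t, ht, ht'⟩ := h.crt hS₀ (Set.finite_singleton ⊥) (fun P hP => hP.1)
      (by simpa using h.bot_mem) (fun hb => hb.2 hbot) (fun P hP hP' => hP.2 (hP' ▸ hbot))
    refine ⟨y₁ + t • Fin.tail m₀ 0, fun P hP => hadd P _ _ _ (ht P hP) (hy₁ P hP),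
      Fin.tail (Fin.tail m₀), fun hmem => ?_⟩
    rw [map_add, map_smul, AlternatingMap.add_apply, AlternatingMap.smul_apply, ← hdec2,
      ← hdec] at hmem
    have ha' : (ω.curryLeft x₀).curryLeft y₁ (Fin.tail (Fin.tail m₀)) ∈ (⊥ : Ideal R) := by
      by_contra hne; exact hG ⟨_, hne⟩
    exact ((h.prime ⊥ h.bot_mem).mem_or_mem ((Ideal.add_mem_iff_right _ ha').1 hmem)).elim
      (ht' ⊥ rfl) hm₀
  obtain ⟨m₁, hm₁⟩ := hy2
  have hS₁ : {P ∈ V | ¬ G2 P y ∧ G P x₀}.Finite := by
    refine (h.fin _ (by simpa using hm₁)).subset fun P hP => ⟨hP.1, ?_⟩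
    by_contra hne
    exact hP.2.1 ⟨m₁, hne⟩
  obtain ⟨t, ht, ht'⟩ := h.crt hS₁ hS₀ (fun P hP => hP.1) (fun P hP => hP.1)
    (fun hb => hb.2.1 ⟨m₁, hm₁⟩) (fun P hP hP' => hP'.2 hP.2.2)
  refine ⟨x₀ + t • y, fun P hP => ?_⟩
  by_cases h0 : G P x₀
  · by_cases h1 : G2 P y
    · obtain ⟨m, hm⟩ := h1
      refine ⟨Matrix.vecCons y m, fun hmem => hm ?_⟩
      rw [map_add, map_smul, AlternatingMap.add_apply, AlternatingMap.smul_apply] at hmem
      have hz : ω.curryLeft y (Matrix.vecCons y m) = 0 := by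
        exact DFunLike.congr_fun (ω.curryLeft_same y) m
      simpa [hz] using hmem
    · exact hadd P _ _ _ (ht P ⟨hP, h1, h0⟩) h0
  · exact hadd' P hP _ _ _ (ht' P ⟨hP, h0⟩) h0 (hy P ⟨hP, h0⟩)

lemma Ctx.bourbaki (h : Ctx R V Good) (n : ℕ) : ∀ (ω : B [⋀^Fin (n + 1)]→ₗ[R] R),
    (∀ P ∈ V, ∃ m, ω m ∉ P) →
    ∃ m : Fin (n + 1) → B, ∀ P ∈ V, ∃ z, ω (Function.update m (Fin.last n) z) ∉ P := by
  induction n with
  | zero =>
    intro ω hω
    refine ⟨0, fun P hP => ?_⟩
    obtain ⟨m, hm⟩ := hω P hP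
    refine ⟨m 0, ?_⟩
    have : Function.update (0 : Fin (0 + 1) → B) (Fin.last 0) (m 0) = m := by
      ext i
      obtain rfl : i = Fin.last 0 := Subsingleton.elim (α := Fin 1) _ _
      simp
    rwa [this]
  | succ n ih =>
    intro ω hω
    obtain ⟨x, hx⟩ := h.basic ω hω
    obtain ⟨m, hm⟩ := ih (ω.curryLeft x) hx
    refine ⟨Matrix.vecCons x m, fun P hP => ?_⟩
    obtain ⟨z, hz⟩ := hm P hP
    refine ⟨z, ?_⟩
    convert hz using 1
    rw [AlternatingMap.curryLeft_apply_apply, ← Fin.succ_last, Matrix.vecCons, Matrix.vecCons,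
      Fin.cons_update]

variable [IsLocalRing R] [IsDomain R] {p : ℕ} [ExpChar R p]

/-- Lower bound for the free rank of a module with trivial determinant. -/
lemma Ctx.lower (h : Ctx R V Good) (n : ℕ) (ω : B [⋀^Fin (n + 1)]→ₗ[R] R)
    (hω : ∀ P ∈ V, ∃ m, ω m ∉ P) (htf : ∀ (r : R) (b : B), r ≠ 0 → r • b = 0 → b = 0)
    (hcr : ∀ (m : Fin (n + 1) → B) (b : B),
      ω m • b = ∑ i, ω (Function.update m i b) • m i) :
    ∃ x y, Good x y ∧ ∀ e, ((n + 1 : ℕ) : ℕ∞) * fa p R e R ≤
      fa p R e B + n * fb p e R x y + fc p e x y := by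
  classical
  obtain ⟨m, hm⟩ := h.bourbaki n ω hω
  let l : B →ₗ[R] R := ω.toMultilinearMap.toLinearMap m (Fin.last n)
  have hl : ∀ z, l z = ω (Function.update m (Fin.last n) z) := fun z => rfl
  obtain ⟨x, ⟨zx, hx⟩, y, ⟨zy, hy⟩, hxy⟩ := h.big (LinearMap.range l) fun P hP hle => by
    obtain ⟨z, hz⟩ := hm P hP
    exact hz (hle ⟨z, rfl⟩)
  refine ⟨x, y, hxy, fun e => ?_⟩
  let ι : (Fin n → R) →ₗ[R] B := Fintype.linearCombination R fun i => m i.castSucc
  let σ : B → B →ₗ[R] (Fin n → R) := fun z => LinearMap.pi fun i =>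
    ω.toMultilinearMap.toLinearMap (Function.update m (Fin.last n) z) i.castSucc
  have hσa : ∀ z b i, σ z b i =
      ω (Function.update (Function.update m (Fin.last n) z) i.castSucc b) := fun z b i => rfl
  have hmi : ∀ z (i : Fin n), Function.update m (Fin.last n) z i.castSucc = m i.castSucc :=
    fun z i => Function.update_of_ne (Fin.castSucc_lt_last i).ne _ _
  have hσ : ∀ z v, σ z (ι v) = l z • v := by
    intro z v
    have : σ z ∘ₗ ι = l z • LinearMap.id := by
      refine (Pi.basisFun R (Fin n)).ext fun i => ?_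
      ext i'
      have h1 : ι (Pi.basisFun R (Fin n) i) = m i.castSucc := by
        simp [ι, Fintype.linearCombination_apply, Pi.single_apply]
      rw [LinearMap.comp_apply, h1, hσa, ← hmi z i]
      by_cases hi : i' = i
      · subst hi
        rw [Function.update_eq_self]
        simp [hl]
      · rw [ω.map_update_self _ (fun h' => hi (Fin.castSucc_injective _ h'))]
        simp [hi]
    exact LinearMap.congr_fun this v
  have hcr' : ∀ z b, l z • b = ι (σ z b) + l b • z := by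
    intro z b
    rw [hl, hcr _ b, Fin.sum_univ_castSucc]
    congr 1
    · simp only [ι, Fintype.linearCombination_apply, hσa, hmi]
    · rw [Function.update_idem, Function.update_self, hl]
  have hex : Function.Exact ι l.rangeRestrict := by
    intro b
    constructor
    · intro hb
      have hb' : l b = 0 := congrArg Subtype.val hb
      have h1 : x • b = ι (σ zx b) := by rw [← hx, hcr', hb', zero_smul, add_zero]
      have h2 : y • b = ι (σ zy b) := by rw [← hy, hcr', hb', zero_smul, add_zero]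
      have h3 : y • σ zx b = x • σ zy b := by
        have h4 : ι (y • σ zx b) = ι (x • σ zy b) := by
          rw [map_smul, map_smul, ← h1, ← h2, smul_comm]
        have h5 := congrArg (σ zx) h4
        rw [hσ, hσ, hx] at h5
        exact smul_right_injective _ (h.ne x y hxy) h5
      have h6 : ∀ i, x ∣ σ zx b i := fun i => h.h2 x y hxy _ _ (congrFun h3 i)
      choose c hc using h6
      refine ⟨c, ?_⟩
      have h7 : σ zx b = x • c := funext hc
      rw [h7, map_smul] at h1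
      have := htf x (ι c - b) (h.ne x y hxy) (by rw [smul_sub, h1, sub_self])
      exact sub_eq_zero.1 this
    · rintro ⟨v, rfl⟩
      apply Subtype.ext
      change l (ι v) = 0
      simp only [ι, Fintype.linearCombination_apply, map_sum, map_smul]
      refine Finset.sum_eq_zero fun i _ => ?_
      rw [hl, ω.map_update_self _ (Fin.castSucc_lt_last i).ne', smul_zero]
  have h1 := fa_superadd (p := p) (e := e) ι l.rangeRestrict l.surjective_rangeRestrict hex x y
    (σ zx) (σ zy) (fun v => by rw [hσ, hx]) (fun v => by rw [hσ, hy])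
  have h2 := fa_le_add_fc (p := p) (e := e) (LinearMap.range l) ⟨zx, hx⟩ ⟨zy, hy⟩
  have h3 := fb_pi (p := p) (e := e) (M := R) (ι := Fin n) x y
  rw [fa_pi] at h1
  rw [Fintype.card_fin] at h1 h3
  calc ((n + 1 : ℕ) : ℕ∞) * fa p R e R = n * fa p R e R + fa p R e R := by push_cast; ring
    _ ≤ n * fa p R e R + (fa p R e (LinearMap.range l) + fc p e x y) := by gcongr
    _ = n * fa p R e R + fa p R e (LinearMap.range l) + fc p e x y := by ring
    _ ≤ fa p R e B + fb p e (Fin n → R) x y + fc p e x y := by gcongr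
    _ ≤ _ := by gcongr

end Pool.Agent.Lib.MP_5022ed_ag
end

-- part Pool.Agent.Lib.MP_5022ed_ag.Vol
section

/-!
Lattices and their volumes at the primes of height at most one.
-/

set_option autoImplicit false

namespace Pool.Agent.Lib.MP_5022ed_ag

open IsLocalRing Module

variable {R : Type*} [CommRing R] {V : Set (Ideal R)} {Good : R → R → Prop}
variable {K : Type*} [Field K] [Algebra R K]
variable {M : Type*} [AddCommGroup M] [Module R M]
variable {ι : Type*} [Fintype ι] [DecidableEq ι]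

/-- Determinant of a family with respect to an embedding in a coordinate space. -/
def dt (j : M →ₗ[R] (ι → K)) (b : ι → M) : K := (Matrix.of fun i => j (b i)).det

/-- The family generates the module after localising at `P`. -/
def Spans {κ : Type*} [Fintype κ] (P : Ideal R) (b : κ → M) : Prop :=
  ∀ m : M, ∃ t ∉ P, ∃ r : κ → R, t • m = ∑ i, r i • b i

lemma dt_update (j : M →ₗ[R] (ι → K)) (b : ι → M) (i : ι) (m : M) :
    dt j (Function.update b i m) = ((Matrix.of fun i => j (b i)).updateRow i (j m)).det := by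
  unfold dt
  congr 1
  ext a c
  by_cases h : a = i
  · subst h; simp
  · simp [h]

lemma dt_cramer (j : M →ₗ[R] (ι → K)) (b : ι → M) (m : M) :
    dt j b • j m = ∑ i, dt j (Function.update b i m) • j (b i) := by
  have h := Matrix.mulVec_cramer (Matrix.of fun i => j (b i)).transpose (j m)
  rw [Matrix.det_transpose] at h
  rw [dt, ← h]
  ext c
  simp [Matrix.mulVec, dotProduct, Matrix.cramer_transpose_apply, dt_update, mul_comm]

lemma dt_smul_eq (j : M →ₗ[R] (ι → K)) (b m : ι → M) (t : ι → R) (r : ι → ι → R)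
    (h : ∀ i, t i • m i = ∑ l, r i l • b l) :
    algebraMap R K (∏ i, t i) * dt j m = algebraMap R K (Matrix.of r).det * dt j b := by
  have h1 : Matrix.diagonal (fun i => algebraMap R K (t i)) * (Matrix.of fun i => j (m i)) =
      (algebraMap R K).mapMatrix (Matrix.of r) * Matrix.of fun i => j (b i) := by
    ext i c
    have := congrFun (congrArg j (h i)) c
    simp only [map_smul, map_sum, Finset.sum_apply, Pi.smul_apply, Algebra.smul_def] at this
    rw [Matrix.diagonal_mul]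
    simpa [Matrix.mul_apply] using this
  have h2 := congrArg Matrix.det h1
  rw [Matrix.det_mul, Matrix.det_mul, Matrix.det_diagonal, ← RingHom.map_det, ← map_prod] at h2
  exact h2

lemma prod_notMem {P : Ideal R} (hP : P.IsPrime) {κ : Type*} [Fintype κ] {t : κ → R}
    (ht : ∀ i, t i ∉ P) : ∏ i, t i ∉ P :=
  (P.primeCompl).prod_mem (t := Finset.univ) (f := t) fun i _ => ht i

lemma mul_notMem {P : Ideal R} (hP : P.IsPrime) {a b : R} (ha : a ∉ P) (hb : b ∉ P) :
    a * b ∉ P := fun h => (hP.mem_or_mem h).elim ha hb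

lemma pow_notMem {P : Ideal R} (hP : P.IsPrime) {a : R} (ha : a ∉ P) (n : ℕ) :
    a ^ n ∉ P := fun h => ha (hP.mem_of_pow_mem n h)

lemma one_notMem {P : Ideal R} (hP : P.IsPrime) : (1 : R) ∉ P :=
  fun h => hP.ne_top ((Ideal.eq_top_iff_one _).2 h)

lemma dt_of_spans {P : Ideal R} (hP : P.IsPrime) (j : M →ₗ[R] (ι → K)) {b : ι → M}
    (hb : Spans P b) (m : ι → M) :
    ∃ t ∉ P, ∃ r : R, algebraMap R K t * dt j m = algebraMap R K r * dt j b := by
  choose t ht r hr using fun i => hb (m i)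
  exact ⟨_, prod_notMem hP ht, _, dt_smul_eq j b m t r hr⟩

lemma spans_of_span {P : Ideal R} (hP : P.IsPrime) {κ σ : Type*} [Fintype κ] {b : κ → M}
    {g : σ → M} (hg : Submodule.span R (Set.range g) = ⊤)
    (h : ∀ s, ∃ t ∉ P, ∃ r : κ → R, t • g s = ∑ i, r i • b i) : Spans P b := by
  intro m
  have hm : m ∈ Submodule.span R (Set.range g) := hg ▸ Submodule.mem_top
  induction hm using Submodule.span_induction with
  | mem x hx => obtain ⟨s, rfl⟩ := hx; exact h s
  | zero => exact ⟨1, one_notMem hP, 0, by simp⟩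
  | add x y _ _ hx hy =>
    obtain ⟨t, ht, r, hr⟩ := hx
    obtain ⟨t', ht', r', hr'⟩ := hy
    refine ⟨t * t', mul_notMem hP ht ht', fun i => t' * r i + t * r' i, ?_⟩
    have : (t * t') • (x + y) = t' • t • x + t • t' • y := by
      rw [smul_add, smul_smul, smul_smul, mul_comm t' t]
    rw [this, hr, hr', Finset.smul_sum, Finset.smul_sum, ← Finset.sum_add_distrib]
    simp [add_smul, mul_smul]
  | smul a x _ hx =>
    obtain ⟨t, ht, r, hr⟩ := hx
    refine ⟨t, ht, fun i => a * r i, ?_⟩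
    rw [smul_comm, hr, Finset.smul_sum]
    simp [mul_smul]

lemma exists_min_of_total {α : Type*} [Finite α] [Nonempty α] (r : α → α → Prop)
    (htot : ∀ a b, r a b ∨ r b a) (htr : ∀ a b c, r a b → r b c → r a c) :
    ∃ a, ∀ b, r a b := by
  classical
  cases nonempty_fintype α
  have : ∀ s : Finset α, s.Nonempty → ∃ a, ∀ b ∈ s, r a b := by
    intro s hs
    induction hs using Finset.Nonempty.cons_induction with
    | singleton a => exact ⟨a, by simpa using htot a a⟩
    | cons a s _ _ ih =>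
      obtain ⟨c, hc⟩ := ih
      rcases htot a c with h | h
      · refine ⟨a, fun b hb => ?_⟩
        rcases Finset.mem_cons.1 hb with rfl | hb
        · simpa using htot b b
        · exact htr _ _ _ h (hc b hb)
      · refine ⟨c, fun b hb => ?_⟩
        rcases Finset.mem_cons.1 hb with rfl | hb
        · exact h
        · exact hc b hb
  obtain ⟨a, ha⟩ := this Finset.univ Finset.univ_nonempty
  exact ⟨a, fun b => ha b (Finset.mem_univ b)⟩

variable [IsDomain R] [IsFractionRing R K]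

lemma Ctx.exists_min (h : Ctx R V Good) {P : Ideal R} (hP : P ∈ V) {α : Type*} [Finite α]
    [Nonempty α] (D : α → K) :
    ∃ a, ∀ b, ∃ t ∉ P, ∃ r : R, algebraMap R K t * D b = algebraMap R K r * D a := by
  have hp := h.prime P hP
  refine exists_min_of_total
    (fun a b => ∃ t ∉ P, ∃ r : R, algebraMap R K t * D b = algebraMap R K r * D a) ?_ ?_
  · intro a b
    obtain ⟨s, hs⟩ := IsLocalization.exist_integer_multiples_of_finite (nonZeroDivisors R)
      ![D a, D b]
    obtain ⟨a', ha'⟩ := hs 0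
    obtain ⟨b', hb'⟩ := hs 1
    simp only [Matrix.cons_val_zero, Matrix.cons_val_one, Algebra.smul_def] at ha' hb'
    have hs0 : algebraMap R K s ≠ 0 := IsFractionRing.to_map_ne_zero_of_mem_nonZeroDivisors s.2
    rcases h.val P hP a' b' with ⟨t, ht, r, hr⟩ | ⟨t, ht, r, hr⟩
    · refine Or.inl ⟨t, ht, r, mul_left_cancel₀ hs0 ?_⟩
      have := congrArg (algebraMap R K) hr
      rw [map_mul, map_mul, ha', hb'] at this
      linear_combination this
    · refine Or.inr ⟨t, ht, r, mul_left_cancel₀ hs0 ?_⟩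
      have := congrArg (algebraMap R K) hr
      rw [map_mul, map_mul, ha', hb'] at this
      linear_combination this
  · rintro a b c ⟨t, ht, r, hr⟩ ⟨t', ht', r', hr'⟩
    refine ⟨t * t', mul_notMem hp ht ht', r * r', ?_⟩
    rw [map_mul, map_mul]
    linear_combination algebraMap R K t * hr' + algebraMap R K r' * hr

omit [IsDomain R] in
lemma Ctx.mem_range (h : Ctx R V Good) (u : K)
    (hu : ∀ P ∈ V, ∃ t ∉ P, ∃ r : R, algebraMap R K t * u = algebraMap R K r) :
    ∃ r : R, algebraMap R K r = u := by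
  let I : Ideal R := (LinearMap.range (Algebra.linearMap R K)).comap
    (LinearMap.toSpanSingleton R K u)
  obtain ⟨x, ⟨a, ha⟩, y, ⟨b, hb⟩, hxy⟩ := h.big I fun P hP hle => by
    obtain ⟨t, ht, r, hr⟩ := hu P hP
    exact ht (hle ⟨r, by simp [Algebra.smul_def, hr]⟩)
  simp only [Algebra.linearMap_apply, LinearMap.toSpanSingleton_apply, Algebra.smul_def] at ha hb
  obtain ⟨c, rfl⟩ := h.h2 x y hxy a b (IsFractionRing.injective R K (by
    rw [map_mul, map_mul, ha, hb]; ring))
  refine ⟨c, mul_left_cancel₀ (b := algebraMap R K c)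
    ((map_ne_zero_iff _ (IsFractionRing.injective R K)).2 (h.ne x y hxy)) ?_⟩
  rw [← ha, map_mul]

lemma Ctx.exists_pbasis (h : Ctx R V Good) [Module.Finite R M] (j : M →ₗ[R] (ι → K))
    (hj : Function.Injective j) (b₀ : ι → M) (hb₀ : dt j b₀ ≠ 0) {P : Ideal R} (hP : P ∈ V) :
    ∃ b : ι → M, Spans P b ∧ dt j b ≠ 0 := by
  have hp := h.prime P hP
  obtain ⟨N, g₀, hg₀⟩ := Module.Finite.exists_fin (R := R) (M := M)
  let g : Fin N ⊕ ι → M := Sum.elim g₀ b₀
  have : Nonempty (ι → Fin N ⊕ ι) := ⟨Sum.inr⟩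
  obtain ⟨τ, hτ⟩ := h.exists_min hP fun τ : ι → Fin N ⊕ ι => dt j (g ∘ τ)
  have hne : dt j (g ∘ τ) ≠ 0 := by
    intro h0
    obtain ⟨t, ht, r, hr⟩ := hτ Sum.inr
    rw [h0, mul_zero, mul_eq_zero] at hr
    rcases hr with hr | hr
    · exact ht (by rw [IsFractionRing.to_map_eq_zero_iff.1 hr]; exact P.zero_mem)
    · exact hb₀ hr
  refine ⟨g ∘ τ, spans_of_span hp hg₀ fun s => ?_, hne⟩
  choose t ht r hr using fun i => hτ (Function.update τ i (Sum.inl s))
  refine ⟨∏ i, t i, prod_notMem hp ht, fun i => (∏ l ∈ Finset.univ.erase i, t l) * r i, hj ?_⟩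
  have hc := dt_cramer j (g ∘ τ) (g₀ s)
  apply smul_right_injective _ hne
  simp only [map_smul, map_sum]
  rw [smul_comm, hc, Finset.smul_sum, Finset.smul_sum]
  refine Finset.sum_congr rfl fun i _ => ?_
  have h1 := hr i
  rw [Function.comp_update] at h1
  change _ * dt j (Function.update (g ∘ τ) i (g₀ s)) = _ at h1
  rw [← Finset.mul_prod_erase _ _ (Finset.mem_univ i), ← smul_assoc, ← algebraMap_smul K (_ * r i),
    smul_smul]
  congr 1
  rw [Algebra.smul_def, map_mul, map_mul]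
  linear_combination algebraMap R K (∏ l ∈ Finset.univ.erase i, t l) * h1

/-- The module is a lattice in a coordinate space with local volumes `ξ`. -/
def Vol (V : Set (Ideal R)) (K : Type*) [Field K] [Algebra R K] (M : Type*) [AddCommGroup M]
    [Module R M] (ι : Type*) [Fintype ι] [DecidableEq ι] (ξ : Ideal R → K) : Prop :=
  ∃ j : M →ₗ[R] (ι → K), Function.Injective j ∧
    ∀ P ∈ V, ξ P ≠ 0 ∧ ∃ b : ι → M, Spans P b ∧ dt j b = ξ P

omit [IsDomain R] [IsFractionRing R K] in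
lemma Vol.reindex {ξ : Ideal R → K} (h : Vol V K M ι ξ) {κ : Type*} [Fintype κ] [DecidableEq κ]
    (η : ι ≃ κ) : Vol V K M κ ξ := by
  obtain ⟨j, hj, h⟩ := h
  refine ⟨(LinearEquiv.funCongrLeft R K η.symm).toLinearMap ∘ₗ j,
    (LinearEquiv.funCongrLeft R K η.symm).injective.comp hj, fun P hP => ⟨(h P hP).1, ?_⟩⟩
  obtain ⟨b, hb, hd⟩ := (h P hP).2
  refine ⟨b ∘ η.symm, fun m => ?_, ?_⟩
  · obtain ⟨t, ht, r, hr⟩ := hb m
    refine ⟨t, ht, r ∘ η.symm, ?_⟩
    rw [hr]
    exact (η.symm.sum_comp fun i => r i • b i).symm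
  · rw [← hd, dt, dt, ← Matrix.det_submatrix_equiv_self η.symm]
    rfl

omit [IsDomain R] [Fintype ι] [DecidableEq ι] in
lemma torsionFree_of_inj (j : M →ₗ[R] (ι → K)) (hj : Function.Injective j) (r : R) (m : M)
    (hr : r ≠ 0) (h : r • m = 0) : m = 0 := by
  apply hj
  have := congrArg j h
  rw [map_smul, map_zero, ← algebraMap_smul K, smul_eq_zero] at this
  rw [map_zero]
  exact this.resolve_left ((map_ne_zero_iff _ (IsFractionRing.injective R K)).2 hr)

variable [IsLocalRing R] {p : ℕ} [ExpChar R p]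

lemma Vol.lower (h : Ctx R V Good) {ξ : Ideal R → K} (hM : Vol V K M ι ξ) (ψ : K)
    (hψ : ∀ P ∈ V, ∃ δ ∉ P, ξ P = ψ * algebraMap R K δ) :
    ∃ x y, Good x y ∧ ∀ e, (Fintype.card ι : ℕ∞) * fa p R e R ≤
      fa p R e M + Fintype.card ι * fb p e R x y + fc p e x y := by
  rcases hn : Fintype.card ι with _ | n
  · obtain ⟨x, -, y, -, hxy⟩ := h.big ⊤ fun P hP hle => (h.prime P hP).ne_top (top_le_iff.1 hle)
    exact ⟨x, y, hxy, fun e => by simp⟩
  obtain ⟨j, hj, hM⟩ := hM.reindex (Fintype.equivFinOfCardEq hn)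
  have hψ0 : ψ ≠ 0 := by
    rintro rfl
    obtain ⟨δ, -, hδ⟩ := hψ ⊥ h.bot_mem
    exact (hM ⊥ h.bot_mem).1 (by simpa using hδ)
  let ω₀ : (Fin (n + 1) → K) [⋀^Fin (n + 1)]→ₗ[R] K :=
    { (ψ⁻¹ • (Matrix.detRowAlternating : (Fin (n + 1) → K) [⋀^Fin (n + 1)]→ₗ[K] K)).toMultilinearMap.restrictScalars R with
      map_eq_zero_of_eq' := fun v a b hv hab =>
        (ψ⁻¹ • (Matrix.detRowAlternating : (Fin (n + 1) → K) [⋀^Fin (n + 1)]→ₗ[K] K)).map_eq_zero_of_eq
          v hv hab }
  let ω₁ : M [⋀^Fin (n + 1)]→ₗ[R] K := ω₀.compLinearMap j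
  have hω₁ : ∀ m, ω₁ m = ψ⁻¹ * dt j m := fun m => rfl
  have hmem : ∀ m, ω₁ m ∈ LinearMap.range (Algebra.linearMap R K) := by
    intro m
    refine h.mem_range _ fun P hP => ?_
    obtain ⟨b, hb, hd⟩ := (hM P hP).2
    obtain ⟨δ, -, hδ⟩ := hψ P hP
    obtain ⟨t, ht, r, hr⟩ := dt_of_spans (h.prime P hP) j hb m
    refine ⟨t, ht, r * δ, ?_⟩
    rw [hω₁, mul_left_comm, hr, hd, hδ, map_mul]
    field_simp
  let E := LinearEquiv.ofInjective (Algebra.linearMap R K) (IsFractionRing.injective R K)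
  let ω : M [⋀^Fin (n + 1)]→ₗ[R] R :=
    E.symm.toLinearMap.compAlternatingMap (ω₁.codRestrict _ hmem)
  have hω : ∀ m, algebraMap R K (ω m) = ψ⁻¹ * dt j m := fun m => by
    rw [← hω₁]
    exact congrArg Subtype.val (E.apply_symm_apply (ω₁.codRestrict _ hmem m))
  obtain ⟨x, y, hxy, hle⟩ := h.lower (p := p) n ω (fun P hP => by
    obtain ⟨b, hb, hd⟩ := (hM P hP).2
    obtain ⟨δ, hδP, hδ⟩ := hψ P hP
    refine ⟨b, ?_⟩
    have : ω b = δ := IsFractionRing.injective R K (by rw [hω, hd, hδ]; field_simp)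
    rwa [this]) (torsionFree_of_inj j hj) (fun m b => by
    apply hj
    rw [map_smul, map_sum, ← algebraMap_smul K, hω, mul_smul, dt_cramer, Finset.smul_sum]
    refine Finset.sum_congr rfl fun i _ => ?_
    rw [map_smul, ← algebraMap_smul K (ω _), hω, mul_smul])
  refine ⟨x, y, hxy, fun e => (hle e).trans ?_⟩
  gcongr
  exact Nat.le_succ n

end Pool.Agent.Lib.MP_5022ed_ag
end

-- part Pool.Agent.Lib.MP_5022ed_ag.VolOps
section

/-!
Volumes of products, powers and Frobenius pushforwards.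
-/

set_option autoImplicit false

namespace Pool.Agent.Lib.MP_5022ed_ag

open IsLocalRing Module

variable {R : Type*} [CommRing R] {V : Set (Ideal R)} {Good : R → R → Prop}
variable {K : Type*} [Field K] [Algebra R K]
variable {M : Type*} [AddCommGroup M] [Module R M] {N : Type*} [AddCommGroup N] [Module R N]
variable {ι : Type*} [Fintype ι] [DecidableEq ι] {κ : Type*} [Fintype κ] [DecidableEq κ]

lemma Vol.congr {ξ ζ : Ideal R → K} (h : Vol V K M ι ξ) (hξ : ∀ P ∈ V, ξ P = ζ P) :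
    Vol V K M ι ζ := by
  obtain ⟨j, hj, h⟩ := h
  exact ⟨j, hj, fun P hP => hξ P hP ▸ h P hP⟩

lemma Vol.prod (hV : ∀ P ∈ V, P.IsPrime) {ξ ζ : Ideal R → K} (h : Vol V K M ι ξ)
    (h' : Vol V K N κ ζ) : Vol V K (M × N) (ι ⊕ κ) (fun P => ξ P * ζ P) := by
  obtain ⟨j, hj, h⟩ := h
  obtain ⟨j', hj', h'⟩ := h'
  let J : (M × N) →ₗ[R] (ι ⊕ κ → K) :=
    (LinearEquiv.sumArrowLequivProdArrow ι κ R K).symm.toLinearMap ∘ₗ j.prodMap j'
  refine ⟨J, (LinearEquiv.sumArrowLequivProdArrow ι κ R K).symm.injective.comp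
    (hj.prodMap hj'), fun P hP => ⟨mul_ne_zero (h P hP).1 (h' P hP).1, ?_⟩⟩
  obtain ⟨b, hb, hd⟩ := (h P hP).2
  obtain ⟨b', hb', hd'⟩ := (h' P hP).2
  refine ⟨Sum.elim (fun i => (b i, 0)) (fun i => (0, b' i)), ?_, ?_⟩
  · rintro ⟨m, n⟩
    obtain ⟨t, ht, r, hr⟩ := hb m
    obtain ⟨t', ht', r', hr'⟩ := hb' n
    refine ⟨t * t', mul_notMem (hV P hP) ht ht',
      Sum.elim (fun i => t' * r i) (fun i => t * r' i), ?_⟩
    rw [Fintype.sum_sum_type]
    ext
    · simp only [Prod.smul_mk, Sum.elim_inl, Sum.elim_inr, smul_zero, Prod.fst_add, Prod.fst_sum,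
        Finset.sum_const_zero, add_zero]
      rw [mul_comm, mul_smul, hr, Finset.smul_sum]
      simp [mul_smul]
    · simp only [Prod.smul_mk, Sum.elim_inl, Sum.elim_inr, smul_zero, Prod.snd_add, Prod.snd_sum,
        Finset.sum_const_zero, zero_add]
      rw [mul_smul, hr', Finset.smul_sum]
      simp [mul_smul]
  · beta_reduce
    rw [← hd, ← hd', dt, dt, dt, ← Matrix.det_fromBlocks_zero₂₁ _ 0]
    congr 1
    ext (a | a) (c | c) <;> simp [J]

lemma Vol.pi (hV : ∀ P ∈ V, P.IsPrime) {ξ : Ideal R → K} (h : Vol V K M ι ξ)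
    (κ : Type*) [Fintype κ] [DecidableEq κ] :
    Vol V K (κ → M) (ι × κ) (fun P => ξ P ^ Fintype.card κ) := by
  obtain ⟨j, hj, h⟩ := h
  let J : (κ → M) →ₗ[R] (ι × κ → K) :=
    LinearMap.pi fun a => LinearMap.proj a.1 ∘ₗ j ∘ₗ (LinearMap.proj a.2 : (κ → M) →ₗ[R] M)
  have hJ : ∀ m a, J m a = j (m a.2) a.1 := fun m a => rfl
  refine ⟨J, ?_, fun P hP => ⟨pow_ne_zero _ (h P hP).1, ?_⟩⟩
  · intro m m' hm
    ext k
    apply hj
    ext i
    exact congrFun hm (i, k)
  obtain ⟨b, hb, hd⟩ := (h P hP).2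
  refine ⟨fun a => Pi.single a.2 (b a.1), fun m => ?_, ?_⟩
  · choose t ht r hr using fun k => hb (m k)
    refine ⟨∏ k, t k, prod_notMem (hV P hP) ht,
      fun a => (∏ l ∈ Finset.univ.erase a.2, t l) * r a.2 a.1, ?_⟩
    ext k
    rw [Pi.smul_apply, ← Finset.mul_prod_erase _ _ (Finset.mem_univ k), mul_comm, mul_smul, hr,
      Finset.smul_sum, Finset.sum_apply, Fintype.sum_prod_type]
    refine Finset.sum_congr rfl fun i _ => ?_
    rw [Finset.sum_eq_single k]
    · simp [mul_smul]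
    · intro k' _ hk
      simp [hk.symm]
    · simp
  · have : (Matrix.of fun a : ι × κ => J (Pi.single a.2 (b a.1))) =
        Matrix.blockDiagonal fun _ : κ => Matrix.of fun i => j (b i) := by
      ext ⟨i, k⟩ ⟨i', k'⟩
      rw [Matrix.blockDiagonal_apply, Matrix.of_apply, hJ]
      by_cases hk : k = k'
      · subst hk; simp
      · simp [hk, Ne.symm hk]
    beta_reduce
    rw [dt, this, Matrix.det_blockDiagonal, ← hd, dt]
    simp

lemma Vol.self (hV : ∀ P ∈ V, P.IsPrime) (hinj : Function.Injective (algebraMap R K)) :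
    Vol V K R Unit (fun _ => 1) := by
  refine ⟨LinearMap.pi fun _ => Algebra.linearMap R K, fun a b hab => hinj (congrFun hab ()),
    fun P hP => ⟨one_ne_zero, fun _ => 1, fun m => ⟨1, one_notMem (hV P hP), fun _ => m, by simp⟩,
      by simp [dt]⟩⟩

variable {p : ℕ} [ExpChar R p] [ExpChar K p]

/-- Multiplication as a ring homomorphism to matrices. -/
noncomputable def mu {ι₀ : Type*} [Fintype ι₀] [DecidableEq ι₀] (u : Basis ι₀ K (Fr p 1 K)) :
    K →+* Matrix ι₀ ι₀ K :=
  (LinearMap.toMatrixAlgEquiv u).toRingEquiv.toRingHom.comp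
    { toFun := fun w => Fr.map p 1 (LinearMap.lsmul K K w)
      map_one' := by ext m; exact one_mul (show K from m)
      map_mul' := fun a b => by ext m; exact mul_assoc a b (show K from m)
      map_zero' := by ext m; exact zero_mul (show K from m)
      map_add' := fun a b => by ext m; exact add_mul a b (show K from m) }

lemma mu_apply {ι₀ : Type*} [Fintype ι₀] [DecidableEq ι₀] (u : Basis ι₀ K (Fr p 1 K)) (w : K) :
    mu u w = LinearMap.toMatrix u u (Fr.map p 1 (LinearMap.lsmul K K w)) := rfl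

lemma det_mu {ι₀ : Type*} [Fintype ι₀] [DecidableEq ι₀] (u : Basis ι₀ K (Fr p 1 K)) {ρ : ℕ}
    (hρ : Fintype.card ι₀ = ρ * p) (w : K) : (mu u w).det = w ^ ρ := by
  apply frobenius_inj K p
  rw [frobenius_def, frobenius_def, ← Matrix.det_pow, ← map_pow, ← pow_mul, ← hρ, mu_apply]
  have : Fr.map p 1 (LinearMap.lsmul K K (w ^ p)) = w • LinearMap.id := by
    ext m
    change w ^ p * (show K from m) = w ^ p ^ 1 * (show K from m)
    rw [pow_one]
  rw [this, map_smul, LinearMap.toMatrix_id, Matrix.det_smul, Matrix.det_one, mul_one]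

omit [ExpChar R p] in
lemma repr_smul {ι₀ : Type*} (u : Basis ι₀ K (Fr p 1 K)) (r : R) (w : K) (l : ι₀) :
    u.repr (Fr.mk p 1 (algebraMap R K (r ^ p ^ 1) * w)) l = r • u.repr (Fr.mk p 1 w) l := by
  rw [map_pow, ← smul_eq_mul, ← Fr.smul_mk, map_smul, Finsupp.smul_apply, algebraMap_smul]

lemma Vol.fr (hV : ∀ P ∈ V, P.IsPrime) {ξ ξ₀ : Ideal R → K} (h : Vol V K M ι ξ)
    {ι₀ : Type*} [Fintype ι₀] [DecidableEq ι₀] (u : Basis ι₀ K (Fr p 1 K)) {ρ : ℕ}
    (hρ : Fintype.card ι₀ = ρ * p)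
    (h₀ : ∀ P ∈ V, ξ₀ P ≠ 0 ∧ ∃ b₀ : ι₀ → R, Spans P (fun l => Fr.mk p 1 (b₀ l)) ∧
      (Matrix.of fun l l' => u.repr (Fr.mk p 1 (algebraMap R K (b₀ l))) l').det = ξ₀ P) :
    Vol V K (Fr p 1 M) (ι × ι₀) (fun P => ξ P ^ ρ * ξ₀ P ^ Fintype.card ι) := by
  obtain ⟨j, hj, h⟩ := h
  let J : Fr p 1 M →ₗ[R] (ι × ι₀ → K) :=
    { toFun := fun m a => u.repr (Fr.mk p 1 (j ((Fr.mk p 1).symm m) a.1)) a.2
      map_add' := fun a b => by ext c; simp
      map_smul' := fun r m => by
        ext c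
        rw [Fr.symm_smul, map_smul, Pi.smul_apply, Algebra.smul_def, repr_smul]
        rfl }
  have hJ : ∀ m a, J (Fr.mk p 1 m) a = u.repr (Fr.mk p 1 (j m a.1)) a.2 := fun m a => rfl
  refine ⟨J, ?_, fun P hP => ⟨mul_ne_zero (pow_ne_zero _ (h P hP).1) (pow_ne_zero _ (h₀ P hP).1),
    ?_⟩⟩
  · intro m m' hm
    apply (Fr.mk p 1).symm.injective
    apply hj
    ext i
    apply (Fr.mk p 1).injective
    apply u.repr.injective
    ext l
    exact congrFun hm (i, l)
  obtain ⟨b, hb, hd⟩ := (h P hP).2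
  obtain ⟨b₀, hb₀, hd₀⟩ := (h₀ P hP).2
  have hp := hV P hP
  refine ⟨fun a => Fr.mk p 1 (b₀ a.2 • b a.1), fun m => ?_, ?_⟩
  · obtain ⟨m, rfl⟩ := (Fr.mk p 1).surjective m
    obtain ⟨t, ht, r, hr⟩ := hb m
    choose s hs o ho using fun i => hb₀ (Fr.mk p 1 (t ^ (p - 1) * r i))
    refine ⟨t * ∏ i, s i, mul_notMem hp ht (prod_notMem hp hs),
      fun a => (∏ l ∈ Finset.univ.erase a.1, s l) * o a.1 a.2, ?_⟩
    have hp1 : p - 1 + 1 = p := Nat.sub_add_cancel (expChar_pos R p)
    have h1 : t • Fr.mk p 1 m = ∑ i, Fr.mk p 1 ((t ^ (p - 1) * r i) • b i) := by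
      rw [Fr.smul_mk, ← map_sum, pow_one]
      congr 1
      conv_lhs => rw [← hp1, pow_succ, mul_smul, hr, Finset.smul_sum]
      simp [mul_smul]
    rw [mul_comm, mul_smul, h1, Finset.smul_sum, Fintype.sum_prod_type]
    refine Finset.sum_congr rfl fun i _ => ?_
    have h2 := congrArg (Fr.map p 1 (LinearMap.toSpanSingleton R M (b i))) (ho i)
    rw [map_smul, map_sum, Fr.map_mk, LinearMap.toSpanSingleton_apply] at h2
    rw [← Finset.mul_prod_erase _ _ (Finset.mem_univ i), mul_comm, mul_smul, h2, Finset.smul_sum]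
    refine Finset.sum_congr rfl fun l _ => ?_
    rw [map_smul, Fr.map_mk, LinearMap.toSpanSingleton_apply, mul_smul]
  · have : (Matrix.of fun a : ι × ι₀ => J (Fr.mk p 1 (b₀ a.2 • b a.1))).transpose =
        Matrix.comp ι ι ι₀ ι₀ K ((Matrix.of fun i => j (b i)).transpose.map (mu u)) *
          Matrix.kronecker (1 : Matrix ι ι K)
            (Matrix.of fun l l' => u.repr (Fr.mk p 1 (algebraMap R K (b₀ l))) l').transpose := by
      ext ⟨i', l'⟩ ⟨i, l⟩
      rw [Matrix.transpose_apply, Matrix.of_apply, hJ, Matrix.mul_apply, Fintype.sum_prod_type,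
        Finset.sum_eq_single i]
      · have h3 := congrFun (LinearMap.toMatrix_mulVec_repr u u
          (Fr.map p 1 (LinearMap.lsmul K K (j (b i) i'))) (Fr.mk p 1 (algebraMap R K (b₀ l)))) l'
        rw [Fr.map_mk, LinearMap.lsmul_apply, smul_eq_mul, mul_comm] at h3
        rw [map_smul, Pi.smul_apply, Algebra.smul_def, ← h3]
        simp [Matrix.mulVec, dotProduct, mu_apply]
      · intro i'' _ hi
        simp [hi]
      · simp
    beta_reduce
    rw [dt, ← Matrix.det_transpose, this, Matrix.det_mul, ← Matrix.det_det, Matrix.kronecker,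
      Matrix.det_kronecker, Matrix.det_transpose, Matrix.det_transpose, hd₀, det_mu u hρ, ← hd, dt]
    simp

end Pool.Agent.Lib.MP_5022ed_ag
end
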